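import Pool.Agent.Helper20.SH.NFT

/-!
# Project RC, SHARP, zone II: the shift form on the tail, lower bound

`mix_entry`, `mix_bd`: the kernel on indices of opposite signs.
`NS_tail`: the lower bound of `NS` on sequences supported in `|m| ≥ M0`.
-/

set_option autoImplicit false

open MeasureTheory Set Filter Topology

namespace Pool.Agent.Helper20.SH

open Helper49.LT hiding sg
open Pool.Agent.Helper99.RC
open Pool.Agent.Helper61.RC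
open Helper95.RC
open Helper87.RC (BM)

theorem exp_third : Real.exp (1 / 3) ≤ 7 / 5 := by
  have h1 : Real.exp (1 / 3) ^ 3 = Real.exp 1 := by
    rw [← Real.exp_nat_mul]
    norm_num
  have h2 := Real.exp_one_lt_d9
  by_contra h
  push Not at h
  have h3 : ((7 : ℝ) / 5) ^ 3 ≤ Real.exp (1 / 3) ^ 3 :=
    pow_le_pow_left₀ (by norm_num) h.le 3
  rw [h1] at h3
  norm_num at h3
  linarith

theorem exp_nat_third (p : ℕ) : Real.exp ((p : ℝ) / 3) ≤ (7 / 5 : ℝ) ^ p := by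
  have h : Real.exp ((p : ℝ) / 3) = Real.exp (1 / 3) ^ p := by
    rw [← Real.exp_nat_mul]
    congr 1
    ring
  rw [h]
  exact pow_le_pow_left₀ (Real.exp_pos _).le exp_third p

/-- `(3/10)^J (7/5)^p` for indices of opposite signs -/
theorem geo_mix (J p M0 e : ℕ) (h1 : 3 * J = 2 * M0 + e) (h2 : p ≤ e) :
    (3 / 10 : ℝ) ^ J * (7 / 5) ^ p ≤ (9 / 20) ^ M0 * (47 / 50) ^ e := by
  have h3 : ((3 / 10 : ℝ) ^ J * (7 / 5) ^ p) ^ 3 ≤ ((9 / 20) ^ M0 * (47 / 50) ^ e) ^ 3 := by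
    calc ((3 / 10 : ℝ) ^ J * (7 / 5) ^ p) ^ 3 = (3 / 10) ^ (3 * J) * ((7 / 5) ^ 3) ^ p := by
          rw [mul_pow, ← pow_mul, ← pow_mul, ← pow_mul, mul_comm J 3, mul_comm p 3]
      _ ≤ (3 / 10) ^ (3 * J) * ((7 / 5) ^ 3) ^ e := by
          gcongr
          norm_num
      _ = (9 / 100) ^ M0 * (3 / 10 * (7 / 5) ^ 3) ^ e := by
          rw [h1, pow_add, pow_mul, mul_pow]
          norm_num
          ring
      _ ≤ ((9 / 20) ^ 3) ^ M0 * ((47 / 50) ^ 3) ^ e := by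
          gcongr
          · norm_num
          · norm_num
      _ = ((9 / 20) ^ M0 * (47 / 50) ^ e) ^ 3 := by
          rw [mul_pow, ← pow_mul, ← pow_mul, ← pow_mul, ← pow_mul, mul_comm 3 M0, mul_comm 3 e]
  exact (pow_le_pow_iff_left₀ (by positivity) (by positivity) (by norm_num)).1 h3

/-- the entry for indices of opposite signs -/
theorem mix_entry (d k ph : ℝ) (hk : |k| ≤ 2 / 5) (M0 : ℕ) (hM : 12 ≤ M0) (m n : ℤ)
    (hm : M0 ≤ m.natAbs) (hn : M0 ≤ n.natAbs) (hs : (0 < m ∧ n < 0) ∨ (m < 0 ∧ 0 < n)) :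
    ‖(2 : ℂ) / ((m + n : ℤ) : ℂ) * CS d k ph m n‖ ≤
      1 / 12 * (9 / 20) ^ M0 * ((47 / 50) ^ (m.natAbs - M0) * (47 / 50) ^ (n.natAbs - M0)) := by
  have hpos : (0 : ℝ) ≤ 1 / 12 * (9 / 20) ^ M0 *
      ((47 / 50) ^ (m.natAbs - M0) * (47 / 50) ^ (n.natAbs - M0)) := by positivity
  by_cases h : (3 : ℤ) ∣ n - m
  · obtain ⟨j, hj⟩ := h
    rw [norm_mul, norm_two_div]
    have h1 := norm_CS_le d k ph m n j hj
    set p := (m + n).natAbs with hp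
    by_cases hp0 : p = 0
    · rw [hp0, Nat.cast_zero, div_zero, zero_mul]
      exact hpos
    have hpr : (0 : ℝ) < p := by exact_mod_cast Nat.pos_of_ne_zero hp0
    set J := j.natAbs with hJ
    have hJe : 3 * J = 2 * M0 + ((m.natAbs - M0) + (n.natAbs - M0)) := by omega
    have hpe : p ≤ (m.natAbs - M0) + (n.natAbs - M0) := by omega
    have hJ8 : 8 ≤ J := by omega
    obtain ⟨J', hJ'⟩ : ∃ J', J = J' + 1 := ⟨J - 1, by omega⟩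
    have hg := geo_mix J p M0 _ hJe hpe
    have e1 : (p : ℝ) * |k| / 4 ≤ p / 10 := by
      have := mul_le_mul_of_nonneg_left hk hpr.le
      linarith
    have e2 : ((p : ℝ) * |k| / 4) ^ J / (J.factorial : ℝ) ≤ (p / 10) ^ J / (J.factorial : ℝ) := by
      gcongr
    have e3 : ((p : ℝ) / 10) ^ J / (J.factorial : ℝ) =
        p / 10 / J * (((3 / 10) ^ J') * (((p : ℝ) / 3) ^ J' / (J'.factorial : ℝ))) := by
      rw [hJ', Nat.factorial_succ, pow_succ]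
      have : (J' : ℝ) + 1 ≠ 0 := by positivity
      have h5 : (J'.factorial : ℝ) ≠ 0 := by positivity
      have h6 : ((p : ℝ) / 10) ^ J' = (3 / 10) ^ J' * ((p : ℝ) / 3) ^ J' := by
        rw [← mul_pow]
        congr 1
        ring
      rw [h6]
      push_cast
      field_simp
    have e4 : ((p : ℝ) / 3) ^ J' / (J'.factorial : ℝ) ≤ (7 / 5) ^ p :=
      (Real.pow_div_factorial_le_exp _ (by positivity) J').trans (exp_nat_third p)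
    have hJr : (8 : ℝ) ≤ J := by exact_mod_cast hJ8
    have hJ0 : (0 : ℝ) < J := by linarith
    calc 2 / (p : ℝ) * ‖CS d k ph m n‖ ≤ 2 / (p : ℝ) * ((p / 10) ^ J / (J.factorial : ℝ)) := by
          apply mul_le_mul_of_nonneg_left (h1.trans e2) (by positivity)
      _ = 1 / (5 * J) * ((3 / 10) ^ J' * (((p : ℝ) / 3) ^ J' / (J'.factorial : ℝ))) := by
          rw [e3]
          field_simp
          norm_num
      _ ≤ 1 / (5 * J) * ((3 / 10) ^ J' * (7 / 5) ^ p) := by gcongr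
      _ = 2 / (3 * J) * ((3 / 10) ^ J * (7 / 5) ^ p) := by
          rw [show ((3 : ℝ) / 10) ^ J = (3 / 10) ^ J' * (3 / 10) by rw [hJ', pow_succ]]
          field_simp
          norm_num
      _ ≤ 2 / (3 * 8) * ((9 / 20) ^ M0 * (47 / 50) ^ ((m.natAbs - M0) + (n.natAbs - M0))) := by
          apply mul_le_mul _ hg (by positivity) (by positivity)
          gcongr
      _ = _ := by
          rw [pow_add]
          ring
  · rw [CS_zero d k ph m n h, mul_zero, norm_zero]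
    exact hpos

theorem geo_sq (T : Finset ℤ) (M0 : ℕ) (hT : ∀ m ∈ T, M0 ≤ m.natAbs)
    (hs : (∀ m ∈ T, 0 < m) ∨ (∀ m ∈ T, m < 0)) :
    ∑ m ∈ T, ((47 / 50 : ℝ) ^ (m.natAbs - M0)) ^ 2 ≤ 9 := by
  have h2 : ∀ m : ℤ, ((47 / 50 : ℝ) ^ (m.natAbs - M0)) ^ 2 =
      (fun k : ℕ => (2209 / 2500 : ℝ) ^ k) (m.natAbs - M0) := by
    intro m
    show _ = (2209 / 2500 : ℝ) ^ (m.natAbs - M0)
    rw [← pow_mul, mul_comm, pow_mul]
    norm_num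
  simp_rw [h2]
  have hinj : Set.InjOn (fun m : ℤ => m.natAbs - M0) (T : Set ℤ) := by
    intro x hx y hy hxy
    have hx' := hT x (Finset.mem_coe.1 hx)
    have hy' := hT y (Finset.mem_coe.1 hy)
    have hxy' : x.natAbs - M0 = y.natAbs - M0 := hxy
    rcases hs with h | h
    · have h1 := h x (Finset.mem_coe.1 hx)
      have h2 := h y (Finset.mem_coe.1 hy)
      omega
    · have h1 := h x (Finset.mem_coe.1 hx)
      have h2 := h y (Finset.mem_coe.1 hy)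
      omega
  rw [← Finset.sum_image (f := fun k : ℕ => (2209 / 2500 : ℝ) ^ k) hinj]
  refine (geo_nat (2209 / 2500) (by norm_num) (by norm_num) 0 _ fun k _ => Nat.zero_le k).trans ?_
  norm_num

/-- indices of opposite signs -/
theorem mix_bd (d k ph : ℝ) (hk : |k| ≤ 2 / 5) (M0 : ℕ) (hM : 12 ≤ M0) (S T : Finset ℤ)
    (a b : ℤ → ℂ) (hS : ∀ m ∈ S, M0 ≤ m.natAbs) (hT : ∀ m ∈ T, M0 ≤ m.natAbs)
    (hs : ((∀ m ∈ S, 0 < m) ∧ (∀ m ∈ T, m < 0)) ∨ ((∀ m ∈ S, m < 0) ∧ (∀ m ∈ T, 0 < m))) :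
    ‖∑ m ∈ S, ∑ n ∈ T, (2 : ℂ) / ((m + n : ℤ) : ℂ) * (a m * (starRingEnd ℂ) (b n) *
        CS d k ph m n)‖ ≤
      3 / 8 * (9 / 20) ^ M0 * (∑ m ∈ S, ‖a m‖ ^ 2 + ∑ n ∈ T, ‖b n‖ ^ 2) := by
  set r : ℤ → ℝ := fun m => (47 / 50 : ℝ) ^ (m.natAbs - M0) with hr
  have e1 : ‖∑ m ∈ S, ∑ n ∈ T, (2 : ℂ) / ((m + n : ℤ) : ℂ) * (a m * (starRingEnd ℂ) (b n) *
        CS d k ph m n)‖ ≤
      ∑ m ∈ S, ∑ n ∈ T, 1 / 12 * (9 / 20) ^ M0 * ((‖a m‖ * r m) * (‖b n‖ * r n)) := by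
    refine (norm_sum_le _ _).trans (Finset.sum_le_sum fun m hm => ?_)
    refine (norm_sum_le _ _).trans (Finset.sum_le_sum fun n hn => ?_)
    have h := mix_entry d k ph hk M0 hM m n (hS m hm) (hT n hn) (by
      rcases hs with h | h
      · exact Or.inl ⟨h.1 m hm, h.2 n hn⟩
      · exact Or.inr ⟨h.1 m hm, h.2 n hn⟩)
    have e : (2 : ℂ) / ((m + n : ℤ) : ℂ) * (a m * (starRingEnd ℂ) (b n) * CS d k ph m n) =
        (a m * (starRingEnd ℂ) (b n)) * ((2 : ℂ) / ((m + n : ℤ) : ℂ) * CS d k ph m n) := by ring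
    rw [e, norm_mul, norm_mul, Complex.norm_conj]
    calc ‖a m‖ * ‖b n‖ * ‖(2 : ℂ) / ((m + n : ℤ) : ℂ) * CS d k ph m n‖
        ≤ ‖a m‖ * ‖b n‖ * (1 / 12 * (9 / 20) ^ M0 * (r m * r n)) := by gcongr
      _ = _ := by ring
  refine e1.trans ?_
  have e2 : ∑ m ∈ S, ∑ n ∈ T, 1 / 12 * (9 / 20 : ℝ) ^ M0 * ((‖a m‖ * r m) * (‖b n‖ * r n)) =
      1 / 12 * (9 / 20) ^ M0 * ((∑ m ∈ S, ‖a m‖ * r m) * ∑ n ∈ T, ‖b n‖ * r n) := by
    rw [Finset.sum_mul_sum, Finset.mul_sum]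
    refine Finset.sum_congr rfl fun m _ => ?_
    rw [Finset.mul_sum]
  rw [e2]
  have hrS : ∑ m ∈ S, r m ^ 2 ≤ 9 := geo_sq S M0 hS (hs.elim (fun h => Or.inl h.1) fun h => Or.inr h.1)
  have hrT : ∑ m ∈ T, r m ^ 2 ≤ 9 := geo_sq T M0 hT (hs.elim (fun h => Or.inr h.2) fun h => Or.inl h.2)
  have cs : ∀ (U : Finset ℤ) (c : ℤ → ℂ), ∑ m ∈ U, r m ^ 2 ≤ 9 →
      (∑ m ∈ U, ‖c m‖ * r m) ^ 2 ≤ 9 * ∑ m ∈ U, ‖c m‖ ^ 2 := by
    intro U c hU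
    have h := Finset.sum_mul_sq_le_sq_mul_sq U (fun m => ‖c m‖) r
    refine h.trans ?_
    rw [mul_comm]
    exact mul_le_mul_of_nonneg_right hU (Finset.sum_nonneg fun m _ => by positivity)
  have h1 := cs S a hrS
  have h2 := cs T b hrT
  set X := ∑ m ∈ S, ‖a m‖ * r m
  set Y := ∑ n ∈ T, ‖b n‖ * r n
  have h3 : X * Y ≤ 9 / 2 * (∑ m ∈ S, ‖a m‖ ^ 2 + ∑ n ∈ T, ‖b n‖ ^ 2) := by
    nlinarith [sq_nonneg (X - Y)]
  have h4 : (0 : ℝ) ≤ 1 / 12 * (9 / 20) ^ M0 := by positivity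
  calc 1 / 12 * (9 / 20 : ℝ) ^ M0 * (X * Y)
      ≤ 1 / 12 * (9 / 20) ^ M0 * (9 / 2 * (∑ m ∈ S, ‖a m‖ ^ 2 + ∑ n ∈ T, ‖b n‖ ^ 2)) :=
        mul_le_mul_of_nonneg_left h3 h4
    _ = _ := by ring

/-- indices of one sign, the kernel `2 / (m + n)` -/
theorem same_sgn (d k ph δ : ℝ) (hδ : 0 < δ) (hk : δ ^ 2 ≤ 1 - 9 / 4 * k ^ 2) (S T : Finset ℤ)
    (a b : ℤ → ℂ) (hs : ((∀ m ∈ S, 0 < m) ∧ (∀ m ∈ T, 0 < m)) ∨
      ((∀ m ∈ S, m < 0) ∧ (∀ m ∈ T, m < 0))) :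
    δ * ‖∑ m ∈ S, ∑ n ∈ T, (2 : ℂ) / ((m + n : ℤ) : ℂ) * (a m * (starRingEnd ℂ) (b n) *
        CS d k ph m n)‖ ≤
      (∑ m ∈ S, ‖a m‖ ^ 2 / |(m : ℝ)| + ∑ n ∈ T, ‖b n‖ ^ 2 / |(n : ℝ)|) / 2 := by
  have hS : ∀ m ∈ S, 1 ≤ m.natAbs := by
    intro m hm
    rcases hs with h | h
    · have := h.1 m hm
      omega
    · have := h.1 m hm
      omega
  have hT : ∀ m ∈ T, 1 ≤ m.natAbs := by
    intro m hm
    rcases hs with h | h
    · have := h.2 m hm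
      omega
    · have := h.2 m hm
      omega
  have h := same_bd d k ph δ hδ hk S T a b hS hT 1 one_pos
  have hc : ∀ m : ℤ, ((m.natAbs : ℕ) : ℝ) = |(m : ℝ)| := by
    intro m
    rw [Nat.cast_natAbs, Int.cast_abs]
  simp_rw [hc] at h
  have e : ‖∑ m ∈ S, ∑ n ∈ T, (2 : ℂ) / ((m + n : ℤ) : ℂ) * (a m * (starRingEnd ℂ) (b n) *
        CS d k ph m n)‖ = 2 * ‖∑ m ∈ S, ∑ n ∈ T, (1 / ((m.natAbs + n.natAbs : ℕ) : ℂ)) *
        (a m * (starRingEnd ℂ) (b n) * CS d k ph m n)‖ := by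
    obtain ⟨s, hs1, hs2⟩ : ∃ s : ℂ, ‖s‖ = 1 ∧ ∀ m ∈ S, ∀ n ∈ T,
        (2 : ℂ) / ((m + n : ℤ) : ℂ) = s * 2 * (1 / ((m.natAbs + n.natAbs : ℕ) : ℂ)) := by
      rcases hs with h | h
      · refine ⟨1, norm_one, fun m hm n hn => ?_⟩
        have h1 := h.1 m hm
        have h2 := h.2 n hn
        have h3 : (m + n : ℤ) = ((m.natAbs + n.natAbs : ℕ) : ℤ) := by omega
        rw [h3, Int.cast_natCast]
        ring
      · refine ⟨-1, by simp, fun m hm n hn => ?_⟩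
        have h1 := h.1 m hm
        have h2 := h.2 n hn
        have h3 : (m + n : ℤ) = -((m.natAbs + n.natAbs : ℕ) : ℤ) := by omega
        rw [h3, Int.cast_neg, Int.cast_natCast, div_neg]
        ring
    have e1 : ∑ m ∈ S, ∑ n ∈ T, (2 : ℂ) / ((m + n : ℤ) : ℂ) * (a m * (starRingEnd ℂ) (b n) *
        CS d k ph m n) = (s * 2) * ∑ m ∈ S, ∑ n ∈ T, (1 / ((m.natAbs + n.natAbs : ℕ) : ℂ)) *
        (a m * (starRingEnd ℂ) (b n) * CS d k ph m n) := by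
      rw [Finset.mul_sum]
      refine Finset.sum_congr rfl fun m hm => ?_
      rw [Finset.mul_sum]
      refine Finset.sum_congr rfl fun n hn => ?_
      rw [hs2 m hm n hn]
      ring
    rw [e1, norm_mul, norm_mul, hs1]
    simp
  rw [e]
  rw [inv_one] at h
  linarith

/-- **THE LOWER BOUND ON THE TAIL** -/
theorem NS_tail (d k ph δ : ℝ) (hδ : 0 < δ) (hδk : δ ^ 2 ≤ 1 - 9 / 4 * k ^ 2) (hk : |k| ≤ 2 / 5)
    (M0 : ℕ) (hM : 12 ≤ M0) (S : Finset ℤ) (a b : ℤ → ℂ) (ha : ∀ m, m.natAbs < M0 → a m = 0)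
    (hb : ∀ m, m.natAbs < M0 → b m = 0) :
    (1 - δ⁻¹) * ∑ m ∈ S.filter (fun m => 0 < m), (‖a m‖ ^ 2 + ‖b m‖ ^ 2) / |(m : ℝ)|
      - (1 + δ⁻¹) * ∑ m ∈ S.filter (fun m => m < 0), (‖a m‖ ^ 2 + ‖b m‖ ^ 2) / |(m : ℝ)|
      - 3 / 2 * (9 / 20) ^ M0 * ∑ m ∈ S, (‖a m‖ ^ 2 + ‖b m‖ ^ 2) ≤ NS d k ph S a b := by
  set T := S.filter (fun m => M0 ≤ m.natAbs) with hTdef
  have hTS : T ⊆ S := Finset.filter_subset _ _
  have hoff : ∀ m, m ∈ S → m ∉ T → a m = 0 ∧ b m = 0 := by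
    intro m hm hmT
    have : m.natAbs < M0 := by
      by_contra h
      exact hmT (Finset.mem_filter.2 ⟨hm, not_lt.1 h⟩)
    exact ⟨ha m this, hb m this⟩
  set P := T.filter (fun m => 0 < m) with hP
  set Q := T.filter (fun m => ¬ 0 < m) with hQ
  have hPm : ∀ m ∈ P, 0 < m := fun m hm => (Finset.mem_filter.1 hm).2
  have hPa : ∀ m ∈ P, M0 ≤ m.natAbs := fun m hm =>
    (Finset.mem_filter.1 (Finset.mem_filter.1 hm).1).2
  have hQa : ∀ m ∈ Q, M0 ≤ m.natAbs := fun m hm =>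
    (Finset.mem_filter.1 (Finset.mem_filter.1 hm).1).2
  have hQm : ∀ m ∈ Q, m < 0 := by
    intro m hm
    have h1 := (Finset.mem_filter.1 hm).2
    have h2 := hQa m hm
    omega
  -- restriction to `T`
  have r1 : NS d k ph S a b = ∑ m ∈ T, (‖a m‖ ^ 2 + ‖b m‖ ^ 2) / (m : ℝ)
      + 2 * (∑ m ∈ T, ∑ n ∈ T, (2 : ℂ) / ((m + n : ℤ) : ℂ) * (a m * (starRingEnd ℂ) (b n) *
        CS d k ph m n)).re := by
    unfold NS
    have h0 : a 0 = 0 := ha 0 (by simp; omega)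
    rw [h0, zero_mul, Complex.zero_im, mul_zero, add_zero]
    congr 1
    · symm
      apply Finset.sum_subset hTS
      intro m hm hmT
      rw [(hoff m hm hmT).1, (hoff m hm hmT).2]
      simp
    · have e : ∀ m n, ent d k ph a b m n = 2 * ((2 : ℂ) / ((m + n : ℤ) : ℂ) *
          (a m * (starRingEnd ℂ) (b n) * CS d k ph m n)).re := by
        intro m n
        unfold ent
        have e1 : (2 : ℂ) / ((m + n : ℤ) : ℂ) = ((2 / ((m + n : ℤ) : ℝ) : ℝ) : ℂ) := by push_cast; ring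
        rw [e1, Complex.re_ofReal_mul]
        ring
      simp_rw [e, ← Finset.mul_sum, ← Complex.re_sum]
      congr 2
      symm
      have h1 : ∀ m ∈ T, ∑ n ∈ T, (2 : ℂ) / ((m + n : ℤ) : ℂ) * (a m * (starRingEnd ℂ) (b n) *
          CS d k ph m n) = ∑ n ∈ S, (2 : ℂ) / ((m + n : ℤ) : ℂ) * (a m * (starRingEnd ℂ) (b n) *
          CS d k ph m n) := by
        intro m _
        apply Finset.sum_subset hTS
        intro n hn hnT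
        rw [(hoff n hn hnT).2]
        simp
      rw [Finset.sum_congr rfl h1]
      apply Finset.sum_subset hTS
      intro m hm hmT
      apply Finset.sum_eq_zero
      intro n _
      rw [(hoff m hm hmT).1]
      simp
  -- the splitting
  set X : ℤ → ℤ → ℂ := fun m n => (2 : ℂ) / ((m + n : ℤ) : ℂ) * (a m * (starRingEnd ℂ) (b n) *
        CS d k ph m n) with hX
  have r2 : ∑ m ∈ T, ∑ n ∈ T, X m n = (∑ m ∈ P, ∑ n ∈ P, X m n) + (∑ m ∈ P, ∑ n ∈ Q, X m n)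
      + ((∑ m ∈ Q, ∑ n ∈ P, X m n) + (∑ m ∈ Q, ∑ n ∈ Q, X m n)) := by
    have h1 : ∀ m, ∑ n ∈ T, X m n = (∑ n ∈ P, X m n) + ∑ n ∈ Q, X m n := fun m =>
      (Finset.sum_filter_add_sum_filter_not T (fun m => 0 < m) _).symm
    have h2 : ∑ m ∈ T, ∑ n ∈ T, X m n = (∑ m ∈ P, ∑ n ∈ T, X m n) + ∑ m ∈ Q, ∑ n ∈ T, X m n :=
      (Finset.sum_filter_add_sum_filter_not T (fun m => 0 < m) _).symm
    rw [h2]
    simp_rw [h1, Finset.sum_add_distrib]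
  have b1 := same_sgn d k ph δ hδ hδk P P a b (Or.inl ⟨hPm, hPm⟩)
  have b2 := same_sgn d k ph δ hδ hδk Q Q a b (Or.inr ⟨hQm, hQm⟩)
  have b3 := mix_bd d k ph hk M0 hM P Q a b hPa hQa (Or.inl ⟨hPm, hQm⟩)
  have b4 := mix_bd d k ph hk M0 hM Q P a b hQa hPa (Or.inr ⟨hQm, hPm⟩)
  have hre : ∀ z : ℂ, -‖z‖ ≤ z.re := fun z => (abs_le.1 (Complex.abs_re_le_norm z)).1
  -- the static part
  have s1 : ∑ m ∈ T, (‖a m‖ ^ 2 + ‖b m‖ ^ 2) / (m : ℝ) =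
      ∑ m ∈ P, (‖a m‖ ^ 2 + ‖b m‖ ^ 2) / |(m : ℝ)| - ∑ m ∈ Q, (‖a m‖ ^ 2 + ‖b m‖ ^ 2) / |(m : ℝ)| := by
    rw [← Finset.sum_filter_add_sum_filter_not T (fun m => 0 < m), sub_eq_add_neg,
      ← Finset.sum_neg_distrib]
    congr 1
    · refine Finset.sum_congr rfl fun m hm => ?_
      rw [abs_of_pos (by exact_mod_cast hPm m hm)]
    · refine Finset.sum_congr rfl fun m hm => ?_
      rw [abs_of_neg (by exact_mod_cast hQm m hm), div_neg, neg_neg]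
  -- the filters
  have f1 : ∑ m ∈ S.filter (fun m => 0 < m), (‖a m‖ ^ 2 + ‖b m‖ ^ 2) / |(m : ℝ)| =
      ∑ m ∈ P, (‖a m‖ ^ 2 + ‖b m‖ ^ 2) / |(m : ℝ)| := by
    symm
    apply Finset.sum_subset
    · intro m hm
      exact Finset.mem_filter.2 ⟨hTS (Finset.mem_filter.1 hm).1, (Finset.mem_filter.1 hm).2⟩
    · intro m hm hmP
      have h1 := Finset.mem_filter.1 hm
      have h2 : m ∉ T := fun h => hmP (Finset.mem_filter.2 ⟨h, h1.2⟩)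
      rw [(hoff m h1.1 h2).1, (hoff m h1.1 h2).2]
      simp
  have f2 : ∑ m ∈ S.filter (fun m => m < 0), (‖a m‖ ^ 2 + ‖b m‖ ^ 2) / |(m : ℝ)| =
      ∑ m ∈ Q, (‖a m‖ ^ 2 + ‖b m‖ ^ 2) / |(m : ℝ)| := by
    symm
    apply Finset.sum_subset
    · intro m hm
      exact Finset.mem_filter.2 ⟨hTS (Finset.mem_filter.1 hm).1, hQm m hm⟩
    · intro m hm hmQ
      have h1 := Finset.mem_filter.1 hm
      have h2 : m ∉ T := fun h => hmQ (Finset.mem_filter.2 ⟨h, by omega⟩)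
      rw [(hoff m h1.1 h2).1, (hoff m h1.1 h2).2]
      simp
  have f3 : ∑ m ∈ P, ‖a m‖ ^ 2 + ∑ m ∈ Q, ‖a m‖ ^ 2 ≤ ∑ m ∈ S, ‖a m‖ ^ 2 := by
    rw [hP, hQ, Finset.sum_filter_add_sum_filter_not]
    exact Finset.sum_le_sum_of_subset_of_nonneg hTS fun m _ _ => by positivity
  have f4 : ∑ m ∈ P, ‖b m‖ ^ 2 + ∑ m ∈ Q, ‖b m‖ ^ 2 ≤ ∑ m ∈ S, ‖b m‖ ^ 2 := by
    rw [hP, hQ, Finset.sum_filter_add_sum_filter_not]
    exact Finset.sum_le_sum_of_subset_of_nonneg hTS fun m _ _ => by positivity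
  rw [f1, f2, r1, r2, s1, Complex.add_re, Complex.add_re, Complex.add_re]
  have c1 := hre (∑ m ∈ P, ∑ n ∈ P, X m n)
  have c2 := hre (∑ m ∈ Q, ∑ n ∈ Q, X m n)
  have c3 := hre (∑ m ∈ P, ∑ n ∈ Q, X m n)
  have c4 := hre (∑ m ∈ Q, ∑ n ∈ P, X m n)
  have i1 : ‖∑ m ∈ P, ∑ n ∈ P, X m n‖ ≤
      δ⁻¹ * ((∑ m ∈ P, (‖a m‖ ^ 2 + ‖b m‖ ^ 2) / |(m : ℝ)|) / 2) := by
    rw [← div_eq_inv_mul, le_div_iff₀ hδ, mul_comm]
    refine b1.trans (le_of_eq ?_)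
    rw [← Finset.sum_add_distrib]
    simp_rw [add_div]
  have i2 : ‖∑ m ∈ Q, ∑ n ∈ Q, X m n‖ ≤
      δ⁻¹ * ((∑ m ∈ Q, (‖a m‖ ^ 2 + ‖b m‖ ^ 2) / |(m : ℝ)|) / 2) := by
    rw [← div_eq_inv_mul, le_div_iff₀ hδ, mul_comm]
    refine b2.trans (le_of_eq ?_)
    rw [← Finset.sum_add_distrib]
    simp_rw [add_div]
  have i3 : ∑ m ∈ S, (‖a m‖ ^ 2 + ‖b m‖ ^ 2) = ∑ m ∈ S, ‖a m‖ ^ 2 + ∑ m ∈ S, ‖b m‖ ^ 2 :=
    Finset.sum_add_distrib
  rw [i3]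
  have hq : (0 : ℝ) ≤ (9 / 20) ^ M0 := by positivity
  set q : ℝ := (9 / 20) ^ M0
  have g1 : q * (∑ m ∈ P, ‖a m‖ ^ 2 + ∑ m ∈ Q, ‖b m‖ ^ 2) + q * (∑ m ∈ Q, ‖a m‖ ^ 2 + ∑ m ∈ P, ‖b m‖ ^ 2)
      ≤ q * (∑ m ∈ S, ‖a m‖ ^ 2 + ∑ m ∈ S, ‖b m‖ ^ 2) := by
    rw [← mul_add]
    apply mul_le_mul_of_nonneg_left _ hq
    linarith
  have hqS : 0 ≤ q * (∑ m ∈ S, ‖a m‖ ^ 2 + ∑ m ∈ S, ‖b m‖ ^ 2) :=
    mul_nonneg hq (add_nonneg (Finset.sum_nonneg fun m _ => by positivity)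
      (Finset.sum_nonneg fun m _ => by positivity))
  nlinarith

end Pool.Agent.Helper20.SH
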