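import Pool.Agent.Helper20.SH.FarH
import Pool.Agent.Helper75.SH.HTZ

/-!
# Project RC, SHARP, zone II: the far rows of the head/tail theorem

`FR_ok`: the hypothesis `hFR` of `HTok.nonneg`, from the numbers of `FD` (part `NF`) and the tails of the coefficients of
`Z_j`, `u_j`, `d_j`, `E_j`.
-/

set_option autoImplicit false

open MeasureTheory Set Filter Topology

namespace Pool.Agent.Helper20.SH

open Helper49.LT hiding sg
open Helper49.RC (om)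
open Pool.Agent.Helper99.RC
open Helper95.RC
open Helper95.SH (gNA gNB wm sy gA gB C1 C2 Arr wm_odd CD sV hV pV rV bp br nt U1 U2 V1 V2 E1 E2 Xr Yr Zr gLQ Fw Fn zes
  zep zer gL alA H0A Z1 Z2 dlA)
open Helper49.Sharp
open Helper56.RC (fc)
open Pool.Agent.Helper75.SH (TSc FARR x2 x3)

/-- the square sum beyond a window -/
def Tb (M : ℕ) (f : ℤ → ℂ) (t : ℝ) : Prop :=
  ∀ F : Finset ℤ, (∀ n ∈ F, M ≤ n.natAbs) → ∑ n ∈ F, ‖f n‖ ^ 2 ≤ t

namespace Tb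

variable {M : ℕ} {f g h : ℤ → ℂ} {s t u : ℝ}

theorem mono (H : Tb M f t) {M' : ℕ} (h1 : M ≤ M') (h2 : t ≤ u) : Tb M' f u :=
  fun F hF => (H F fun n hn => h1.trans (hF n hn)).trans h2

theorem nn (H : Tb M f t) : 0 ≤ t := by
  have := H ∅ (by simp)
  simpa using this

theorem congr (H : Tb M f t) (h1 : ∀ n : ℤ, M ≤ n.natAbs → g n = f n) : Tb M g t := fun F hF => by
  refine le_trans (le_of_eq ?_) (H F hF)
  exact Finset.sum_congr rfl fun n hn => by rw [h1 n (hF n hn)]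

theorem smul (H : Tb M f t) (c : ℂ) : Tb M (fun n => c * f n) (‖c‖ ^ 2 * t) := fun F hF => by
  have e : ∑ n ∈ F, ‖c * f n‖ ^ 2 = ‖c‖ ^ 2 * ∑ n ∈ F, ‖f n‖ ^ 2 := by
    rw [Finset.mul_sum]
    exact Finset.sum_congr rfl fun n _ => by rw [norm_mul, mul_pow]
  rw [e]
  exact mul_le_mul_of_nonneg_left (H F hF) (sq_nonneg _)

theorem add (H : Tb M f s) (H' : Tb M g t) : Tb M (fun n => f n + g n) (2 * (s + t)) := fun F hF => by
  have h1 : ∀ n, ‖f n + g n‖ ^ 2 ≤ 2 * (‖f n‖ ^ 2 + ‖g n‖ ^ 2) := fun n => by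
    have h2 := pow_le_pow_left₀ (norm_nonneg _) (norm_add_le (f n) (g n)) 2
    nlinarith [sq_nonneg (‖f n‖ - ‖g n‖)]
  calc ∑ n ∈ F, ‖f n + g n‖ ^ 2 ≤ ∑ n ∈ F, 2 * (‖f n‖ ^ 2 + ‖g n‖ ^ 2) := Finset.sum_le_sum fun n _ => h1 n
    _ = 2 * (∑ n ∈ F, ‖f n‖ ^ 2 + ∑ n ∈ F, ‖g n‖ ^ 2) := by rw [← Finset.mul_sum, Finset.sum_add_distrib]
    _ ≤ 2 * (s + t) := by
        have := H F hF
        have := H' F hF
        linarith

theorem add3 (H : Tb M f s) (H' : Tb M g t) (H'' : Tb M h u) :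
    Tb M (fun n => f n + g n + h n) (3 * (s + t + u)) := fun F hF => by
  calc ∑ n ∈ F, ‖f n + g n + h n‖ ^ 2 ≤ ∑ n ∈ F, 3 * (‖f n‖ ^ 2 + ‖g n‖ ^ 2 + ‖h n‖ ^ 2) :=
        Finset.sum_le_sum fun n _ => three_sq _ _ _
    _ = 3 * (∑ n ∈ F, ‖f n‖ ^ 2 + ∑ n ∈ F, ‖g n‖ ^ 2 + ∑ n ∈ F, ‖h n‖ ^ 2) := by
        rw [← Finset.mul_sum, Finset.sum_add_distrib, Finset.sum_add_distrib]
    _ ≤ 3 * (s + t + u) := by
        have := H F hF
        have := H' F hF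
        have := H'' F hF
        linarith

theorem addw (H : Tb M f s) (H' : Tb M g t) {th : ℝ} (hth : 0 < th) :
    Tb M (fun n => f n + g n) ((1 + th) * s + (1 + 1 / th) * t) := fun F hF => by
  have h1 : ∀ n, ‖f n + g n‖ ^ 2 ≤ (1 + th) * ‖f n‖ ^ 2 + (1 + 1 / th) * ‖g n‖ ^ 2 := fun n => by
    have h2 := pow_le_pow_left₀ (norm_nonneg _) (norm_add_le (f n) (g n)) 2
    have h3 : (1 + th) * ‖f n‖ ^ 2 + (1 + 1 / th) * ‖g n‖ ^ 2 - (‖f n‖ + ‖g n‖) ^ 2 =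
        (th * ‖f n‖ - ‖g n‖) ^ 2 / th := by
      field_simp
      ring
    have h4 : 0 ≤ (th * ‖f n‖ - ‖g n‖) ^ 2 / th := by positivity
    linarith
  calc ∑ n ∈ F, ‖f n + g n‖ ^ 2 ≤ ∑ n ∈ F, ((1 + th) * ‖f n‖ ^ 2 + (1 + 1 / th) * ‖g n‖ ^ 2) :=
        Finset.sum_le_sum fun n _ => h1 n
    _ = (1 + th) * ∑ n ∈ F, ‖f n‖ ^ 2 + (1 + 1 / th) * ∑ n ∈ F, ‖g n‖ ^ 2 := by
        rw [Finset.sum_add_distrib, ← Finset.mul_sum, ← Finset.mul_sum]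
    _ ≤ _ := by
        have h5 := H F hF
        have h6 := H' F hF
        gcongr

theorem wm (H : Tb M f t) (η : ℂ) : Tb (M + 2) (Helper95.SH.wm η f) ((1 + 2 * ‖η‖) ^ 2 * t) :=
  fun F hF => wm_far η f M t H F hF

theorem sy (H : Tb M f t) : Tb M (Helper95.SH.sy f) t := fun F hF => sy_far f M t H F hF

end Tb

/-- numbers of the tails of the coefficients -/
structure TlC (D : CD) (M : ℕ) (tZ tU tD tE : ℝ) : Prop where
  z1 : Tb M (fc (Z1 D.P)) tZ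
  z2 : Tb M (fc (Z2 D.P)) tZ
  u1 : Tb M (fc D.P.u1) tU
  u2 : Tb M (fc D.P.u2) tU
  d1 : Tb M (fc D.d1) tD
  d2 : Tb M (fc D.d2) tD
  e1 : Tb M (E1 D) tE
  e2 : Tb M (E2 D) tE

section

variable {D : CD} {M K : ℕ} {tZ tU tD tE : ℝ} {p r s : ℤ → ℂ}

theorem comb {f g : ℤ → ℂ} {t : ℝ} (H : Tb M f t) (H' : Tb M g t) {c1 c2 : ℂ} {ka : ℝ} (h1 : ‖c1‖ ^ 2 = ka)
    (h2 : ‖c2‖ ^ 2 = ka) : Tb M (fun n => c1 * f n + c2 * g n) (4 * ka * t) :=
  ((H.smul c1).add (H'.smul c2)).mono le_rfl (by rw [h1, h2]; linarith)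

/-- the band operator is linear -/
theorem wm_add3 (η : ℂ) (f g h : ℤ → ℂ) (n : ℤ) : wm η (fun n => f n + g n + h n) n = wm η f n + wm η g n + wm η h n := by
  unfold Helper95.SH.wm
  ring

theorem wm_cmul (η c : ℂ) (f : ℤ → ℂ) (n : ℤ) : wm η (fun n => c * f n) n = c * wm η f n := by
  unfold Helper95.SH.wm
  ring

/-- a far row, both families -/
theorem rowW (T : TlC D M tZ tU tD tE) (hη : ‖D.P.eta‖ ≤ 1 / 4) {c1 c2 : ℂ} {ka NFb th : ℝ} (h1 : ‖c1‖ ^ 2 = ka)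
    (h2 : ‖c2‖ ^ 2 = ka) (hth : 0 < th)
    (hN : Tb (M + 3) (wm D.P.eta (fun n => c1 * gA D K p r s n + c2 * gB D K p r s n)) (ka * NFb)) :
    Tb (M + 3) (fun n => wm D.P.eta (fun n => c1 * U1 D K p r s n + c2 * U2 D K p r s n) n + (c1 * V1 D n + c2 * V2 D n))
      (ka * ((1 + th) * NFb + (1 + 1 / th) * (3 * (9 / 4 * tZ + 2 * (D.mu1 ^ 2 * tU + D.mu2 ^ 2 * tD)
        + 9 * tE * H0A D.P p r ^ 2)))) := by
  have hk : 0 ≤ ka := h1 ▸ sq_nonneg _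
  have hηn : 0 ≤ ‖D.P.eta‖ := norm_nonneg _
  have hη2 : (1 + 2 * ‖D.P.eta‖) ^ 2 ≤ 9 / 4 := by nlinarith
  -- the part of `Z`
  have tz0 := T.z1.nn
  have tu0 := T.u1.nn
  have td0 := T.d1.nn
  have te0 := T.e1.nn
  have b1 : Tb (M + 3) (wm D.P.eta (fun n => (1 / 2 : ℂ) * (c1 * fc (Z1 D.P) n + c2 * fc (Z2 D.P) n)))
      (ka * (9 / 4 * tZ)) := by
    refine (((comb T.z1 T.z2 h1 h2).smul (1 / 2 : ℂ)).wm D.P.eta).mono (by omega) ?_
    have e : ‖(1 / 2 : ℂ)‖ ^ 2 = 1 / 4 := by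
      rw [norm_div, norm_one, Complex.norm_ofNat]
      norm_num
    rw [e]
    have h3 : 0 ≤ ka * tZ := mul_nonneg hk tz0
    calc (1 + 2 * ‖D.P.eta‖) ^ 2 * (1 / 4 * (4 * ka * tZ)) = (1 + 2 * ‖D.P.eta‖) ^ 2 * (ka * tZ) := by ring
      _ ≤ 9 / 4 * (ka * tZ) := mul_le_mul_of_nonneg_right hη2 h3
      _ = ka * (9 / 4 * tZ) := by ring
  have b2 : Tb (M + 3) (fun n => c1 * V1 D n + c2 * V2 D n) (ka * (2 * (D.mu1 ^ 2 * tU + D.mu2 ^ 2 * tD))) := by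
    have k1 := (comb T.u1 T.u2 h1 h2).smul (D.mu1 / 2 : ℂ)
    have k2 := (comb T.d1 T.d2 h1 h2).smul (D.mu2 / 2 : ℂ)
    have k3 := (k1.add k2).mono (M' := M + 3) (by omega) le_rfl
    have n1 : ∀ x : ℝ, ‖(x / 2 : ℂ)‖ ^ 2 = x ^ 2 / 4 := fun x => by
      rw [norm_div, Complex.norm_real, Complex.norm_ofNat, div_pow, Real.norm_eq_abs, sq_abs]
      norm_num
    rw [n1, n1] at k3
    refine (k3.congr fun n _ => ?_).mono le_rfl (le_of_eq ?_)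
    · unfold V1 V2
      ring
    · ring
  have b3 : Tb (M + 3) (fun n => (H0A D.P p r : ℂ) * wm D.P.eta (fun n => c1 * E1 D n + c2 * E2 D n) n)
      (ka * (9 * tE * H0A D.P p r ^ 2)) := by
    refine (((comb T.e1 T.e2 h1 h2).wm D.P.eta).smul (H0A D.P p r : ℂ)).mono (by omega) ?_
    rw [Complex.norm_real, Real.norm_eq_abs, sq_abs]
    have h3 : 0 ≤ 4 * ka * tE := by positivity
    have h4 := mul_le_mul_of_nonneg_right hη2 h3
    have h5 := mul_le_mul_of_nonneg_left h4 (sq_nonneg (H0A D.P p r))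
    refine h5.trans (le_of_eq ?_)
    ring
  have b4 := b1.add3 b2 b3
  have b5 := hN.addw b4 hth
  refine (b5.congr fun n _ => ?_).mono le_rfl (le_of_eq ?_)
  · have e1 : (fun n => c1 * U1 D K p r s n + c2 * U2 D K p r s n) = fun n =>
        (c1 * gA D K p r s n + c2 * gB D K p r s n) + ((1 / 2 : ℂ) * (c1 * fc (Z1 D.P) n + c2 * fc (Z2 D.P) n))
          + ((H0A D.P p r : ℂ) * (c1 * E1 D n + c2 * E2 D n)) := by
      funext n
      unfold U1 U2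
      ring
    rw [e1, wm_add3, wm_cmul D.P.eta (H0A D.P p r : ℂ) (fun n => c1 * E1 D n + c2 * E2 D n)]
    ring
  · ring

/-- the local rows vanish beyond the band -/
theorem gLQ_far {F u : ℤ → ℂ} {W : ℕ} (hF : ∀ n : ℤ, W < n.natAbs → F n = 0) {n : ℤ} (hn : K + W < n.natAbs) :
    gLQ K F u n = 0 := by
  unfold gLQ
  refine Finset.sum_eq_zero fun k hk => ?_
  rw [Finset.mem_Icc] at hk
  rw [hF (n - k) (by omega), zero_mul]

/-- the square of `H₀` -/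
theorem H0_sq (hη : ‖D.P.eta‖ ≤ 1 / 4) (ha : ∀ n, fc D.P.a0 n = 0) (a : Arr K p r s) :
    H0A D.P p r ^ 2 ≤ 5 / 4 * ((p 0).re ^ 2 + ‖p 2‖ ^ 2) := by
  have e0 : H0A D.P p r = (alA D.P p r 0).re := by
    unfold H0A dlA
    rw [ha, if_neg (by norm_num), one_mul, sub_zero]
  have hp2 : p (-2) = (starRingEnd ℂ) (p 2) := a.hp 2
  have hr2 : r (-2) = (starRingEnd ℂ) (r 2) := a.hr 2
  have hr0 : (r 0).im = 0 := by
    have := a.hr 0
    rw [neg_zero] at this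
    exact Complex.conj_eq_iff_im.mp this.symm
  have e1 : (alA D.P p r 0).re = (p 0).re + 2 * ((starRingEnd ℂ) D.P.eta * p 2).re := by
    unfold alA Helper95.SH.wm
    rw [show (0 : ℤ) - 2 = -2 by norm_num, show (0 : ℤ) + 2 = 2 by norm_num, hp2, hr2]
    have i2 : Complex.I / 2 = ((1 / 2 : ℝ) : ℂ) * Complex.I := by push_cast; ring
    rw [i2]
    simp only [Complex.add_re, Complex.mul_re, Complex.mul_im, Complex.conj_re, Complex.conj_im, Complex.add_im,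
      Complex.I_re, Complex.I_im, Complex.ofReal_re, Complex.ofReal_im, hr0]
    ring
  have h2 : |((starRingEnd ℂ) D.P.eta * p 2).re| ≤ 1 / 4 * ‖p 2‖ := by
    refine (Complex.abs_re_le_norm _).trans ?_
    rw [norm_mul, Complex.norm_conj]
    exact mul_le_mul_of_nonneg_right hη (norm_nonneg _)
  rw [e0, e1]
  set x := (p 0).re
  set y := ((starRingEnd ℂ) D.P.eta * p 2).re
  set z := ‖p 2‖
  have hy : y ^ 2 ≤ (1 / 4 * z) ^ 2 := by
    rw [← sq_abs y]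
    exact pow_le_pow_left₀ (abs_nonneg _) h2 2
  nlinarith [sq_nonneg (x - 8 * y)]

end

end Pool.Agent.Helper20.SH
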