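import Pool.Agent.Helper20.SH.NFW

/-!
# Project RC, SHARP, zone II: the far rows of `NF`, separate windows, as a diagonal form in the coordinates

`FW`: data (`s = sn / 1000`, `E = en / 100000` for the odd part, window `K`, and for the even part, window `L`;
`|eta| ≤ te / 100000`, rows `|m| ≥ M`, scale `2 ^ 112`). `dW`: the weights.
-/

set_option autoImplicit false

open MeasureTheory Set Filter Topology

namespace Pool.Agent.Helper20.SH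

open Helper49.LT hiding sg
open Helper49.RC (om)
open Pool.Agent.Helper99.RC
open Helper95.RC
open Helper95.SH (gNA gNB gA gB C1 C2 Arr wm_odd CD sV hV pV rV bp br nt sV_sup hV_sup arrV)
open Helper49.Sharp

/-- the data -/
structure FW where
  sn1 : ℕ
  en1 : ℕ
  sn2 : ℕ
  en2 : ℕ
  te : ℕ
  M : ℕ

namespace FW

variable (f : FW)

def fs : FD := ⟨f.sn1, f.en1, f.te, f.M, 112⟩
def fb : FD := ⟨f.sn2, f.en2, f.te, f.M, 112⟩

/-- the diagonal weight of the coordinate `i`, times `2 ^ 112` -/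
def dW (K L i : ℕ) : ℕ :=
  if i = 0 then 15 * f.fb.wU L 0
  else if i < bp K then 5 * f.fs.wU K (2 * ((i - 1) / 2 : ℕ) - (K : ℤ)) / 4 + 1
  else if i < br K L then
    if i = bp K then 15 * f.fb.wU L 0
    else 15 * (f.fb.wU L (2 * ((i - bp K + 1) / 2 : ℕ)) + f.fb.wU L (-(2 * ((i - bp K + 1) / 2 : ℕ))))
  else
    if i = br K L then 46 * f.fb.wU L 0
    else 46 * (f.fb.wU L (2 * ((i - br K L + 1) / 2 : ℕ)) + f.fb.wU L (-(2 * ((i - br K L + 1) / 2 : ℕ))))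

end FW

namespace FD

variable {f : FD} {k : ℤ} {K : ℕ} {c : CD}

theorem g_pos (h : f.okF k K = true) : 0 < (f.en : ℝ) / 100000 * ((f.sn : ℝ) / 1000) := (farP h).g0

/-- one weight -/
theorem w_le (h : f.okF k K = true) (he : ‖c.P.eta‖ ≤ (f.te : ℝ) / 100000) {l : ℤ} (hl : l.natAbs ≤ K) :
    CX ‖c.P.eta‖ ((f.sn : ℝ) / 1000) ((f.en : ℝ) / 100000) f.M K *
      xs ‖c.P.eta‖ ((f.en : ℝ) / 100000 * ((f.sn : ℝ) / 1000)) f.M l ≤ (f.wU K l : ℝ) / 2 ^ f.S := by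
  have hP := farP h
  have h3 := (okF_iff.1 h).2.2.1
  have hη : 0 ≤ ‖c.P.eta‖ := norm_nonneg _
  have hC0 := hP.CF0
  have hCX : CX ‖c.P.eta‖ ((f.sn : ℝ) / 1000) ((f.en : ℝ) / 100000) f.M K ≤
      CX ((f.te : ℝ) / 100000) ((f.sn : ℝ) / 1000) ((f.en : ℝ) / 100000) f.M K := by
    unfold CX
    gcongr
  refine le_trans ?_ (wU_le h l hl)
  have x0 := xs_nonneg hη (g_pos h) (M := f.M) (l := l) (by omega)
  exact mul_le_mul hCX (xs_mono hη he (g_pos h) (by omega)) x0 hP.CX0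

/-- the form of `s` -/
theorem SS_le (h : f.okF k K = true) (he : ‖c.P.eta‖ ≤ (f.te : ℝ) / 100000) (y : ℤ → ℂ) :
    CX ‖c.P.eta‖ ((f.sn : ℝ) / 1000) ((f.en : ℝ) / 100000) f.M K *
      SS ‖c.P.eta‖ ((f.en : ℝ) / 100000 * ((f.sn : ℝ) / 1000)) f.M K y ≤
    ∑ l ∈ Finset.Icc (-(K : ℤ)) K, (f.wU K l : ℝ) / 2 ^ f.S * ‖y l‖ ^ 2 := by
  unfold SS
  rw [Finset.mul_sum]
  refine Finset.sum_le_sum fun l hl => ?_
  rw [Finset.mem_Icc] at hl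
  rw [← mul_assoc]
  exact mul_le_mul_of_nonneg_right (w_le h he (by omega)) (sq_nonneg _)

/-- the form of `p, r` -/
theorem SB_le (h : f.okF k K = true) (he : ‖c.P.eta‖ ≤ (f.te : ℝ) / 100000) (y z : ℤ → ℂ) :
    CX ‖c.P.eta‖ ((f.sn : ℝ) / 1000) ((f.en : ℝ) / 100000) f.M K *
      SB ‖c.P.eta‖ ((f.en : ℝ) / 100000 * ((f.sn : ℝ) / 1000)) f.M K y z ≤
    3 * ((f.wU K 0 : ℝ) / 2 ^ f.S + ∑ l ∈ Finset.Icc (-(K : ℤ)) K, (f.wU K l : ℝ) / 2 ^ f.S * ‖y l‖ ^ 2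
      + 49 / 16 * ∑ l ∈ Finset.Icc (-(K : ℤ)) K, (f.wU K l : ℝ) / 2 ^ f.S * ‖z l‖ ^ 2) := by
  have h1 := SS_le h he y
  have h2 := SS_le h he z
  have h3 := w_le h he (l := 0) (by simp)
  unfold SS at h1 h2
  unfold SB
  nlinarith

end FD

namespace FW

variable {f : FW} {k : ℤ} {K L : ℕ}

theorem dW_s {j : ℕ} (hj : j < 2 * (K + 1)) :
    f.dW K L (1 + j) = 5 * f.fs.wU K (2 * (j / 2 : ℕ) - (K : ℤ)) / 4 + 1 := by
  unfold dW
  rw [if_neg (by omega), if_pos (by unfold bp; omega), Nat.add_sub_cancel_left]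

theorem dW_p {j : ℕ} (hj : j < L + 1) : f.dW K L (bp K + j) =
    if j = 0 then 15 * f.fb.wU L 0
    else 15 * (f.fb.wU L (2 * ((j + 1) / 2 : ℕ)) + f.fb.wU L (-(2 * ((j + 1) / 2 : ℕ)))) := by
  unfold dW
  rw [if_neg (by unfold bp; omega), if_neg (by omega), if_pos (by unfold br; omega), Nat.add_sub_cancel_left]
  by_cases hj0 : j = 0
  · rw [if_pos (by omega), if_pos hj0]
  · rw [if_neg (by omega), if_neg hj0]

theorem dW_r {j : ℕ} : f.dW K L (br K L + j) =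
    if j = 0 then 46 * f.fb.wU L 0
    else 46 * (f.fb.wU L (2 * ((j + 1) / 2 : ℕ)) + f.fb.wU L (-(2 * ((j + 1) / 2 : ℕ)))) := by
  unfold dW
  rw [if_neg (by unfold br bp; omega), if_neg (by unfold br; omega), if_neg (by omega), Nat.add_sub_cancel_left]
  by_cases hj0 : j = 0
  · rw [if_pos (by omega), if_pos hj0]
  · rw [if_neg (by omega), if_neg hj0]

/-- the diagonal form -/
theorem diagW (hK : ¬ Even K) (hL : Even L) (v : ℕ → ℝ) (v0 : v 0 = 1) :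
    5 / 4 * ∑ l ∈ Finset.Icc (-(K : ℤ)) K, (f.fs.wU K l : ℝ) / 2 ^ 112 * ‖sV K v l‖ ^ 2
      + 5 * (3 * ((f.fb.wU L 0 : ℝ) / 2 ^ 112 + ∑ l ∈ Finset.Icc (-(L : ℤ)) L, (f.fb.wU L l : ℝ) / 2 ^ 112 * ‖pV K L v l‖ ^ 2
      + 49 / 16 * ∑ l ∈ Finset.Icc (-(L : ℤ)) L, (f.fb.wU L l : ℝ) / 2 ^ 112 * ‖rV K L v l‖ ^ 2)) ≤
    ∑ i ∈ Finset.range (nt K L), (f.dW K L i : ℝ) / 2 ^ 112 * v i ^ 2 := by
  set x : ℤ → ℝ := fun l => (f.fs.wU K l : ℝ) / 2 ^ 112 with hx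
  set y : ℤ → ℝ := fun l => (f.fb.wU L l : ℝ) / 2 ^ 112 with hy
  have h1 := sum_sV hK le_rfl x v
  have h2 := sum_hV hL le_rfl y (bp K) v
  have h3 := sum_hV hL le_rfl y (br K L) v
  have e0 : nt K L = 1 + 2 * (K + 1) + (L + 1) + (L + 1) := by unfold nt bp; ring
  rw [e0, Finset.sum_range_add, Finset.sum_range_add, Finset.sum_range_add, Finset.sum_range_one]
  have g1 : 5 / 4 * ∑ l ∈ Finset.Icc (-(K : ℤ)) K, x l * ‖sV K v l‖ ^ 2 ≤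
      ∑ j ∈ Finset.range (2 * (K + 1)), (f.dW K L (1 + j) : ℝ) / 2 ^ 112 * v (1 + j) ^ 2 := by
    rw [h1, Finset.mul_sum]
    refine Finset.sum_le_sum fun j hj => ?_
    rw [Finset.mem_range] at hj
    rw [dW_s hj, ← mul_assoc]
    refine mul_le_mul_of_nonneg_right ?_ (sq_nonneg _)
    rw [hx]
    beta_reduce
    rw [← mul_div_assoc]
    refine div_le_div_of_nonneg_right (le_divU (by norm_num) (le_of_eq ?_)) (by positivity)
    push_cast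
    ring
  have g2 : 15 * ∑ l ∈ Finset.Icc (-(L : ℤ)) L, y l * ‖pV K L v l‖ ^ 2 =
      ∑ j ∈ Finset.range (L + 1), (f.dW K L (1 + 2 * (K + 1) + j) : ℝ) / 2 ^ 112 * v (1 + 2 * (K + 1) + j) ^ 2 := by
    show 15 * ∑ l ∈ Finset.Icc (-(L : ℤ)) L, y l * ‖hV L (bp K) v l‖ ^ 2 = _
    rw [h2, Finset.mul_sum]
    refine Finset.sum_congr rfl fun j hj => ?_
    rw [Finset.mem_range] at hj
    have hb : 1 + 2 * (K + 1) = bp K := rfl
    rw [hb, ← mul_assoc, dW_p hj]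
    congr 1
    unfold yh
    by_cases hj0 : j = 0
    · rw [if_pos hj0, if_pos hj0, hy]
      push_cast
      ring
    · rw [if_neg hj0, if_neg hj0, hy]
      push_cast
      ring
  have g3 : 735 / 16 * ∑ l ∈ Finset.Icc (-(L : ℤ)) L, y l * ‖rV K L v l‖ ^ 2 ≤
      ∑ j ∈ Finset.range (L + 1), (f.dW K L (1 + 2 * (K + 1) + (L + 1) + j) : ℝ) / 2 ^ 112 *
        v (1 + 2 * (K + 1) + (L + 1) + j) ^ 2 := by
    show 735 / 16 * ∑ l ∈ Finset.Icc (-(L : ℤ)) L, y l * ‖hV L (br K L) v l‖ ^ 2 ≤ _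
    rw [h3, Finset.mul_sum]
    refine Finset.sum_le_sum fun j hj => ?_
    rw [Finset.mem_range] at hj
    have hb : 1 + 2 * (K + 1) + (L + 1) = br K L := rfl
    rw [hb, ← mul_assoc, dW_r]
    refine mul_le_mul_of_nonneg_right ?_ (sq_nonneg _)
    unfold yh
    by_cases hj0 : j = 0
    · rw [if_pos hj0, if_pos hj0, hy]
      beta_reduce
      push_cast
      have : (0 : ℝ) ≤ (f.fb.wU L 0 : ℝ) / 2 ^ 112 := by positivity
      have e : 46 * (f.fb.wU L 0 : ℝ) / 2 ^ 112 = 46 * ((f.fb.wU L 0 : ℝ) / 2 ^ 112) := by ring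
      rw [e]
      linarith
    · rw [if_neg hj0, if_neg hj0, hy]
      beta_reduce
      have t1 : (0 : ℝ) ≤ (f.fb.wU L (2 * ((j + 1) / 2 : ℕ)) : ℝ) / 2 ^ 112 := by positivity
      have t2 : (0 : ℝ) ≤ (f.fb.wU L (-(2 * ((j + 1) / 2 : ℕ))) : ℝ) / 2 ^ 112 := by positivity
      have e : (((46 * (f.fb.wU L (2 * ((j + 1) / 2 : ℕ)) + f.fb.wU L (-(2 * ((j + 1) / 2 : ℕ)))) : ℕ) : ℝ)) / 2 ^ 112 =
          46 * ((f.fb.wU L (2 * ((j + 1) / 2 : ℕ)) : ℝ) / 2 ^ 112 + (f.fb.wU L (-(2 * ((j + 1) / 2 : ℕ))) : ℝ) / 2 ^ 112) := by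
        rw [Nat.cast_mul, Nat.cast_add]
        push_cast
        ring
      rw [e]
      linarith
  have g0 : 15 * y 0 = (f.dW K L 0 : ℝ) / 2 ^ 112 * v 0 ^ 2 := by
    unfold dW
    rw [if_pos rfl, v0, hy]
    push_cast
    ring
  rw [← g0, ← g2]
  show 5 / 4 * ∑ l ∈ Finset.Icc (-(K : ℤ)) K, x l * ‖sV K v l‖ ^ 2
      + 5 * (3 * (y 0 + ∑ l ∈ Finset.Icc (-(L : ℤ)) L, y l * ‖pV K L v l‖ ^ 2
      + 49 / 16 * ∑ l ∈ Finset.Icc (-(L : ℤ)) L, y l * ‖rV K L v l‖ ^ 2)) ≤ _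
  linarith

/-- the check of the data -/
def okW (k : ℤ) (K L : ℕ) : Bool := f.fs.okF k K && f.fb.okF k L

/-- **the head form of the far rows in coordinates** -/
theorem headW {c : CD} (h1 : f.fs.okF k K = true) (h2 : f.fb.okF k L = true) (he : ‖c.P.eta‖ ≤ (f.te : ℝ) / 100000)
    (hK : ¬ Even K) (hL : Even L) (v : ℕ → ℝ) (v0 : v 0 = 1) :
    5 / 4 * (CX ‖c.P.eta‖ ((f.sn1 : ℝ) / 1000) ((f.en1 : ℝ) / 100000) f.M K *
        SS ‖c.P.eta‖ ((f.en1 : ℝ) / 100000 * ((f.sn1 : ℝ) / 1000)) f.M K (sV K v))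
      + 5 * (CX ‖c.P.eta‖ ((f.sn2 : ℝ) / 1000) ((f.en2 : ℝ) / 100000) f.M L *
        SB ‖c.P.eta‖ ((f.en2 : ℝ) / 100000 * ((f.sn2 : ℝ) / 1000)) f.M L (pV K L v) (rV K L v)) ≤
    ∑ i ∈ Finset.range (nt K L), (f.dW K L i : ℝ) / 2 ^ 112 * v i ^ 2 := by
  refine le_trans ?_ (diagW hK hL v v0)
  have a1 := FD.SS_le (c := c) h1 he (sV K v)
  have a2 := FD.SB_le (c := c) h2 he (pV K L v) (rV K L v)
  exact add_le_add (mul_le_mul_of_nonneg_left a1 (by norm_num)) (mul_le_mul_of_nonneg_left a2 (by norm_num))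

/-- **the part of `NF`** -/
theorem nfT {c : CD} {d ph : ℝ} (h1 : f.fs.okF k K = true) (h2 : f.fb.okF k L = true)
    (hps : c.P.ps = ps d ((k : ℝ) / 100000) ph)
    (he : ‖c.P.eta‖ ≤ (f.te : ℝ) / 100000) (hK : ¬ Even K) (hL : Even L) (v : ℕ → ℝ) (v0 : v 0 = 1) {c1 c2 : ℂ}
    {ka : ℝ} (hc1 : ‖c1‖ ^ 2 = ka) (hc2 : ‖c2‖ ^ 2 = ka) :
    Tb (f.M + 3) (Helper95.SH.wm c.P.eta (fun n => c1 * gA c (max K L) (pV K L v) (rV K L v) (sV K v) n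
      + c2 * gB c (max K L) (pV K L v) (rV K L v) (sV K v) n))
      (ka * ∑ i ∈ Finset.range (nt K L), (f.dW K L i : ℝ) / 2 ^ 112 * v i ^ 2) := by
  have hk : 0 ≤ ka := hc1 ▸ sq_nonneg _
  have p1 : FarP ((k : ℝ) / 100000) ((f.sn1 : ℝ) / 1000) ((f.en1 : ℝ) / 100000) f.M K := FD.farP h1
  have p2 : FarP ((k : ℝ) / 100000) ((f.sn2 : ℝ) / 1000) ((f.en2 : ℝ) / 100000) f.M L := FD.farP h2
  have t := p1.two2 p2 hps (arrV (le_max_left K L) (le_max_right K L) v)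
    (hV_sup L (bp K) v) (hV_sup L (br K L) v) (sV_sup K v) c1 c2
  rw [hc1, hc2] at t
  refine t.mono le_rfl ?_
  rw [show (ka + ka) / 2 = ka by ring]
  exact mul_le_mul_of_nonneg_left (headW h1 h2 he hK hL v v0) hk

end FW

end Pool.Agent.Helper20.SH
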