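import Pool.Agent.Helper20.SH.FRD
import Pool.Agent.Helper30.SH.ZRow3

/-!
# Project RC, SHARP, zone II: a far row of the head/tail theorem

`TlE`: numbers of the tails of the coefficients. `rowE`: a far row is the part of `NF`, the part of `E` with the factor
`H₀ + lam`, and a small rest; weights `aN, aE, aR` with `1/aN + 1/aE + 1/aR ≤ 1`.
-/

set_option autoImplicit false

open MeasureTheory Set Filter Topology

namespace Pool.Agent.Helper20.SH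

open Helper49.LT hiding sg
open Helper49.RC (om)
open Pool.Agent.Helper99.RC
open Helper95.RC
open Helper95.SH (gNA gNB wm sy gA gB C1 C2 Arr wm_odd CD sV hV pV rV bp br nt U1 U2 V1 V2 E1 E2 Xr Yr Zr gLQ Fw Fn zes
  zep zer gL alA H0A Z1 Z2 dlA Rn)
open Helper49.Sharp
open Helper56.RC (fc)
open Helper41.SH (IA inv)
open Helper30.SH (zz1 zz2 fc_Z1_half fc_Z2_half)

/-- weighted sum of three squares -/
theorem three_w {x y z a b c : ℝ} (ha : 0 < a) (hb : 0 < b) (hc : 0 < c) (h : 1 / a + 1 / b + 1 / c ≤ 1) :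
    (x + y + z) ^ 2 ≤ a * x ^ 2 + b * y ^ 2 + c * z ^ 2 := by
  have k := Finset.sum_mul_sq_le_sq_mul_sq (Finset.univ : Finset (Fin 3))
    (fun i => if i = 0 then Real.sqrt (1 / a) else if i = 1 then Real.sqrt (1 / b) else Real.sqrt (1 / c))
    (fun i => if i = 0 then Real.sqrt a * x else if i = 1 then Real.sqrt b * y else Real.sqrt c * z)
  have s1 : ∀ t : ℝ, 0 < t → ∀ u : ℝ, Real.sqrt (1 / t) * (Real.sqrt t * u) = u := fun t ht u => by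
    rw [← mul_assoc, ← Real.sqrt_mul (by positivity), one_div, inv_mul_cancel₀ ht.ne', Real.sqrt_one, one_mul]
  simp only [Fin.sum_univ_three, Fin.isValue, reduceIte, one_ne_zero, if_true, if_false, Fin.reduceEq] at k
  rw [s1 a ha, s1 b hb, s1 c hc, mul_pow, mul_pow, mul_pow, Real.sq_sqrt (by positivity), Real.sq_sqrt (by positivity),
    Real.sq_sqrt (by positivity), Real.sq_sqrt ha.le, Real.sq_sqrt hb.le, Real.sq_sqrt hc.le] at k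
  refine k.trans ?_
  have h0 : 0 ≤ a * x ^ 2 + b * y ^ 2 + c * z ^ 2 := by positivity
  calc (1 / a + 1 / b + 1 / c) * (a * x ^ 2 + b * y ^ 2 + c * z ^ 2) ≤ 1 * (a * x ^ 2 + b * y ^ 2 + c * z ^ 2) :=
        mul_le_mul_of_nonneg_right h h0
    _ = _ := one_mul _

theorem Tb.add3w {M : ℕ} {f g h : ℤ → ℂ} {s t u a b c : ℝ} (H : Tb M f s) (H' : Tb M g t) (H'' : Tb M h u) (ha : 0 < a)
    (hb : 0 < b) (hc : 0 < c) (hs : 1 / a + 1 / b + 1 / c ≤ 1) :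
    Tb M (fun n => f n + g n + h n) (a * s + b * t + c * u) := fun F hF => by
  have h1 : ∀ n, ‖f n + g n + h n‖ ^ 2 ≤ a * ‖f n‖ ^ 2 + b * ‖g n‖ ^ 2 + c * ‖h n‖ ^ 2 := fun n => by
    have h2 : ‖f n + g n + h n‖ ≤ ‖f n‖ + ‖g n‖ + ‖h n‖ := (norm_add_le _ _).trans (add_le_add (norm_add_le _ _) le_rfl)
    exact (pow_le_pow_left₀ (norm_nonneg _) h2 2).trans (three_w ha hb hc hs)
  calc ∑ n ∈ F, ‖f n + g n + h n‖ ^ 2 ≤ ∑ n ∈ F, (a * ‖f n‖ ^ 2 + b * ‖g n‖ ^ 2 + c * ‖h n‖ ^ 2) :=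
        Finset.sum_le_sum fun n _ => h1 n
    _ = a * ∑ n ∈ F, ‖f n‖ ^ 2 + b * ∑ n ∈ F, ‖g n‖ ^ 2 + c * ∑ n ∈ F, ‖h n‖ ^ 2 := by
        rw [Finset.sum_add_distrib, Finset.sum_add_distrib, ← Finset.mul_sum, ← Finset.mul_sum, ← Finset.mul_sum]
    _ ≤ _ := by
        have h5 := H F hF
        have h6 := H' F hF
        have h7 := H'' F hF
        gcongr

theorem comb2 {M : ℕ} {f g : ℤ → ℂ} {s t : ℝ} (H : Tb M f s) (H' : Tb M g t) {c1 c2 : ℂ} {ka : ℝ} (h1 : ‖c1‖ ^ 2 = ka)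
    (h2 : ‖c2‖ ^ 2 = ka) : Tb M (fun n => c1 * f n + c2 * g n) (2 * ka * (s + t)) :=
  ((H.smul c1).add (H'.smul c2)).mono le_rfl (by rw [h1, h2]; linarith)

/-- numbers of the tails of the coefficients -/
structure TlE (D : CD) (M : ℕ) (tZ tU tD tE : ℝ) : Prop where
  z1 : Tb (M + 1) (fc (zz1 D.P)) tZ
  z2 : Tb (M + 1) (fc (zz2 D.P)) tZ
  u1 : Tb (M + 3) (fc D.P.u1) tU
  u2 : Tb (M + 3) (fc D.P.u2) tU
  d1 : Tb (M + 3) (fc D.d1) tD
  d2 : Tb (M + 3) (fc D.d2) tD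
  e : ∃ t1 t2, Tb (M + 1) (E1 D) t1 ∧ Tb (M + 1) (E2 D) t2 ∧ t1 + t2 ≤ tE

/-- the conditions of the identity of `Z_j` -/
structure ZOk (D : CD) : Prop where
  r : D.P.Reg
  a0 : D.P.a0 = fun _ => 0
  i1 : IA D.Th1 D.Th1'
  i2 : IA D.Th2 D.Th2'
  e1 : D.P.ph1 = inv D.Th1
  e2 : D.P.ph2 = inv D.Th2

theorem cee (x : ℝ) (z : ℂ) : (starRingEnd ℂ) (ee (-x) * z) = ee x * (starRingEnd ℂ) z := by
  rw [map_mul, ee_neg, Complex.conj_conj]

section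

variable {D : CD} {M K : ℕ} {tZ tU tD tE : ℝ} {p r s : ℤ → ℂ}

theorem U1_eq (o : ZOk D) (n : ℤ) : U1 D K p r s n =
    gA D K p r s n + (((H0A D.P p r + D.P.lam : ℝ) : ℂ)) * E1 D n + fc (zz1 D.P) n := by
  have h := fc_Z1_half o.r o.a0 o.i1 o.e1 n
  unfold U1
  rw [h, cee]
  have e : ((n : ℝ) + 1) * (Real.pi / 3) = ((n + 1 : ℤ) : ℝ) * (Real.pi / 3) := by push_cast; ring
  rw [e]
  unfold E1
  push_cast
  ring

theorem U2_eq (o : ZOk D) (n : ℤ) : U2 D K p r s n =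
    gB D K p r s n + (((H0A D.P p r + D.P.lam : ℝ) : ℂ)) * E2 D n + fc (zz2 D.P) n := by
  have h := fc_Z2_half o.r o.a0 o.i2 o.e2 n
  unfold U2
  rw [h, cee]
  have e : ((n : ℝ) + 1) * (2 * Real.pi / 3) = ((n + 1 : ℤ) : ℝ) * (2 * Real.pi / 3) := by push_cast; ring
  rw [e]
  unfold E2
  push_cast
  ring

/-- the bound of a far row -/
noncomputable def RE (D : CD) (aN aE aR q2 tZ tU tD tE NFb : ℝ) (p r : ℤ → ℂ) : ℝ :=
  aN * NFb + aE * (2 * q2 * tE * (H0A D.P p r + D.P.lam) ^ 2)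
    + aR * (2 * (4 * q2 * tZ + 2 * (D.mu1 ^ 2 * tU + D.mu2 ^ 2 * tD)))

/-- **a far row** -/
theorem rowE (o : ZOk D) (T : TlE D M tZ tU tD tE) {q2 : ℝ} (hη : (1 + 2 * ‖D.P.eta‖) ^ 2 ≤ q2) {c1 c2 : ℂ}
    {ka NFb aN aE aR : ℝ} (h1 : ‖c1‖ ^ 2 = ka) (h2 : ‖c2‖ ^ 2 = ka) (wN : 0 < aN) (wE : 0 < aE) (wR : 0 < aR)
    (wS : 1 / aN + 1 / aE + 1 / aR ≤ 1)
    (hN : Tb (M + 3) (wm D.P.eta (fun n => c1 * gA D K p r s n + c2 * gB D K p r s n)) (ka * NFb)) :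
    Tb (M + 3) (fun n => wm D.P.eta (fun n => c1 * U1 D K p r s n + c2 * U2 D K p r s n) n + (c1 * V1 D n + c2 * V2 D n))
      (ka * RE D aN aE aR q2 tZ tU tD tE NFb p r) := by
  have hk : 0 ≤ ka := h1 ▸ sq_nonneg _
  have hq : 0 ≤ q2 := (sq_nonneg _).trans hη
  obtain ⟨t1, t2, hE1, hE2, hE⟩ := T.e
  have hE0 : 0 ≤ t1 + t2 := add_nonneg hE1.nn hE2.nn
  set x : ℝ := H0A D.P p r + D.P.lam with hx
  -- the part of `E`
  have b2 : Tb (M + 3) (fun n => (x : ℂ) * wm D.P.eta (fun n => c1 * E1 D n + c2 * E2 D n) n)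
      (ka * (2 * q2 * tE * x ^ 2)) := by
    refine (((comb2 hE1 hE2 h1 h2).wm D.P.eta).smul (x : ℂ)).mono le_rfl ?_
    rw [Complex.norm_real, Real.norm_eq_abs, sq_abs]
    have k1 : (1 + 2 * ‖D.P.eta‖) ^ 2 * (2 * ka * (t1 + t2)) ≤ q2 * (2 * ka * tE) :=
      mul_le_mul hη (mul_le_mul_of_nonneg_left hE (by positivity)) (by positivity) hq
    calc x ^ 2 * ((1 + 2 * ‖D.P.eta‖) ^ 2 * (2 * ka * (t1 + t2))) ≤ x ^ 2 * (q2 * (2 * ka * tE)) :=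
          mul_le_mul_of_nonneg_left k1 (sq_nonneg _)
      _ = ka * (2 * q2 * tE * x ^ 2) := by ring
  -- the rest
  have tz0 := T.z1.nn
  have b3 : Tb (M + 3) (wm D.P.eta (fun n => c1 * fc (zz1 D.P) n + c2 * fc (zz2 D.P) n)) (ka * (4 * q2 * tZ)) := by
    refine ((comb2 T.z1 T.z2 h1 h2).wm D.P.eta).mono le_rfl ?_
    calc (1 + 2 * ‖D.P.eta‖) ^ 2 * (2 * ka * (tZ + tZ)) ≤ q2 * (2 * ka * (tZ + tZ)) :=
          mul_le_mul_of_nonneg_right hη (by positivity)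
      _ = ka * (4 * q2 * tZ) := by ring
  have b4 : Tb (M + 3) (fun n => c1 * V1 D n + c2 * V2 D n) (ka * (2 * (D.mu1 ^ 2 * tU + D.mu2 ^ 2 * tD))) := by
    have k1 := (comb2 T.u1 T.u2 h1 h2).smul (D.mu1 / 2 : ℂ)
    have k2 := (comb2 T.d1 T.d2 h1 h2).smul (D.mu2 / 2 : ℂ)
    have k3 := k1.add k2
    have n1 : ∀ x : ℝ, ‖(x / 2 : ℂ)‖ ^ 2 = x ^ 2 / 4 := fun x => by
      rw [norm_div, Complex.norm_real, Complex.norm_ofNat, div_pow, Real.norm_eq_abs, sq_abs]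
      norm_num
    rw [n1, n1] at k3
    refine (k3.congr fun n _ => ?_).mono le_rfl (le_of_eq ?_)
    · unfold V1 V2
      ring
    · ring
  have b5 := hN.add3w b2 (b3.add b4) wN wE wR wS
  refine (b5.congr fun n _ => ?_).mono le_rfl (le_of_eq ?_)
  · have e1 : (fun n => c1 * U1 D K p r s n + c2 * U2 D K p r s n) = fun n =>
        (c1 * gA D K p r s n + c2 * gB D K p r s n) + ((x : ℂ) * (c1 * E1 D n + c2 * E2 D n))
          + (c1 * fc (zz1 D.P) n + c2 * fc (zz2 D.P) n) := by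
      funext n
      rw [U1_eq o, U2_eq o, ← hx]
      ring
    rw [e1, wm_add3, wm_cmul D.P.eta (x : ℂ) (fun n => c1 * E1 D n + c2 * E2 D n)]
    ring
  · unfold RE
    rw [← hx]
    ring

/-- the square of `H₀ + lam` -/
theorem Hl_sq {h lam : ℝ} : (h + lam) ^ 2 ≤ 17 / 16 * lam ^ 2 + 17 * h ^ 2 := by nlinarith [sq_nonneg (lam - 16 * h)]

end

end Pool.Agent.Helper20.SH
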