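import Pool.Agent.Helper20.SH.FRE

/-!
# Project RC, SHARP, zone II: the far rows of the head/tail theorem

`FRI`: the diagonal (times `10 ^ 9 2 ^ 112`). **`FR_ok`**: the hypothesis `hFR` of `HTok.nonneg`.
-/

set_option autoImplicit false

open MeasureTheory Set Filter Topology

namespace Pool.Agent.Helper20.SH

open Helper49.LT hiding sg
open Helper49.RC (om)
open Pool.Agent.Helper99.RC
open Helper95.RC
open Helper95.SH (gNA gNB wm sy gA gB C1 C2 Arr wm_odd CD sV hV pV rV bp br nt U1 U2 V1 V2 E1 E2 Xr Yr Zr gLQ Fw Fn zes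
  zep zer gL alA H0A Z1 Z2 dlA arrV alA_sup zep_sup zer_sup sV_sup gLQ_win sup_sub)
open Helper49.Sharp
open Helper56.RC (fc)
open Pool.Agent.Helper75.SH (TSc FARR x2 x3)

/-- the band operator vanishes beyond the support -/
theorem wm_zero {η : ℂ} {f : ℤ → ℂ} {N : ℕ} (hf : Sup N f) {n : ℤ} (hn : N + 2 < n.natAbs) : wm η f n = 0 := by
  unfold wm
  rw [hf n (by rw [Finset.mem_Icc]; omega), hf (n - 2) (by rw [Finset.mem_Icc]; omega),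
    hf (n + 2) (by rw [Finset.mem_Icc]; omega)]
  ring

theorem wm_add2 (η : ℂ) (f g : ℤ → ℂ) (n : ℤ) : wm η (fun n => f n + g n) n = wm η f n + wm η g n := by
  unfold wm
  ring

section

variable {D : CD} {M N : ℕ} {tZ tU tD tE q2 NFb aN aE aR : ℝ} {p r s : ℤ → ℂ}

/-- the bound of a far row, head coordinates -/
noncomputable def RT (D : CD) (aN aE aR q2 tZ tU tD tE NFb h2 : ℝ) : ℝ :=
  aN * NFb + (aE * (17 / 8 * q2 * tE * D.P.lam ^ 2) + aR * (2 * (4 * q2 * tZ + 2 * (D.mu1 ^ 2 * tU + D.mu2 ^ 2 * tD))))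
    + aE * (85 / 2 * q2 * tE) * h2

/-- the weights -/
structure W3 (aN aE aR : ℝ) : Prop where
  n : 0 < aN
  e : 0 < aE
  r : 0 < aR
  s : 1 / aN + 1 / aE + 1 / aR ≤ 1

/-- the conditions of the far rows -/
structure FOk (D : CD) (M : ℕ) (aN aE aR q2 tZ tU tD tE : ℝ) : Prop where
  z : ZOk D
  t : TlE D M tZ tU tD tE
  w : W3 aN aE aR
  h4 : ‖D.P.eta‖ ≤ 1 / 4
  q : (1 + 2 * ‖D.P.eta‖) ^ 2 ≤ q2

theorem ZOk.fc0 (o : ZOk D) (n : ℤ) : fc D.P.a0 n = 0 := by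
  rw [o.a0]
  unfold Helper56.RC.fc
  simp

theorem row1 (o : FOk D M aN aE aR q2 tZ tU tD tE) (a : Arr N p r s) {c1 c2 : ℂ} {ka : ℝ} (h1 : ‖c1‖ ^ 2 = ka)
    (h2 : ‖c2‖ ^ 2 = ka)
    (hN : Tb (M + 3) (wm D.P.eta (fun n => c1 * gA D N p r s n + c2 * gB D N p r s n)) (ka * NFb)) :
    Tb (M + 3) (fun n => wm D.P.eta (fun n => c1 * U1 D N p r s n + c2 * U2 D N p r s n) n + (c1 * V1 D n + c2 * V2 D n))
      (ka * RT D aN aE aR q2 tZ tU tD tE NFb ((p 0).re ^ 2 + ‖p 2‖ ^ 2)) := by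
  have hk : 0 ≤ ka := h1 ▸ sq_nonneg _
  refine (rowE o.z o.t o.q h1 h2 o.w.n o.w.e o.w.r o.w.s hN).mono le_rfl (mul_le_mul_of_nonneg_left ?_ hk)
  have hH := H0_sq o.h4 o.z.fc0 a
  obtain ⟨t1, t2, hE1, hE2, hE⟩ := o.t.e
  have tE0 : 0 ≤ tE := (add_nonneg hE1.nn hE2.nn).trans hE
  have q0 : 0 ≤ q2 := (sq_nonneg _).trans o.q
  have e0 := o.w.e
  have h3 : (H0A D.P p r + D.P.lam) ^ 2 ≤ 17 / 16 * D.P.lam ^ 2 + 17 * (5 / 4 * ((p 0).re ^ 2 + ‖p 2‖ ^ 2)) :=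
    Hl_sq.trans (by linarith)
  have h4 := mul_le_mul_of_nonneg_left h3 (by positivity : 0 ≤ aE * (2 * q2 * tE))
  unfold RE RT
  linarith

/-- the sum of the rows `X` beyond the local part -/
theorem rowX (o : FOk D M aN aE aR q2 tZ tU tD tE) (a : Arr N p r s)
    {K W : ℕ} (hKN : K ≤ N) (hz : Sup K (zes D s)) (hFw : ∀ n : ℤ, W < n.natAbs → Fw D n = 0)
    (hFn : ∀ n : ℤ, W < n.natAbs → Fn D n = 0)
    (hN : Tb (M + 3) (wm D.P.eta (fun n => 1 * gA D N p r s n + (-1) * gB D N p r s n)) (1 * NFb)) (F : Finset ℤ)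
    (hF : ∀ n ∈ F, M + 3 ≤ n.natAbs ∧ K + W < n.natAbs) :
    ∑ n ∈ F, ‖Xr D N p r s n‖ ^ 2 ≤ RT D aN aE aR q2 tZ tU tD tE NFb ((p 0).re ^ 2 + ‖p 2‖ ^ 2) := by
  have h1 := (row1 o a (c1 := 1) (c2 := -1) (ka := 1) (by simp) (by simp) hN).mono le_rfl (one_mul _).le
  refine le_trans (le_of_eq (Finset.sum_congr rfl fun n hn => ?_)) (h1 F fun n hn => (hF n hn).1)
  have e1 : (fun n => (1 : ℂ) * U1 D N p r s n + (-1) * U2 D N p r s n) = fun n => U1 D N p r s n - U2 D N p r s n := by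
    funext n
    ring
  have h2 := (hF n hn).2
  have e2 : Xr D N p r s n = wm D.P.eta (fun n => (1 : ℂ) * U1 D N p r s n + (-1) * U2 D N p r s n) n
      + (1 * V1 D n + (-1) * V2 D n) := by
    unfold Xr
    rw [gLQ_win hKN hz, gLQ_win hKN hz, gLQ_far hFw (by omega), gLQ_far hFn (by omega), e1]
    ring
  rw [e2]

theorem gL_sup (a : Arr N p r s) : Sup (N + 2) (gL D p r) := fun n hn => by
  unfold gL
  rw [alA_sup a.sp a.sr n hn, zero_div]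

/-- a far row with the local term `gL` -/
theorem row_gL (a : Arr N p r s) (hM : N + 3 < M) (c0 c1 c2 : ℂ) {n : ℤ} (hn : M + 3 ≤ n.natAbs) :
    wm D.P.eta (fun n => c1 * U1 D N p r s n + c2 * U2 D N p r s n + c0 * gL D p r n) n + (c1 * V1 D n + c2 * V2 D n) =
      wm D.P.eta (fun n => c1 * U1 D N p r s n + c2 * U2 D N p r s n) n + (c1 * V1 D n + c2 * V2 D n) := by
  rw [wm_add2 D.P.eta (fun n => c1 * U1 D N p r s n + c2 * U2 D N p r s n) (fun n => c0 * gL D p r n),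
    wm_cmul, wm_zero (gL_sup a) (by omega), mul_zero, add_zero]

/-- the rows `Y`, `Z` without local terms -/
theorem sy_row {G G' : ℤ → ℂ} {n : ℤ} (h1 : G n = G' n) (h2 : G (-n) = G' (-n)) : sy G n = sy G' n := by
  unfold sy
  rw [h1, h2]

theorem pos_row {f g : ℤ → ℂ} {t : ℝ} (H : Tb M g t) (hf : ∀ n : ℤ, M ≤ n.natAbs → f n = sy g n) (F : Finset ℤ)
    (h0 : ∀ n ∈ F, 0 < n) (hF : ∀ n ∈ F, M ≤ n.natAbs) : ∑ n ∈ F, ‖f n‖ ^ 2 ≤ t / 2 := by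
  have h1 := half_pos (sy_neg g) (M := M) (fun G hG => H.sy G hG) F h0 hF
  refine le_trans (le_of_eq ?_) h1
  exact Finset.sum_congr rfl fun n hn => by rw [hf n (hF n hn)]

/-- the sum of the rows `Y`, positive frequencies -/
theorem rowY (o : FOk D M aN aE aR q2 tZ tU tD tE) (a : Arr N p r s)
    (hK : D.K0 ≤ N) (hM : N + 3 < M)
    (hN : Tb (M + 3) (wm D.P.eta (fun n => om * gA D N p r s n + om ^ 2 * gB D N p r s n)) (1 * NFb)) (F : Finset ℤ)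
    (h0 : ∀ n ∈ F, 0 < n) (hF : ∀ n ∈ F, M + 3 ≤ n.natAbs) :
    ∑ n ∈ F, ‖Yr D N p r s n‖ ^ 2 ≤ RT D aN aE aR q2 tZ tU tD tE NFb ((p 0).re ^ 2 + ‖p 2‖ ^ 2) / 2 := by
  have n1 : ‖om‖ ^ 2 = 1 := by rw [norm_om', one_pow]
  have n2 : ‖om ^ 2‖ ^ 2 = 1 := by rw [norm_pow, norm_om', one_pow, one_pow]
  have t := row1 o a n1 n2 hN
  rw [one_mul] at t
  refine pos_row t (fun n hn => ?_) F h0 hF
  unfold Yr
  rw [wm_zero a.sp (by omega), wm_zero (zep_sup D hK a) (by omega),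
    zep_sup D hK a n (by rw [Finset.mem_Icc]; omega)]
  rw [mul_zero, mul_zero, mul_zero, add_zero, add_zero, mul_zero, sub_zero]
  refine sy_row ?_ ?_
  · have := row_gL (D := D) a hM 1 om (om ^ 2) hn
    simp only [one_mul] at this
    exact this
  · have := row_gL (D := D) a hM 1 om (om ^ 2) (n := -n) (by rwa [Int.natAbs_neg])
    simp only [one_mul] at this
    exact this

/-- the sum of the rows `Z`, positive frequencies -/
theorem rowZ (o : FOk D M aN aE aR q2 tZ tU tD tE) (a : Arr N p r s)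
    (hK : D.K0 ≤ N) (hM : N + 3 < M)
    (hN : Tb (M + 3) (wm D.P.eta (fun n => (starRingEnd ℂ) (kq 2) * gA D N p r s n + kq 2 * gB D N p r s n))
      (49 / 16 * NFb)) (F : Finset ℤ)
    (h0 : ∀ n ∈ F, 0 < n) (hF : ∀ n ∈ F, M + 3 ≤ n.natAbs) :
    ∑ n ∈ F, ‖Zr D N p r s n‖ ^ 2 ≤ 49 / 32 * RT D aN aE aR q2 tZ tU tD tE NFb ((p 0).re ^ 2 + ‖p 2‖ ^ 2) := by
  have n1 : ‖(starRingEnd ℂ) (kq 2)‖ ^ 2 = 49 / 16 := by rw [Complex.norm_conj, nsq_kq]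
  have t := row1 o a n1 nsq_kq hN
  have e : 49 / 32 * RT D aN aE aR q2 tZ tU tD tE NFb ((p 0).re ^ 2 + ‖p 2‖ ^ 2) =
      49 / 16 * RT D aN aE aR q2 tZ tU tD tE NFb ((p 0).re ^ 2 + ‖p 2‖ ^ 2) / 2 := by ring
  rw [e]
  refine pos_row t (fun n hn => ?_) F h0 hF
  unfold Zr
  rw [wm_zero a.sr (by omega), wm_zero (zer_sup D hK a) (by omega),
    zer_sup D hK a n (by rw [Finset.mem_Icc]; omega)]
  rw [mul_zero, mul_zero, mul_zero, add_zero, add_zero, mul_zero, sub_zero]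
  refine sy_row ?_ ?_
  · exact row_gL (D := D) a hM (-(Complex.I / 2)) ((starRingEnd ℂ) (kq 2)) (kq 2) hn
  · exact row_gL (D := D) a hM (-(Complex.I / 2)) ((starRingEnd ℂ) (kq 2)) (kq 2) (n := -n) (by rwa [Int.natAbs_neg])

end

/-! ### coordinates -/

theorem pV_sq {K L : ℕ} (hL : 2 ≤ L) (v : ℕ → ℝ) :
    (pV K L v 0).re ^ 2 + ‖pV K L v 2‖ ^ 2 = v (bp K) ^ 2 + v (bp K + 1) ^ 2 + v (bp K + 2) ^ 2 := by
  have h0 : pV K L v 0 = (v (bp K) : ℂ) := by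
    unfold pV hV
    rw [if_neg, if_pos rfl]
    push Not
    exact ⟨Even.zero, by rw [Finset.mem_Icc]; omega⟩
  have h2 : pV K L v 2 = (v (bp K + 1) : ℂ) + Complex.I * (v (bp K + 2) : ℂ) := by
    unfold pV hV
    rw [if_neg, if_neg (by norm_num), if_pos (by norm_num)]
    · rfl
    · push Not
      exact ⟨even_two, by rw [Finset.mem_Icc]; omega⟩
  rw [h0, h2, ← Complex.normSq_eq_norm_sq, Complex.normSq_apply]
  simp
  ring

namespace FW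

variable (f : FW)

/-- the check of the weights (over `1000`) -/
def okw (aN aE aR : ℕ) : Bool :=
  decide (0 < aN) && decide (0 < aE) && decide (0 < aR) &&
    decide (1000 * (aE * aR + aN * aR + aN * aE) ≤ aN * aE * aR)

theorem okw_sound {aN aE aR : ℕ} (h : okw aN aE aR = true) : W3 ((aN : ℝ) / 1000) ((aE : ℝ) / 1000) ((aR : ℝ) / 1000) := by
  unfold okw at h
  simp only [Bool.and_eq_true, decide_eq_true_eq] at h
  obtain ⟨⟨⟨h1, h2⟩, h3⟩, h4⟩ := h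
  have a1 : (0 : ℝ) < aN := by exact_mod_cast h1
  have a2 : (0 : ℝ) < aE := by exact_mod_cast h2
  have a3 : (0 : ℝ) < aR := by exact_mod_cast h3
  have h4' : 1000 * ((aE : ℝ) * aR + aN * aR + aN * aE) ≤ aN * aE * aR := by exact_mod_cast h4
  refine ⟨by positivity, by positivity, by positivity, ?_⟩
  have e : 1 / ((aN : ℝ) / 1000) + 1 / ((aE : ℝ) / 1000) + 1 / ((aR : ℝ) / 1000) =
      1000 * ((aE : ℝ) * aR + aN * aR + aN * aE) / (aN * aE * aR) := by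
    field_simp
  rw [e, div_le_one (by positivity)]
  exact h4'

/-- the check -/
def okR (k : ℤ) (K L J1 J2 W : ℕ) : Bool :=
  f.fs.okF k K && f.fb.okF k L && decide (f.M + 1 ≤ K + 2 * J1) && decide (f.M + 1 ≤ L + 2 * J2) &&
    decide (W ≤ 2 * J1 + 1) && decide (2 ≤ L)

/-- the multiplier -/
def cc (cX cY cZ : ℕ) : ℕ := 32 * cX + 16 * cY + 49 * cZ

/-- **the diagonal of the far rows**, times `10 ^ 9 2 ^ 112` -/
def FRI (K L aN cX cY cZ b0 b1 i : ℕ) : ℕ :=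
  aN * cc cX cY cZ * f.dW K L i / 32000 + 1 + (if i = 0 then cc cX cY cZ * b0 / 32 + 1 else 0)
    + ((if i = bp K then cc cX cY cZ * b1 / 32 + 1 else 0) + (if i = bp K + 1 then cc cX cY cZ * b1 / 32 + 1 else 0)
      + (if i = bp K + 2 then cc cX cY cZ * b1 / 32 + 1 else 0))

variable {f}

theorem okR_iff {k : ℤ} {K L J1 J2 W : ℕ} : f.okR k K L J1 J2 W = true ↔ (f.fs.okF k K = true ∧ f.fb.okF k L = true ∧
    f.M + 1 ≤ K + 2 * J1 ∧ f.M + 1 ≤ L + 2 * J2 ∧ W ≤ 2 * J1 + 1 ∧ 2 ≤ L) := by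
  unfold okR
  simp only [Bool.and_eq_true, decide_eq_true_eq, and_assoc]

theorem sum_at {n j : ℕ} (hj : j < n) (b : ℝ) (v : ℕ → ℝ) :
    ∑ i ∈ Finset.range n, (if i = j then b else 0) * v i ^ 2 = b * v j ^ 2 := by
  rw [Finset.sum_eq_single j]
  · rw [if_pos rfl]
  · intro i _ hi
    rw [if_neg hi, zero_mul]
  · intro h
    exact absurd (Finset.mem_range.2 hj) h

/-- the diagonal in real numbers -/
theorem FRI_sum {K L aN cX cY cZ b0 b1 : ℕ} (hL : 2 ≤ L) (v : ℕ → ℝ) :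
    (cc cX cY cZ : ℝ) / (32 * 10 ^ 9) * ((aN : ℝ) / 1000 * ∑ i ∈ Finset.range (nt K L), (f.dW K L i : ℝ) / 2 ^ 112 * v i ^ 2
      + (b0 : ℝ) / 2 ^ 112 * v 0 ^ 2
      + (b1 : ℝ) / 2 ^ 112 * (v (bp K) ^ 2 + v (bp K + 1) ^ 2 + v (bp K + 2) ^ 2)) ≤
    ∑ i ∈ Finset.range (nt K L), (f.FRI K L aN cX cY cZ b0 b1 i : ℝ) / (10 ^ 9 * 2 ^ 112) * v i ^ 2 := by
  set C : ℝ := (cc cX cY cZ : ℝ) with hC
  have hC0 : 0 ≤ C := Nat.cast_nonneg _
  set B0 : ℝ := C * b0 / 32 with hB0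
  set B1 : ℝ := C * b1 / 32 with hB1
  have k0 := sum_at (n := nt K L) (j := 0) (by unfold nt bp; omega) (B0 / (10 ^ 9 * 2 ^ 112)) v
  have k1 := sum_at (n := nt K L) (j := bp K) (by unfold nt bp; omega) (B1 / (10 ^ 9 * 2 ^ 112)) v
  have k2 := sum_at (n := nt K L) (j := bp K + 1) (by unfold nt bp; omega) (B1 / (10 ^ 9 * 2 ^ 112)) v
  have k3 := sum_at (n := nt K L) (j := bp K + 2) (by unfold nt bp; omega) (B1 / (10 ^ 9 * 2 ^ 112)) v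
  have e : C / (32 * 10 ^ 9) * ((aN : ℝ) / 1000 * ∑ i ∈ Finset.range (nt K L), (f.dW K L i : ℝ) / 2 ^ 112 * v i ^ 2
      + (b0 : ℝ) / 2 ^ 112 * v 0 ^ 2
      + (b1 : ℝ) / 2 ^ 112 * (v (bp K) ^ 2 + v (bp K + 1) ^ 2 + v (bp K + 2) ^ 2)) =
      ∑ i ∈ Finset.range (nt K L), (aN * C * (f.dW K L i : ℝ) / 32000 / (10 ^ 9 * 2 ^ 112)
        + (if i = 0 then B0 / (10 ^ 9 * 2 ^ 112) else 0)
        + ((if i = bp K then B1 / (10 ^ 9 * 2 ^ 112) else 0) + (if i = bp K + 1 then B1 / (10 ^ 9 * 2 ^ 112) else 0)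
          + (if i = bp K + 2 then B1 / (10 ^ 9 * 2 ^ 112) else 0))) * v i ^ 2 := by
    simp only [add_mul, Finset.sum_add_distrib]
    rw [k0, k1, k2, k3]
    have e1 : ∑ i ∈ Finset.range (nt K L), aN * C * (f.dW K L i : ℝ) / 32000 / (10 ^ 9 * 2 ^ 112) * v i ^ 2 =
        aN * C / 32000 / 10 ^ 9 * ∑ i ∈ Finset.range (nt K L), (f.dW K L i : ℝ) / 2 ^ 112 * v i ^ 2 := by
      rw [Finset.mul_sum]
      refine Finset.sum_congr rfl fun i _ => ?_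
      field_simp
    rw [e1, hB0, hB1]
    ring
  rw [e]
  refine Finset.sum_le_sum fun i _ => mul_le_mul_of_nonneg_right ?_ (sq_nonneg _)
  have hS : (0 : ℝ) < 10 ^ 9 * 2 ^ 112 := by positivity
  have u0 : B0 ≤ ((cc cX cY cZ * b0 / 32 + 1 : ℕ) : ℝ) := le_divU (by norm_num) (le_of_eq (by rw [hB0, hC]; push_cast; ring))
  have u1 : B1 ≤ ((cc cX cY cZ * b1 / 32 + 1 : ℕ) : ℝ) := le_divU (by norm_num) (le_of_eq (by rw [hB1, hC]; push_cast; ring))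
  have u2 : aN * C * (f.dW K L i : ℝ) / 32000 ≤ ((aN * cc cX cY cZ * f.dW K L i / 32000 + 1 : ℕ) : ℝ) :=
    le_divU (by norm_num) (le_of_eq (by rw [hC]; push_cast; ring))
  have key : ∀ (q : Prop) [Decidable q] (x : ℝ) (y : ℕ), x ≤ (y : ℝ) →
      (if q then x / (10 ^ 9 * 2 ^ 112) else 0) ≤ (((if q then y else 0 : ℕ)) : ℝ) / (10 ^ 9 * 2 ^ 112) := by
    intro q _ x y hxy
    split_ifs
    · exact div_le_div_of_nonneg_right hxy hS.le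
    · simp
  have c5 : ∀ x1 x2 x3 x4 x5 : ℕ, ((x1 + x2 + (x3 + x4 + x5) : ℕ) : ℝ) / (10 ^ 9 * 2 ^ 112) =
      (x1 : ℝ) / (10 ^ 9 * 2 ^ 112) + (x2 : ℝ) / (10 ^ 9 * 2 ^ 112) + ((x3 : ℝ) / (10 ^ 9 * 2 ^ 112)
        + (x4 : ℝ) / (10 ^ 9 * 2 ^ 112) + (x5 : ℝ) / (10 ^ 9 * 2 ^ 112)) := by
    intro x1 x2 x3 x4 x5
    push_cast
    ring
  unfold FRI
  rw [c5]
  refine add_le_add (add_le_add (div_le_div_of_nonneg_right u2 hS.le) (key _ _ _ u0))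
    (add_le_add (add_le_add (key _ _ _ u1) (key _ _ _ u1)) (key _ _ _ u1))

variable {D : CD} {c : TSc} {bL q2 tZ tU tD tE d ph : ℝ} {k : ℤ} {J1 J2 W aN aE aR cX cY cZ b0 b1 : ℕ}

/-- **THE FAR ROWS** of the head/tail theorem -/
theorem FR_ok (ok : f.okR k c.K c.L J1 J2 W = true) (hps : D.P.ps = ps d ((k : ℝ) / 100000) ph)
    (he : ‖D.P.eta‖ ≤ (f.te : ℝ) / 100000) (oK : Odd c.K) (eL : Even c.L) (hK0 : D.K0 ≤ c.K)
    (hFw : ∀ n : ℤ, W < n.natAbs → Fw D n = 0) (hFn : ∀ n : ℤ, W < n.natAbs → Fn D n = 0)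
    (o : FOk D f.M ((aN : ℝ) / 1000) ((aE : ℝ) / 1000) ((aR : ℝ) / 1000) q2 tZ tU tD tE)
    (tz0 : 0 < c.tz) (t20 : 0 < c.t2 - x2 c D bL) (t30 : 0 < c.t3 - x3 c D bL)
    (hX : 1 / c.tz ≤ (cX : ℝ) / 10 ^ 9) (hY : 2 / (c.t2 - x2 c D bL) ≤ (cY : ℝ) / 10 ^ 9)
    (hZ : 2 / (c.t3 - x3 c D bL) ≤ (cZ : ℝ) / 10 ^ 9)
    (hb0 : 2 ^ 112 * ((aE : ℝ) / 1000 * (17 / 8 * q2 * tE * D.P.lam ^ 2)
      + (aR : ℝ) / 1000 * (2 * (4 * q2 * tZ + 2 * (D.mu1 ^ 2 * tU + D.mu2 ^ 2 * tD)))) ≤ b0)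
    (hb1 : 2 ^ 112 * ((aE : ℝ) / 1000 * (85 / 2 * q2 * tE)) ≤ b1) :
    ∀ (N : ℕ) (v : ℕ → ℝ), v 0 = 1 →
      FARR D c bL J1 J2 N (max c.K c.L) (pV c.K c.L v) (rV c.K c.L v) (sV c.K v) ≤
        ∑ i ∈ Finset.range (nt c.K c.L), (f.FRI c.K c.L aN cX cY cZ b0 b1 i : ℝ) / (10 ^ 9 * 2 ^ 112) * v i ^ 2 := by
  intro N v v0
  obtain ⟨o1, o2, o3, o4, o5, o6⟩ := okR_iff.1 ok
  have hK : ¬ Even c.K := Nat.not_even_iff_odd.2 oK
  have m1 := (FD.okF_iff.1 o1).2.2.1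
  have m2 := (FD.okF_iff.1 o2).2.2.1
  have m1' : c.K + 3 < f.M := m1
  have m2' : c.L + 3 < f.M := m2
  have a := arrV (le_max_left c.K c.L) (le_max_right c.K c.L) v
  have hM : max c.K c.L + 3 < f.M := by
    rcases max_choice c.K c.L with e | e <;> rw [e] <;> assumption
  set B := ∑ i ∈ Finset.range (nt c.K c.L), (f.dW c.K c.L i : ℝ) / 2 ^ 112 * v i ^ 2 with hB
  set h2 := (pV c.K c.L v 0).re ^ 2 + ‖pV c.K c.L v 2‖ ^ 2 with hh2
  have nX := nfT (c := D) o1 o2 hps he hK eL v v0 (c1 := 1) (c2 := -1) (ka := 1) (by simp) (by simp)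
  have nY := nfT (c := D) o1 o2 hps he hK eL v v0 (c1 := om) (c2 := om ^ 2) (ka := 1) (by rw [norm_om', one_pow])
    (by rw [norm_pow, norm_om', one_pow, one_pow])
  have nZ := nfT (c := D) o1 o2 hps he hK eL v v0 (c1 := (starRingEnd ℂ) (kq 2)) (c2 := kq 2) (ka := 49 / 16)
    (by rw [Complex.norm_conj, nsq_kq]) nsq_kq
  have hz : Sup c.K (zes D (sV c.K v)) := sup_sub (sV_sup c.K v) (Helper95.SH.Sup.mono hK0 D.L.sz)
  have hK1 : D.K0 ≤ max c.K c.L := hK0.trans (le_max_left _ _)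
  have rX := rowX o a (le_max_left c.K c.L) hz hFw hFn nX
  have rY := rowY o a hK1 hM nY
  have rZ := rowZ o a hK1 hM nZ
  have qX := rX ((Finset.Icc (-(N : ℤ)) N).filter (fun n => ¬ Even n ∧ (c.K : ℤ) + 2 * J1 < |n|)) (fun n hn => by
    rw [Finset.mem_filter] at hn
    obtain ⟨_, h1, h2⟩ := hn
    obtain ⟨i, hi⟩ := oK
    rw [Int.not_even_iff] at h1
    rw [← Int.natCast_natAbs] at h2
    omega)
  have qY := rY ((Finset.Icc ((c.L : ℤ) + 2 * J2 + 1) (N : ℤ)).filter Even) (fun n hn => by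
    rw [Finset.mem_filter, Finset.mem_Icc] at hn
    omega) (fun n hn => by
    rw [Finset.mem_filter, Finset.mem_Icc] at hn
    obtain ⟨⟨h1, _⟩, i, hi⟩ := hn
    obtain ⟨j, hj⟩ := eL
    omega)
  have qZ := rZ ((Finset.Icc ((c.L : ℤ) + 2 * J2 + 1) (N : ℤ)).filter Even) (fun n hn => by
    rw [Finset.mem_filter, Finset.mem_Icc] at hn
    omega) (fun n hn => by
    rw [Finset.mem_filter, Finset.mem_Icc] at hn
    obtain ⟨⟨h1, _⟩, i, hi⟩ := hn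
    obtain ⟨j, hj⟩ := eL
    omega)
  set R := RT D ((aN : ℝ) / 1000) ((aE : ℝ) / 1000) ((aR : ℝ) / 1000) q2 tZ tU tD tE B h2 with hR
  have R0 : 0 ≤ R := by
    have := rX ∅ (by simp)
    simpa using this
  have w1 : (0 : ℝ) ≤ 1 / c.tz := by positivity
  have w2 : 0 ≤ 2 / (c.t2 - x2 c D bL) := by positivity
  have w3 : 0 ≤ 2 / (c.t3 - x3 c D bL) := by positivity
  have s1 : FARR D c bL J1 J2 N (max c.K c.L) (pV c.K c.L v) (rV c.K c.L v) (sV c.K v) ≤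
      (cX : ℝ) / 10 ^ 9 * R + (cY : ℝ) / 10 ^ 9 * (R / 2) + (cZ : ℝ) / 10 ^ 9 * (49 / 32 * R) := by
    unfold FARR
    refine add_le_add (add_le_add ?_ ?_) ?_
    · exact (mul_le_mul_of_nonneg_left qX w1).trans (mul_le_mul_of_nonneg_right hX R0)
    · exact (mul_le_mul_of_nonneg_left qY w2).trans (mul_le_mul_of_nonneg_right hY (by positivity))
    · exact (mul_le_mul_of_nonneg_left qZ w3).trans (mul_le_mul_of_nonneg_right hZ (by positivity))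
  refine s1.trans ?_
  have hS : (0 : ℝ) < 2 ^ 112 := by positivity
  have c0 : (aE : ℝ) / 1000 * (17 / 8 * q2 * tE * D.P.lam ^ 2)
      + (aR : ℝ) / 1000 * (2 * (4 * q2 * tZ + 2 * (D.mu1 ^ 2 * tU + D.mu2 ^ 2 * tD))) ≤ (b0 : ℝ) / 2 ^ 112 := by
    rw [le_div_iff₀ hS]
    linarith
  have c1 : (aE : ℝ) / 1000 * (85 / 2 * q2 * tE) ≤ (b1 : ℝ) / 2 ^ 112 := by
    rw [le_div_iff₀ hS]
    linarith
  have h20 : 0 ≤ h2 := by positivity
  have hR2 : R ≤ (aN : ℝ) / 1000 * B + (b0 : ℝ) / 2 ^ 112 * v 0 ^ 2 + (b1 : ℝ) / 2 ^ 112 * h2 := by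
    rw [hR]
    unfold RT
    rw [v0]
    have := mul_le_mul_of_nonneg_right c1 h20
    linarith
  refine le_trans ?_ (FRI_sum (f := f) o6 v)
  rw [← hB, ← pV_sq o6 v, ← hh2]
  have e : (cX : ℝ) / 10 ^ 9 * R + (cY : ℝ) / 10 ^ 9 * (R / 2) + (cZ : ℝ) / 10 ^ 9 * (49 / 32 * R) =
      (cc cX cY cZ : ℝ) / (32 * 10 ^ 9) * R := by
    unfold cc
    push_cast
    ring
  rw [e]
  exact mul_le_mul_of_nonneg_left hR2 (by positivity)

end FW

end Pool.Agent.Helper20.SH
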