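import Pool.Agent.Helper20.SH.Kap

/-!
# Project RC, SHARP, zone II: the far rows of the shift form

`far_GA`, `far_GB`: the rows `|m| ≥ M` of the gradient of `NS` at a head array (support `|n| ≤ K < M`) are
bounded in quadratic mean by a diagonal form of the head array.
-/

set_option autoImplicit false

open MeasureTheory Set Filter Topology

namespace Pool.Agent.Helper20.SH

open Helper49.LT hiding sg
open Pool.Agent.Helper99.RC
open Pool.Agent.Helper61.RC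
open Helper95.RC
open Helper87.RC (BM)
open Helper31.Bes

/-- exchange of the two indices -/
theorem CS_swap (d k ph : ℝ) (m n : ℤ) : CS d k ph n m = CS d (-k) (-ph) m n := by
  unfold CS
  by_cases h : (3 : ℤ) ∣ n - m
  · obtain ⟨j, hj⟩ := h
    have h1 : (m - n) / 3 = -j := by omega
    have h2 : (n - m) / 3 = j := by omega
    rw [if_pos ⟨-j, by omega⟩, if_pos ⟨j, hj⟩, h1, h2]
    congr 1
    · congr 1
      · congr 1
        push_cast
        ring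
      · congr 1
        push_cast
        ring
    · have e : ((m + n : ℤ) : ℝ) * -k / 2 = -(((n + m : ℤ) : ℝ) * k / 2) := by
        push_cast
        ring
      rw [e, J_neg_arg]
  · rw [if_neg h, if_neg (fun h' => h (by
      obtain ⟨j, hj⟩ := h'
      exact ⟨-j, by omega⟩))]

/-- Kapteyn's bound for the kernel -/
theorem CS_kap (d k ph s E : ℝ) (hs : 1 ≤ s)
    (hE : Real.exp (|k| * (s ^ 3 - (s ^ 3)⁻¹) / 4) ≤ E) (m n : ℤ) :
    ‖CS d k ph m n‖ * s ^ (n - m).natAbs ≤ E ^ (m + n).natAbs := by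
  have hs3 : 1 ≤ s ^ 3 := one_le_pow₀ hs
  have hE0 : 0 < E := (Real.exp_pos _).trans_le hE
  by_cases h : (3 : ℤ) ∣ n - m
  · obtain ⟨j, hj⟩ := h
    have h1 := kapteyn j (((m + n : ℤ) : ℝ) * k / 2) (s ^ 3) hs3
    have h2 : ‖CS d k ph m n‖ = |J j (((m + n : ℤ) : ℝ) * k / 2)| := by
      unfold CS
      have hj' : (n - m) / 3 = j := by omega
      rw [if_pos ⟨j, hj⟩, norm_mul, norm_mul, norm_ee, norm_ee, one_mul, one_mul, Complex.norm_real,
        Real.norm_eq_abs, hj']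
    have h3 : s ^ (n - m).natAbs = (s ^ 3) ^ j.natAbs := by
      rw [← pow_mul]
      congr 1
      omega
    rw [h2, h3]
    refine h1.trans ?_
    have h4 : Real.exp (|((m + n : ℤ) : ℝ) * k / 2| * (s ^ 3 - (s ^ 3)⁻¹) / 2) =
        Real.exp (|k| * (s ^ 3 - (s ^ 3)⁻¹) / 4) ^ (m + n).natAbs := by
      rw [← Real.exp_nat_mul]
      congr 1
      rw [Nat.cast_natAbs, Int.cast_abs, abs_div, abs_mul, abs_of_pos (by norm_num : (0 : ℝ) < 2)]
      ring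
    rw [h4]
    exact pow_le_pow_left₀ (Real.exp_pos _).le hE _
  · rw [CS_zero d k ph m n h, norm_zero, zero_mul]
    positivity

/-- the weight of a column -/
noncomputable def cw (g : ℝ) (n1 : ℕ) (n : ℤ) : ℝ :=
  if n.natAbs ≤ n1 then g ^ n.natAbs else (g ^ n.natAbs)⁻¹

/-- entries of the far rows by Kapteyn's bound -/
theorem far_entry (d k ph s E : ℝ) (hs : 1 ≤ s)
    (hE : Real.exp (|k| * (s ^ 3 - (s ^ 3)⁻¹) / 4) ≤ E) (M K n1 : ℕ) (hKM : K < M) (m n : ℤ)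
    (hm : M ≤ m.natAbs) (hn : n.natAbs ≤ K)
    (hc : n.natAbs ≤ n1 ∨ (0 < m ∧ n < 0) ∨ (m < 0 ∧ 0 < n)) :
    ‖(2 : ℂ) / ((m + n : ℤ) : ℂ) * CS d k ph m n‖ ≤
      2 / ((M : ℝ) - K) * ((E / s) ^ m.natAbs * cw (E * s) n1 n) := by
  have hs0 : 0 < s := by linarith
  have hs3 : 1 ≤ s ^ 3 := one_le_pow₀ hs
  have hE1 : 1 ≤ E := by
    refine le_trans ?_ hE
    rw [← Real.exp_zero]
    apply Real.exp_le_exp.2
    have : (s ^ 3)⁻¹ ≤ 1 := inv_le_one_of_one_le₀ hs3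
    have h2 : 0 ≤ s ^ 3 - (s ^ 3)⁻¹ := by linarith
    positivity
  have hE0 : 0 < E := by linarith
  have hMK : (0 : ℝ) < (M : ℝ) - K := by
    have : (K : ℝ) < M := by exact_mod_cast hKM
    linarith
  have hk := CS_kap d k ph s E hs hE m n
  have h2 : ‖CS d k ph m n‖ ≤ E ^ (m + n).natAbs / s ^ (n - m).natAbs := by
    rwa [le_div_iff₀ (by positivity)]
  have hp : (0 : ℝ) < ((m + n).natAbs : ℝ) := by
    have : 0 < (m + n).natAbs := by omega
    exact_mod_cast this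
  have h3 : 2 / ((m + n).natAbs : ℝ) ≤ 2 / ((M : ℝ) - K) := by
    apply div_le_div_of_nonneg_left (by norm_num) hMK
    have h4 : (M : ℤ) - K ≤ (m + n).natAbs := by omega
    have h5 : (((M : ℤ) - K : ℤ) : ℝ) ≤ (((m + n).natAbs : ℤ) : ℝ) := by exact_mod_cast h4
    push_cast at h5
    simpa [Nat.cast_natAbs] using h5
  rw [norm_mul, norm_two_div]
  apply mul_le_mul h3 _ (norm_nonneg _) (by positivity)
  refine h2.trans ?_
  have hEs : 1 ≤ E * s := by nlinarith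
  -- the two cases of sign
  have hopp : (0 < m ∧ n < 0) ∨ (m < 0 ∧ 0 < n) →
      E ^ (m + n).natAbs / s ^ (n - m).natAbs = (E / s) ^ m.natAbs * ((E * s) ^ n.natAbs)⁻¹ := by
    intro h
    have e1 : m.natAbs = (m + n).natAbs + n.natAbs := by omega
    have e2 : (n - m).natAbs = m.natAbs + n.natAbs := by omega
    rw [e2, div_pow, mul_pow, e1]
    rw [pow_add E, pow_add s]
    field_simp
  have hsame : ¬ ((0 < m ∧ n < 0) ∨ (m < 0 ∧ 0 < n)) →
      E ^ (m + n).natAbs / s ^ (n - m).natAbs = (E / s) ^ m.natAbs * (E * s) ^ n.natAbs := by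
    intro h
    have e1 : (m + n).natAbs = m.natAbs + n.natAbs := by omega
    have e2 : m.natAbs = (n - m).natAbs + n.natAbs := by omega
    rw [e1, div_pow, mul_pow, e2, pow_add E, pow_add E, pow_add s]
    field_simp
  have hq : 0 ≤ (E / s) ^ m.natAbs := by positivity
  have hg1 : 1 ≤ (E * s) ^ n.natAbs := one_le_pow₀ hEs
  unfold cw
  by_cases ho : (0 < m ∧ n < 0) ∨ (m < 0 ∧ 0 < n)
  · rw [hopp ho]
    split_ifs with h1
    · apply mul_le_mul_of_nonneg_left _ hq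
      exact (inv_le_one_of_one_le₀ hg1).trans hg1
    · exact le_refl _
  · rw [hsame ho]
    rcases hc with h | h
    · rw [if_pos h]
    · exact absurd h ho

/-- the kernel with the weight `1 / (|m| + |n|)`, rows `|m| ≥ M` -/
theorem same_wt (d k ph δ : ℝ) (hδ : 0 < δ) (hk : δ ^ 2 ≤ 1 - 9 / 4 * k ^ 2) (S T : Finset ℤ)
    (a b : ℤ → ℂ) (M : ℕ) (hM : 1 ≤ M) (hS : ∀ m ∈ S, M ≤ m.natAbs) (l : ℝ) (hl : 0 < l) :
    δ * ‖∑ m ∈ S, ∑ n ∈ T, (1 / ((m.natAbs + n.natAbs : ℕ) : ℂ)) *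
        (a m * (starRingEnd ℂ) (b n) * CS d k ph m n)‖ ≤
      (l * ((∑ m ∈ S, ‖a m‖ ^ 2) / M) +
        l⁻¹ * ∑ n ∈ T, ‖b n‖ ^ 2 / ((M + 2 * n.natAbs : ℕ) : ℝ)) / 2 := by
  have hS1 : ∀ m ∈ S, 1 ≤ m.natAbs := fun m hm => hM.trans (hS m hm)
  rw [← same_int d k ph S T a b hS1]
  set f : ℝ → ℂ := fun x => ∑ m ∈ S, ∑ n ∈ T, ((x ^ (m.natAbs + n.natAbs - 1) : ℝ) : ℂ) *
        (a m * (starRingEnd ℂ) (b n) * CS d k ph m n) with hf
  have cf : Continuous f := by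
    refine continuous_finsetSum _ fun m _ => continuous_finsetSum _ fun n _ => ?_
    exact (Complex.continuous_ofReal.comp (continuous_pow _)).mul continuous_const
  set A := ∑ m ∈ S, ‖a m‖ ^ 2 with hA
  set g : ℝ → ℝ := fun x => l / 2 * A * x ^ (M - 1) +
    l⁻¹ / 2 * ∑ n ∈ T, ‖b n‖ ^ 2 * x ^ (M + 2 * n.natAbs - 1) with hg
  have cA : Continuous fun x : ℝ => l / 2 * A * x ^ (M - 1) := continuous_const.mul (continuous_pow _)
  have cB' : Continuous fun x : ℝ => ∑ n ∈ T, ‖b n‖ ^ 2 * x ^ (M + 2 * n.natAbs - 1) :=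
    continuous_finsetSum _ fun m _ => continuous_const.mul (continuous_pow _)
  have cB : Continuous fun x : ℝ => l⁻¹ / 2 * ∑ n ∈ T, ‖b n‖ ^ 2 * x ^ (M + 2 * n.natAbs - 1) :=
    continuous_const.mul cB'
  have cg : Continuous g := cA.add cB
  have hli : 0 < l⁻¹ := inv_pos.2 hl
  have hle : ∀ x ∈ Set.Ioc (0 : ℝ) 1, δ * ‖f x‖ ≤ g x := by
    intro x hx
    have hx0 := hx.1
    have hxM : 0 < x ^ M := pow_pos hx0 M
    have h := same_pt d k ph δ hδ hk S T a b hS1 x hx0 (l * (x ^ M)⁻¹) (by positivity)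
    have e1 : l * (x ^ M)⁻¹ * ∑ m ∈ S, ‖a m‖ ^ 2 * x ^ (2 * m.natAbs) ≤ l * (x ^ M * A) := by
      rw [mul_assoc]
      apply mul_le_mul_of_nonneg_left _ hl.le
      rw [hA, Finset.mul_sum, Finset.mul_sum]
      refine Finset.sum_le_sum fun m hm => ?_
      have h1 : x ^ (2 * m.natAbs) ≤ x ^ (M + M) :=
        pow_le_pow_of_le_one hx0.le hx.2 (by have := hS m hm; omega)
      calc (x ^ M)⁻¹ * (‖a m‖ ^ 2 * x ^ (2 * m.natAbs))
          ≤ (x ^ M)⁻¹ * (‖a m‖ ^ 2 * x ^ (M + M)) := by gcongr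
        _ = x ^ M * ‖a m‖ ^ 2 := by
            rw [pow_add]
            field_simp
    have e2 : (l * (x ^ M)⁻¹)⁻¹ * ∑ n ∈ T, ‖b n‖ ^ 2 * x ^ (2 * n.natAbs) =
        x * (l⁻¹ * ∑ n ∈ T, ‖b n‖ ^ 2 * x ^ (M + 2 * n.natAbs - 1)) := by
      have e0 : (l * (x ^ M)⁻¹)⁻¹ = l⁻¹ * x ^ M := by
        rw [mul_inv, inv_inv]
      rw [e0, Finset.mul_sum, Finset.mul_sum, Finset.mul_sum]
      refine Finset.sum_congr rfl fun n _ => ?_
      have e3 : x ^ M * x ^ (2 * n.natAbs) = x * x ^ (M + 2 * n.natAbs - 1) := by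
        rw [← pow_add, ← pow_succ']
        congr 1
        omega
      calc l⁻¹ * x ^ M * (‖b n‖ ^ 2 * x ^ (2 * n.natAbs))
          = l⁻¹ * ‖b n‖ ^ 2 * (x ^ M * x ^ (2 * n.natAbs)) := by ring
        _ = x * (l⁻¹ * (‖b n‖ ^ 2 * x ^ (M + 2 * n.natAbs - 1))) := by
            rw [e3]
            ring
    have e4 : x ^ M = x * x ^ (M - 1) := by
      rw [← pow_succ']
      congr 1
      omega
    refine h.trans ?_
    rw [div_le_iff₀ (by positivity), e2]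
    calc l * (x ^ M)⁻¹ * ∑ m ∈ S, ‖a m‖ ^ 2 * x ^ (2 * m.natAbs) +
          x * (l⁻¹ * ∑ n ∈ T, ‖b n‖ ^ 2 * x ^ (M + 2 * n.natAbs - 1))
        ≤ l * (x ^ M * A) + x * (l⁻¹ * ∑ n ∈ T, ‖b n‖ ^ 2 * x ^ (M + 2 * n.natAbs - 1)) := by
          linarith
      _ = g x * (2 * x) := by
          rw [hg, e4]
          ring
  have h1 : δ * ‖∫ x in (0 : ℝ)..1, f x‖ ≤ ∫ x in (0 : ℝ)..1, g x := by
    have h2 := intervalIntegral.norm_integral_le_integral_norm (μ := volume) (f := f)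
      (show (0 : ℝ) ≤ 1 by norm_num)
    calc δ * ‖∫ x in (0 : ℝ)..1, f x‖ ≤ δ * ∫ x in (0 : ℝ)..1, ‖f x‖ := by gcongr
      _ = ∫ x in (0 : ℝ)..1, δ * ‖f x‖ := by rw [intervalIntegral.integral_const_mul]
      _ ≤ ∫ x in (0 : ℝ)..1, g x := by
          apply intervalIntegral.integral_mono_on_of_le_Ioo (by norm_num)
            ((continuous_const.mul cf.norm).intervalIntegrable _ _) (cg.intervalIntegrable _ _)
          intro x hx
          exact hle x ⟨hx.1, hx.2.le⟩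
  refine h1.trans (le_of_eq ?_)
  have e4 : ∫ x in (0 : ℝ)..1, g x = (∫ x in (0 : ℝ)..1, l / 2 * A * x ^ (M - 1)) +
      ∫ x in (0 : ℝ)..1, l⁻¹ / 2 * ∑ n ∈ T, ‖b n‖ ^ 2 * x ^ (M + 2 * n.natAbs - 1) :=
    intervalIntegral.integral_add (cA.intervalIntegrable _ _) (cB.intervalIntegrable _ _)
  have e5 : ∫ x in (0 : ℝ)..1, ∑ n ∈ T, ‖b n‖ ^ 2 * x ^ (M + 2 * n.natAbs - 1) =
      ∑ n ∈ T, ‖b n‖ ^ 2 / ((M + 2 * n.natAbs : ℕ) : ℝ) := by
    rw [intervalIntegral.integral_finsetSum]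
    · refine Finset.sum_congr rfl fun n _ => ?_
      rw [intervalIntegral.integral_const_mul, int_pow_one _ (by omega)]
      ring
    · intro m _
      exact (continuous_const.mul (continuous_pow _)).intervalIntegrable _ _
  rw [e4, intervalIntegral.integral_const_mul, intervalIntegral.integral_const_mul, e5,
    int_pow_one _ hM]
  ring

/-- **far rows, same sign** -/
theorem far_same (d k ph δ : ℝ) (hδ : 0 < δ) (hk : δ ^ 2 ≤ 1 - 9 / 4 * k ^ 2) (F H : Finset ℤ)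
    (b : ℤ → ℂ) (M : ℕ) (hM : 1 ≤ M) (hF : ∀ m ∈ F, M ≤ m.natAbs)
    (hs : ((∀ m ∈ F, 0 < m) ∧ (∀ m ∈ H, 0 ≤ m)) ∨ ((∀ m ∈ F, m < 0) ∧ (∀ m ∈ H, m ≤ 0))) :
    ∑ m ∈ F, ‖∑ n ∈ H, (2 : ℂ) / ((m + n : ℤ) : ℂ) * ((starRingEnd ℂ) (b n) * CS d k ph m n)‖ ^ 2 ≤
      4 / (δ ^ 2 * M) * ∑ n ∈ H, ‖b n‖ ^ 2 / ((M + 2 * n.natAbs : ℕ) : ℝ) := by
  set R : ℤ → ℂ := fun m => ∑ n ∈ H, (2 : ℂ) / ((m + n : ℤ) : ℂ) *
    ((starRingEnd ℂ) (b n) * CS d k ph m n) with hR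
  set X := ∑ m ∈ F, ‖R m‖ ^ 2 with hX
  have hM0 : (0 : ℝ) < M := by exact_mod_cast hM
  have h := same_wt d k ph δ hδ hk F H (fun m => (starRingEnd ℂ) (R m)) b M hM hF (δ * M / 2)
    (by positivity)
  simp_rw [Complex.norm_conj] at h
  have hX0 : 0 ≤ X := Finset.sum_nonneg fun m _ => by positivity
  have e : 2 * ‖∑ m ∈ F, ∑ n ∈ H, (1 / ((m.natAbs + n.natAbs : ℕ) : ℂ)) *
        ((starRingEnd ℂ) (R m) * (starRingEnd ℂ) (b n) * CS d k ph m n)‖ = X := by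
    obtain ⟨s, hs1, hs2⟩ : ∃ s : ℂ, ‖s‖ = 1 ∧ ∀ m ∈ F, ∀ n ∈ H,
        (2 : ℂ) / ((m + n : ℤ) : ℂ) = s * 2 * (1 / ((m.natAbs + n.natAbs : ℕ) : ℂ)) := by
      rcases hs with h | h
      · refine ⟨1, norm_one, fun m hm n hn => ?_⟩
        have h1 := h.1 m hm
        have h2 := h.2 n hn
        have h3 : (m + n : ℤ) = ((m.natAbs + n.natAbs : ℕ) : ℤ) := by omega
        rw [h3, Int.cast_natCast]
        ring
      · refine ⟨-1, by simp, fun m hm n hn => ?_⟩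
        have h1 := h.1 m hm
        have h2 := h.2 n hn
        have h3 : (m + n : ℤ) = -((m.natAbs + n.natAbs : ℕ) : ℤ) := by omega
        rw [h3, Int.cast_neg, Int.cast_natCast, div_neg]
        ring
    have e1 : ∑ m ∈ F, (starRingEnd ℂ) (R m) * R m = (s * 2) * ∑ m ∈ F, ∑ n ∈ H,
        (1 / ((m.natAbs + n.natAbs : ℕ) : ℂ)) *
        ((starRingEnd ℂ) (R m) * (starRingEnd ℂ) (b n) * CS d k ph m n) := by
      rw [Finset.mul_sum]
      refine Finset.sum_congr rfl fun m hm => ?_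
      have e2 : (starRingEnd ℂ) (R m) * R m = ∑ n ∈ H, (starRingEnd ℂ) (R m) *
          ((2 : ℂ) / ((m + n : ℤ) : ℂ) * ((starRingEnd ℂ) (b n) * CS d k ph m n)) := by
        rw [← Finset.mul_sum]
      rw [e2, Finset.mul_sum]
      refine Finset.sum_congr rfl fun n hn => ?_
      rw [hs2 m hm n hn]
      ring
    have e3 : ∑ m ∈ F, (starRingEnd ℂ) (R m) * R m = (X : ℂ) := by
      rw [hX, Complex.ofReal_sum]
      refine Finset.sum_congr rfl fun m _ => ?_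
      rw [mul_comm, Complex.mul_conj, Complex.normSq_eq_norm_sq]
    have e4 : ‖(X : ℂ)‖ = X := by rw [Complex.norm_real, Real.norm_of_nonneg hX0]
    rw [← e4, ← e3, e1, norm_mul, norm_mul, hs1]
    simp
  set Y := ∑ n ∈ H, ‖b n‖ ^ 2 / ((M + 2 * n.natAbs : ℕ) : ℝ) with hY
  rw [← hX] at h
  have h4 : δ * M / 2 * (X / M) = δ / 2 * X := by
    field_simp
  have h5 : δ * X ≤ δ / 2 * X + (δ * M / 2)⁻¹ * Y := by
    rw [h4] at h
    have h9 : δ * X = 2 * (δ * ‖∑ m ∈ F, ∑ n ∈ H, (1 / ((m.natAbs + n.natAbs : ℕ) : ℂ)) *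
        ((starRingEnd ℂ) (R m) * (starRingEnd ℂ) (b n) * CS d k ph m n)‖) := by
      rw [← e]
      ring
    linarith
  have h6 : (δ * M / 2)⁻¹ = 2 / (δ * M) := by
    rw [inv_div]
  rw [h6] at h5
  have h7 : δ / 2 * X ≤ 2 / (δ * M) * Y := by linarith
  have h8 : X = 2 / δ * (δ / 2 * X) := by
    field_simp
  rw [h8]
  calc 2 / δ * (δ / 2 * X) ≤ 2 / δ * (2 / (δ * M) * Y) := by gcongr
    _ = 4 / (δ ^ 2 * M) * Y := by
        field_simp
        ring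

end Pool.Agent.Helper20.SH
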