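import Pool.Agent.Helper20.SH.Far

/-!
# Project RC, SHARP, zone II: the far rows of the shift form, all columns

`far_rows`: the rows `|m| ≥ M` of the kernel `2 / (m + n) CS` applied to an array supported in `|n| ≤ K < M` are bounded
in quadratic mean by a diagonal form; everything in closed form, from Kapteyn's bound with one parameter `s ≥ 1`.
-/

set_option autoImplicit false

open MeasureTheory Set Filter Topology

namespace Pool.Agent.Helper20.SH

open Helper49.LT hiding sg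
open Pool.Agent.Helper99.RC
open Pool.Agent.Helper61.RC
open Helper95.RC
open Helper87.RC (BM)
open Helper31.Bes

/-- weight of the column `n` for the rows `m ≥ M` -/
noncomputable def xw (g : ℝ) (M : ℕ) (n : ℤ) : ℝ := g ^ n / ((M : ℝ) + n)

/-- entries of the far rows -/
theorem far_ent (d k ph s E : ℝ) (hs : 1 ≤ s)
    (hE : Real.exp (|k| * (s ^ 3 - (s ^ 3)⁻¹) / 4) ≤ E) (M : ℕ) (m n e : ℤ) (he : e = 1 ∨ e = -1)
    (hm : (M : ℤ) ≤ e * m) (hn : -(M : ℤ) < e * n) (hnm : e * n ≤ e * m) :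
    ‖(2 : ℂ) / ((m + n : ℤ) : ℂ) * CS d k ph m n‖ ≤
      2 * ((E / s) ^ m.natAbs * xw (E * s) M (e * n)) := by
  have hs0 : 0 < s := by linarith
  have hE0 : 0 < E := (Real.exp_pos _).trans_le hE
  have hk := CS_kap d k ph s E hs hE m n
  have h2 : ‖CS d k ph m n‖ ≤ E ^ (m + n).natAbs / s ^ (n - m).natAbs := by
    rwa [le_div_iff₀ (by positivity)]
  have a1 : (((m + n).natAbs : ℕ) : ℤ) = e * m + e * n := by
    rcases he with rfl | rfl <;> omega
  have a2 : (((n - m).natAbs : ℕ) : ℤ) = e * m - e * n := by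
    rcases he with rfl | rfl <;> omega
  have a3 : ((m.natAbs : ℕ) : ℤ) = e * m := by
    rcases he with rfl | rfl <;> omega
  have e1 : E ^ (m + n).natAbs / s ^ (n - m).natAbs = (E / s) ^ m.natAbs * (E * s) ^ (e * n) := by
    rw [← zpow_natCast, ← zpow_natCast, ← zpow_natCast, a1, a2, a3, zpow_add₀ hE0.ne', zpow_sub₀ hs0.ne',
      div_zpow, mul_zpow]
    field_simp
  have hp : (0 : ℝ) < (M : ℝ) + (e * n : ℤ) := by
    have : (0 : ℤ) < (M : ℤ) + e * n := by omega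
    exact_mod_cast this
  have h3 : 2 / ((m + n).natAbs : ℝ) ≤ 2 / ((M : ℝ) + (e * n : ℤ)) := by
    apply div_le_div_of_nonneg_left (by norm_num) hp
    have h4 : (M : ℤ) + e * n ≤ (((m + n).natAbs : ℕ) : ℤ) := by omega
    have h5 := (Int.cast_le (R := ℝ)).2 h4
    rw [Int.cast_add, Int.cast_natCast, Int.cast_natCast] at h5
    exact h5
  rw [norm_mul, norm_two_div]
  calc 2 / ((m + n).natAbs : ℝ) * ‖CS d k ph m n‖
      ≤ 2 / ((M : ℝ) + (e * n : ℤ)) * ((E / s) ^ m.natAbs * (E * s) ^ (e * n)) := by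
        apply mul_le_mul h3 (h2.trans e1.le) (norm_nonneg _) (by positivity)
    _ = 2 * ((E / s) ^ m.natAbs * xw (E * s) M (e * n)) := by
        unfold xw
        ring

/-- geometric sum over a class modulo 3 -/
theorem geo_three (q : ℝ) (hq : 0 ≤ q) (hq1 : q < 1) (M c : ℕ) (U : Finset ℕ) (hU : ∀ u ∈ U, M ≤ u)
    (hc : ∀ u ∈ U, u % 3 = c) : ∑ u ∈ U, q ^ u ≤ q ^ M / (1 - q ^ 3) := by
  have hq3 : q ^ 3 < 1 := pow_lt_one₀ hq hq1 (by norm_num)
  have h1 : ∀ u ∈ U, q ^ u ≤ q ^ M * (q ^ 3) ^ ((u - M) / 3) := by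
    intro u hu
    rw [← pow_mul, ← pow_add]
    apply pow_le_pow_of_le_one hq hq1.le
    have := hU u hu
    omega
  refine (Finset.sum_le_sum h1).trans ?_
  rw [← Finset.mul_sum, div_eq_mul_inv]
  apply mul_le_mul_of_nonneg_left _ (pow_nonneg hq M)
  have hinj : Set.InjOn (fun u : ℕ => (u - M) / 3) (U : Set ℕ) := by
    intro x hx y hy hxy
    have h1 := hU x (Finset.mem_coe.1 hx)
    have h2 := hU y (Finset.mem_coe.1 hy)
    have h3 := hc x (Finset.mem_coe.1 hx)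
    have h4 := hc y (Finset.mem_coe.1 hy)
    have hxy' : (x - M) / 3 = (y - M) / 3 := hxy
    omega
  rw [← Finset.sum_image (f := fun j : ℕ => (q ^ 3) ^ j) hinj]
  have := geo_nat (q ^ 3) (pow_nonneg hq 3) hq3 0 (U.image fun u : ℕ => (u - M) / 3) (fun k _ => Nat.zero_le k)
  rw [pow_zero, one_div] at this
  exact this

/-- **far rows**: all columns -/
theorem far_rows (d k ph s E : ℝ) (hs : 1 ≤ s)
    (hE : Real.exp (|k| * (s ^ 3 - (s ^ 3)⁻¹) / 4) ≤ E) (hEs : E < s) (M K : ℕ) (hKM : K < M)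
    (F H : Finset ℤ) (hF : ∀ m ∈ F, M ≤ m.natAbs) (hH : ∀ n ∈ H, n.natAbs ≤ K) (b : ℤ → ℂ) (X : ℝ)
    (hX : ∀ e : ℤ, e = 1 ∨ e = -1 → ∀ c : ℤ, ∑ n ∈ H.filter (fun n => n % 3 = c), xw (E * s) M (e * n) ≤ X) :
    ∑ m ∈ F, ‖∑ n ∈ H, (2 : ℂ) / ((m + n : ℤ) : ℂ) * ((starRingEnd ℂ) (b n) * CS d k ph m n)‖ ^ 2 ≤
      4 * ((E / s) ^ (2 * M) / (1 - (E / s) ^ 6)) *
        (X * ∑ n ∈ H, (xw (E * s) M n + xw (E * s) M (-n)) * ‖b n‖ ^ 2) := by
  have hs0 : 0 < s := by linarith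
  have hE0 : 0 < E := (Real.exp_pos _).trans_le hE
  set q := E / s with hq
  set g := E * s with hg
  have hq0 : 0 ≤ q := by positivity
  have hq1 : q < 1 := by rw [hq, div_lt_one hs0]; exact hEs
  have hq2 : q ^ 2 < 1 := pow_lt_one₀ hq0 hq1 (by norm_num)
  have hq6 : q ^ 6 < 1 := pow_lt_one₀ hq0 hq1 (by norm_num)
  have hxp : ∀ e : ℤ, e = 1 ∨ e = -1 → ∀ n ∈ H, 0 ≤ xw g M (e * n) := by
    intro e he n hn
    have h1 := hH n hn
    have : (0 : ℤ) < (M : ℤ) + e * n := by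
      rcases he with rfl | rfl <;> omega
    have h2 : (0 : ℝ) < (M : ℝ) + (e * n : ℤ) := by exact_mod_cast this
    unfold xw
    positivity
  set C := 4 * (q ^ (2 * M) / (1 - q ^ 6)) with hC
  have hC0 : 0 ≤ C := by
    have : 0 < 1 - q ^ 6 := by linarith
    positivity
  -- one sign, one class
  have key : ∀ e : ℤ, e = 1 ∨ e = -1 → ∀ c : ℤ,
      ∑ m ∈ (F.filter (fun m => 0 < e * m)).filter (fun m => m % 3 = c),
        ‖∑ n ∈ H, (2 : ℂ) / ((m + n : ℤ) : ℂ) * ((starRingEnd ℂ) (b n) * CS d k ph m n)‖ ^ 2 ≤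
      C * (X * ∑ n ∈ H.filter (fun n => n % 3 = c), xw g M (e * n) * ‖b n‖ ^ 2) := by
    intro e he c
    set G := (F.filter (fun m => 0 < e * m)).filter (fun m => m % 3 = c) with hG
    set Hc := H.filter (fun n => n % 3 = c) with hHc
    set T := ∑ n ∈ Hc, xw g M (e * n) * ‖b n‖ with hT
    have hGm : ∀ m ∈ G, m ∈ F ∧ 0 < e * m ∧ m % 3 = c := by
      intro m hm
      have h1 := Finset.mem_filter.1 hm
      have h2 := Finset.mem_filter.1 h1.1
      exact ⟨h2.1, h2.2, h1.2⟩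
    have hrow : ∀ m ∈ G, ‖∑ n ∈ H, (2 : ℂ) / ((m + n : ℤ) : ℂ) *
        ((starRingEnd ℂ) (b n) * CS d k ph m n)‖ ≤ 2 * q ^ m.natAbs * T := by
      intro m hm
      obtain ⟨hm1, hm2, hm3⟩ := hGm m hm
      have hmM := hF m hm1
      have e1 : ∑ n ∈ H, (2 : ℂ) / ((m + n : ℤ) : ℂ) * ((starRingEnd ℂ) (b n) * CS d k ph m n) =
          ∑ n ∈ Hc, (2 : ℂ) / ((m + n : ℤ) : ℂ) * ((starRingEnd ℂ) (b n) * CS d k ph m n) := by
        symm
        apply Finset.sum_subset (Finset.filter_subset _ _)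
        intro n hn hn'
        have : ¬ (3 : ℤ) ∣ n - m := by
          intro h
          apply hn'
          refine Finset.mem_filter.2 ⟨hn, ?_⟩
          omega
        rw [CS_zero d k ph m n this, mul_zero, mul_zero]
      rw [e1]
      refine (norm_sum_le _ _).trans ?_
      rw [hT, Finset.mul_sum]
      refine Finset.sum_le_sum fun n hn => ?_
      have hn1 := hH n (Finset.mem_filter.1 hn).1
      have := far_ent d k ph s E hs hE M m n e he (by rcases he with rfl | rfl <;> omega)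
        (by rcases he with rfl | rfl <;> omega) (by rcases he with rfl | rfl <;> omega)
      calc ‖(2 : ℂ) / ((m + n : ℤ) : ℂ) * ((starRingEnd ℂ) (b n) * CS d k ph m n)‖
          = ‖b n‖ * ‖(2 : ℂ) / ((m + n : ℤ) : ℂ) * CS d k ph m n‖ := by
            rw [norm_mul, norm_mul, norm_mul, Complex.norm_conj]
            ring
        _ ≤ ‖b n‖ * (2 * (q ^ m.natAbs * xw g M (e * n))) :=
            mul_le_mul_of_nonneg_left this (norm_nonneg _)
        _ = 2 * q ^ m.natAbs * (xw g M (e * n) * ‖b n‖) := by ring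
    have hT0 : 0 ≤ T := Finset.sum_nonneg fun n hn =>
      mul_nonneg (hxp e he n (Finset.mem_filter.1 hn).1) (norm_nonneg _)
    have h1 : ∑ m ∈ G, ‖∑ n ∈ H, (2 : ℂ) / ((m + n : ℤ) : ℂ) *
        ((starRingEnd ℂ) (b n) * CS d k ph m n)‖ ^ 2 ≤ 4 * T ^ 2 * ∑ m ∈ G, (q ^ 2) ^ m.natAbs := by
      rw [Finset.mul_sum]
      refine Finset.sum_le_sum fun m hm => ?_
      refine (pow_le_pow_left₀ (norm_nonneg _) (hrow m hm) 2).trans (le_of_eq ?_)
      rw [← pow_mul, mul_comm 2 m.natAbs, pow_mul]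
      ring
    have h2 : ∑ m ∈ G, (q ^ 2) ^ m.natAbs ≤ (q ^ 2) ^ M / (1 - (q ^ 2) ^ 3) := by
      have hinj : Set.InjOn (fun m : ℤ => m.natAbs) (G : Set ℤ) := by
        intro x hx y hy hxy
        have hx' := (hGm x (Finset.mem_coe.1 hx)).2.1
        have hy' := (hGm y (Finset.mem_coe.1 hy)).2.1
        have hxy' : x.natAbs = y.natAbs := hxy
        rcases he with rfl | rfl <;> omega
      rw [← Finset.sum_image (f := fun k : ℕ => (q ^ 2) ^ k) hinj]
      apply geo_three (q ^ 2) (by positivity) hq2 M ((e * c).emod 3).toNat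
      · intro u hu
        obtain ⟨m, hm, rfl⟩ := Finset.mem_image.1 hu
        exact hF m (hGm m hm).1
      · intro u hu
        obtain ⟨m, hm, rfl⟩ := Finset.mem_image.1 hu
        obtain ⟨hm1, hm2, hm3⟩ := hGm m hm
        show m.natAbs % 3 = ((e * c) % 3).toNat
        rcases he with rfl | rfl <;> omega
    have h3 : T ^ 2 ≤ X * ∑ n ∈ Hc, xw g M (e * n) * ‖b n‖ ^ 2 := by
      have hcs := Finset.sum_mul_sq_le_sq_mul_sq Hc (fun n => Real.sqrt (xw g M (e * n)))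
        (fun n => Real.sqrt (xw g M (e * n)) * ‖b n‖)
      have e1 : ∑ n ∈ Hc, Real.sqrt (xw g M (e * n)) * (Real.sqrt (xw g M (e * n)) * ‖b n‖) = T := by
        refine Finset.sum_congr rfl fun n hn => ?_
        rw [← mul_assoc, Real.mul_self_sqrt (hxp e he n (Finset.mem_filter.1 hn).1)]
      have e2 : ∑ n ∈ Hc, Real.sqrt (xw g M (e * n)) ^ 2 = ∑ n ∈ Hc, xw g M (e * n) :=
        Finset.sum_congr rfl fun n hn => Real.sq_sqrt (hxp e he n (Finset.mem_filter.1 hn).1)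
      have e3 : ∑ n ∈ Hc, (Real.sqrt (xw g M (e * n)) * ‖b n‖) ^ 2 =
          ∑ n ∈ Hc, xw g M (e * n) * ‖b n‖ ^ 2 :=
        Finset.sum_congr rfl fun n hn => by
          rw [mul_pow, Real.sq_sqrt (hxp e he n (Finset.mem_filter.1 hn).1)]
      rw [e1, e2, e3] at hcs
      refine hcs.trans (mul_le_mul_of_nonneg_right (hX e he c) ?_)
      exact Finset.sum_nonneg fun n hn =>
        mul_nonneg (hxp e he n (Finset.mem_filter.1 hn).1) (sq_nonneg _)
    refine h1.trans ?_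
    have e5 : (q ^ 2) ^ M / (1 - (q ^ 2) ^ 3) = q ^ (2 * M) / (1 - q ^ 6) := by
      rw [← pow_mul, ← pow_mul]
    rw [e5] at h2
    calc 4 * T ^ 2 * ∑ m ∈ G, (q ^ 2) ^ m.natAbs ≤ 4 * T ^ 2 * (q ^ (2 * M) / (1 - q ^ 6)) := by
          apply mul_le_mul_of_nonneg_left h2
          positivity
      _ = C * T ^ 2 := by rw [hC]; ring
      _ ≤ _ := mul_le_mul_of_nonneg_left h3 hC0
  -- one sign
  have key2 : ∀ e : ℤ, e = 1 ∨ e = -1 → ∑ m ∈ F.filter (fun m => 0 < e * m),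
        ‖∑ n ∈ H, (2 : ℂ) / ((m + n : ℤ) : ℂ) * ((starRingEnd ℂ) (b n) * CS d k ph m n)‖ ^ 2 ≤
      C * (X * ∑ n ∈ H, xw g M (e * n) * ‖b n‖ ^ 2) := by
    intro e he
    have hmap : ∀ m ∈ F.filter (fun m => 0 < e * m), m % 3 ∈ ({0, 1, 2} : Finset ℤ) := by
      intro m _
      simp only [Finset.mem_insert, Finset.mem_singleton]
      omega
    have hmap2 : ∀ n ∈ H, n % 3 ∈ ({0, 1, 2} : Finset ℤ) := by
      intro m _
      simp only [Finset.mem_insert, Finset.mem_singleton]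
      omega
    rw [← Finset.sum_fiberwise_of_maps_to hmap, ← Finset.sum_fiberwise_of_maps_to hmap2
      (fun n => xw g M (e * n) * ‖b n‖ ^ 2), Finset.mul_sum, Finset.mul_sum]
    exact Finset.sum_le_sum fun c _ => key e he c
  have hsplit : ∑ m ∈ F, ‖∑ n ∈ H, (2 : ℂ) / ((m + n : ℤ) : ℂ) *
      ((starRingEnd ℂ) (b n) * CS d k ph m n)‖ ^ 2 =
      ∑ m ∈ F.filter (fun m => 0 < 1 * m), ‖∑ n ∈ H, (2 : ℂ) / ((m + n : ℤ) : ℂ) *
        ((starRingEnd ℂ) (b n) * CS d k ph m n)‖ ^ 2 +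
      ∑ m ∈ F.filter (fun m => 0 < -1 * m), ‖∑ n ∈ H, (2 : ℂ) / ((m + n : ℤ) : ℂ) *
        ((starRingEnd ℂ) (b n) * CS d k ph m n)‖ ^ 2 := by
    rw [← Finset.sum_filter_add_sum_filter_not F (fun m => 0 < 1 * m)]
    congr 1
    refine Finset.sum_congr (Finset.filter_congr fun m hm => ?_) fun _ _ => rfl
    have := hF m hm
    omega
  rw [hsplit]
  have k1 := key2 1 (Or.inl rfl)
  have k2 := key2 (-1) (Or.inr rfl)
  have e9 : C * (X * ∑ n ∈ H, (xw g M n + xw g M (-n)) * ‖b n‖ ^ 2) =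
      C * (X * ∑ n ∈ H, xw g M (1 * n) * ‖b n‖ ^ 2) + C * (X * ∑ n ∈ H, xw g M (-1 * n) * ‖b n‖ ^ 2) := by
    simp_rw [one_mul, neg_one_mul, add_mul, Finset.sum_add_distrib]
    ring
  rw [e9]
  exact add_le_add k1 k2

end Pool.Agent.Helper20.SH
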