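import Pool.Agent.Helper20.SH.Far2
import Pool.Agent.Helper95.SH.Head

/-!
# Project RC, SHARP, zone II: the far rows of `NF` in the contract of the head/tail theorem

`gNA_far`, `gNB_far`: the rows of `NF_ht` beyond the head in the form of `far_rows`. `xw_class`: the class sums in closed
form. `wm_far`, `sy_far`: the band operator and the hermitian part.
-/

set_option autoImplicit false

open MeasureTheory Set Filter Topology

namespace Pool.Agent.Helper20.SH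

open Helper49.LT hiding sg
open Helper49.RC (om)
open Pool.Agent.Helper99.RC
open Helper95.RC
open Helper95.SH (gNA gNB wm sy)

/-- class sums of the weights, closed form -/
theorem xw_class (g : ℝ) (M K : ℕ) (hKM : K < M) (hg : 1 + 1 / ((M : ℝ) - K) < g) (e : ℤ)
    (he : e = 1 ∨ e = -1) (c : ℤ) :
    ∑ n ∈ (Finset.Icc (-(K : ℤ)) K).filter (fun n => n % 3 = c), xw g M (e * n) ≤
      g ^ K / (((M : ℝ) + K) * (1 - ((1 + 1 / ((M : ℝ) - K)) / g) ^ 3)) := by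
  have hMK : (0 : ℝ) < (M : ℝ) - K := by
    have : (K : ℝ) < M := by exact_mod_cast hKM
    linarith
  have hMK' : (0 : ℝ) < (M : ℝ) + K := by
    have : (0 : ℝ) ≤ K := Nat.cast_nonneg K
    linarith
  set a := 1 + 1 / ((M : ℝ) - K) with ha
  have ha1 : 1 ≤ a := by
    have : 0 ≤ 1 / ((M : ℝ) - K) := by positivity
    linarith
  have hg0 : 0 < g := by linarith
  set q := a / g with hq
  have hq0 : 0 ≤ q := by positivity
  have hq1 : q < 1 := by rw [hq, div_lt_one hg0]; exact hg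
  have hq3 : q ^ 3 < 1 := pow_lt_one₀ hq0 hq1 (by norm_num)
  set S := (Finset.Icc (-(K : ℤ)) K).filter (fun n => n % 3 = c) with hS
  have hSm : ∀ n ∈ S, -(K : ℤ) ≤ n ∧ n ≤ K ∧ n % 3 = c := by
    intro n hn
    have h1 := Finset.mem_filter.1 hn
    have h2 := Finset.mem_Icc.1 h1.1
    exact ⟨h2.1, h2.2, h1.2⟩
  have h1 : ∀ n ∈ S, xw g M (e * n) ≤ g ^ K / ((M : ℝ) + K) * q ^ ((K : ℤ) - e * n).toNat := by
    intro n hn
    obtain ⟨n1, n2, _⟩ := hSm n hn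
    obtain ⟨u, hu⟩ : ∃ u : ℕ, (K : ℤ) - e * n = u := by
      refine ⟨((K : ℤ) - e * n).toNat, ?_⟩
      rcases he with rfl | rfl <;> omega
    have hu2 : e * n = (K : ℤ) - u := by omega
    have hu3 : u ≤ 2 * K := by
      rcases he with rfl | rfl <;> omega
    rw [hu, Int.toNat_natCast]
    unfold xw
    rw [hu2, zpow_sub₀ hg0.ne', zpow_natCast, zpow_natCast]
    have hden : (0 : ℝ) < (M : ℝ) + (((K : ℤ) - u : ℤ) : ℝ) := by
      have : (0 : ℤ) < (M : ℤ) + ((K : ℤ) - u) := by omega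
      exact_mod_cast this
    have hden2 : (M : ℝ) - K ≤ (M : ℝ) + (((K : ℤ) - u : ℤ) : ℝ) := by
      push_cast
      have : (u : ℝ) ≤ 2 * K := by exact_mod_cast hu3
      linarith
    have hb : 1 + (u : ℝ) * (1 / ((M : ℝ) - K)) ≤ a ^ u := by
      rw [ha]
      exact one_add_mul_le_pow (by
        have : 0 ≤ 1 / ((M : ℝ) - K) := by positivity
        linarith) u
    have hb2 : ((M : ℝ) + K) / ((M : ℝ) + (((K : ℤ) - u : ℤ) : ℝ)) ≤ a ^ u := by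
      refine le_trans ?_ hb
      rw [div_le_iff₀ hden]
      have e1 : (M : ℝ) + K = ((M : ℝ) + (((K : ℤ) - u : ℤ) : ℝ)) + u := by
        push_cast
        ring
      have e2 : (u : ℝ) ≤ (u : ℝ) * (1 / ((M : ℝ) - K)) * ((M : ℝ) + (((K : ℤ) - u : ℤ) : ℝ)) := by
        have : 1 ≤ 1 / ((M : ℝ) - K) * ((M : ℝ) + (((K : ℤ) - u : ℤ) : ℝ)) := by
          rw [one_div, inv_mul_eq_div, le_div_iff₀ hMK, one_mul]
          exact hden2
        have hu0 : (0 : ℝ) ≤ u := Nat.cast_nonneg u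
        nlinarith
      calc (M : ℝ) + K = ((M : ℝ) + (((K : ℤ) - u : ℤ) : ℝ)) + u := e1
        _ ≤ ((M : ℝ) + (((K : ℤ) - u : ℤ) : ℝ)) +
            (u : ℝ) * (1 / ((M : ℝ) - K)) * ((M : ℝ) + (((K : ℤ) - u : ℤ) : ℝ)) := by linarith
        _ = _ := by ring
    have e3 : g ^ K / g ^ u / ((M : ℝ) + (((K : ℤ) - u : ℤ) : ℝ)) =
        g ^ K / ((M : ℝ) + K) * ((((M : ℝ) + K) / ((M : ℝ) + (((K : ℤ) - u : ℤ) : ℝ))) / g ^ u) := by
      field_simp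
    rw [e3, hq, div_pow]
    apply mul_le_mul_of_nonneg_left _ (by positivity)
    gcongr
  refine (Finset.sum_le_sum h1).trans ?_
  rw [← Finset.mul_sum]
  have hinj : Set.InjOn (fun n : ℤ => ((K : ℤ) - e * n).toNat) (S : Set ℤ) := by
    intro x hx y hy hxy
    have hx' := hSm x (Finset.mem_coe.1 hx)
    have hy' := hSm y (Finset.mem_coe.1 hy)
    have hxy' : ((K : ℤ) - e * x).toNat = ((K : ℤ) - e * y).toNat := hxy
    rcases he with rfl | rfl <;> omega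
  have h2 : ∑ n ∈ S, q ^ ((K : ℤ) - e * n).toNat ≤ q ^ 0 / (1 - q ^ 3) := by
    rw [← Finset.sum_image (f := fun k : ℕ => q ^ k) hinj]
    apply geo_three q hq0 hq1 0 (((K : ℤ) - e * c) % 3).toNat
    · intro u _
      exact Nat.zero_le u
    · intro u hu
      obtain ⟨n, hn, rfl⟩ := Finset.mem_image.1 hu
      obtain ⟨n1, n2, n3⟩ := hSm n hn
      show ((K : ℤ) - e * n).toNat % 3 = (((K : ℤ) - e * c) % 3).toNat
      rcases he with rfl | rfl <;> omega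
  calc g ^ K / ((M : ℝ) + K) * ∑ n ∈ S, q ^ ((K : ℤ) - e * n).toNat
      ≤ g ^ K / ((M : ℝ) + K) * (q ^ 0 / (1 - q ^ 3)) := by
        apply mul_le_mul_of_nonneg_left h2
        positivity
    _ = g ^ K / (((M : ℝ) + K) * (1 - q ^ 3)) := by
        rw [pow_zero, div_mul_div_comm, mul_one]

/-- the row of the first kind beyond the head -/
theorem gNA_far (d k ph : ℝ) (N K : ℕ) (hKN : K ≤ N) (a b : ℤ → ℂ) (ha : Sup K a) (hb : Sup K b) (m : ℤ)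
    (hm : K < m.natAbs) :
    ‖gNA (ps d k ph) N a b m‖ = ‖∑ n ∈ Finset.Icc (-(K : ℤ)) K,
      (2 : ℂ) / ((m + n : ℤ) : ℂ) * ((starRingEnd ℂ) (b n) * CS d k ph m n)‖ := by
  have hm' : m ∉ Finset.Icc (-(K : ℤ)) K := by
    rw [Finset.mem_Icc]
    omega
  unfold gNA
  rw [ha m hm', hb m hm', add_zero, zero_div, zero_sub, norm_neg, norm_mul, Complex.norm_I, one_mul]
  have h1 : ∑ n ∈ Finset.Icc (-(N : ℤ)) N, b n * (starRingEnd ℂ) (Kc (ps d k ph) m n) =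
      ∑ n ∈ Finset.Icc (-(K : ℤ)) K, b n * (starRingEnd ℂ) (Kc (ps d k ph) m n) := by
    symm
    apply Finset.sum_subset
    · intro n hn
      rw [Finset.mem_Icc] at hn ⊢
      omega
    · intro n _ hn
      rw [hb n hn, zero_mul]
  rw [h1, ← Complex.norm_conj, map_sum]
  have h2 : ∑ n ∈ Finset.Icc (-(K : ℤ)) K, (starRingEnd ℂ) (b n * (starRingEnd ℂ) (Kc (ps d k ph) m n)) =
      -Complex.I * ∑ n ∈ Finset.Icc (-(K : ℤ)) K,
        (2 : ℂ) / ((m + n : ℤ) : ℂ) * ((starRingEnd ℂ) (b n) * CS d k ph m n) := by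
    rw [Finset.mul_sum]
    refine Finset.sum_congr rfl fun n hn => ?_
    rw [Finset.mem_Icc] at hn
    have h3 : m + n ≠ 0 := by omega
    have h4 : m ≠ n := by omega
    have h5 : ((m + n : ℤ) : ℂ) ≠ 0 := by exact_mod_cast h3
    rw [map_mul, Complex.conj_conj, Kc_off d k ph h3, if_neg h4, sub_zero]
    have hI : (2 : ℂ) / (Complex.I * ((m + n : ℤ) : ℂ)) = -Complex.I * (2 / ((m + n : ℤ) : ℂ)) := by
      rw [div_mul_eq_div_div, Complex.div_I]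
      ring
    rw [hI]
    ring
  rw [h2, norm_mul, norm_neg, Complex.norm_I, one_mul]

/-- the row of the second kind beyond the head -/
theorem gNB_far (d k ph : ℝ) (N K : ℕ) (hKN : K ≤ N) (a b : ℤ → ℂ) (ha : Sup K a) (hb : Sup K b) (m : ℤ)
    (hm : K < m.natAbs) :
    ‖gNB (ps d k ph) N a b m‖ = ‖∑ n ∈ Finset.Icc (-(K : ℤ)) K,
      (2 : ℂ) / ((m + n : ℤ) : ℂ) *
        ((starRingEnd ℂ) ((starRingEnd ℂ) (a n)) * CS d (-k) (-ph) m n)‖ := by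
  have hm' : m ∉ Finset.Icc (-(K : ℤ)) K := by
    rw [Finset.mem_Icc]
    omega
  unfold gNB
  rw [ha m hm', hb m hm', add_zero, zero_div, zero_add, norm_mul, Complex.norm_I, one_mul]
  have h1 : ∑ n ∈ Finset.Icc (-(N : ℤ)) N, a n * Kc (ps d k ph) n m =
      ∑ n ∈ Finset.Icc (-(K : ℤ)) K, a n * Kc (ps d k ph) n m := by
    symm
    apply Finset.sum_subset
    · intro n hn
      rw [Finset.mem_Icc] at hn ⊢
      omega
    · intro n _ hn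
      rw [ha n hn, zero_mul]
  rw [h1]
  have h2 : ∑ n ∈ Finset.Icc (-(K : ℤ)) K, a n * Kc (ps d k ph) n m =
      -Complex.I * ∑ n ∈ Finset.Icc (-(K : ℤ)) K,
        (2 : ℂ) / ((m + n : ℤ) : ℂ) * ((starRingEnd ℂ) ((starRingEnd ℂ) (a n)) * CS d (-k) (-ph) m n) := by
    rw [Finset.mul_sum]
    refine Finset.sum_congr rfl fun n hn => ?_
    rw [Finset.mem_Icc] at hn
    have h3 : n + m ≠ 0 := by omega
    have h4 : n ≠ m := by omega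
    rw [Complex.conj_conj, Kc_off d k ph h3, if_neg h4, sub_zero, CS_swap d k ph m n]
    have hI : (2 : ℂ) / (Complex.I * ((n + m : ℤ) : ℂ)) = -Complex.I * (2 / ((m + n : ℤ) : ℂ)) := by
      rw [div_mul_eq_div_div, Complex.div_I, add_comm n m]
      ring
    rw [hI]
    ring
  rw [h2, norm_mul, norm_neg, Complex.norm_I, one_mul]

/-- the constant of the far rows -/
noncomputable def CF (s E : ℝ) (M K : ℕ) : ℝ :=
  4 * ((E / s) ^ (2 * M) / (1 - (E / s) ^ 6)) *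
    ((E * s) ^ K / (((M : ℝ) + K) * (1 - ((1 + 1 / ((M : ℝ) - K)) / (E * s)) ^ 3)))

/-- the weight of a column, both signs -/
noncomputable def xx (g : ℝ) (M : ℕ) (n : ℤ) : ℝ := xw g M n + xw g M (-n)

theorem far_base (d k ph s E : ℝ) (hs : 1 ≤ s)
    (hE : Real.exp (|k| * (s ^ 3 - (s ^ 3)⁻¹) / 4) ≤ E) (hEs : E < s) (M K : ℕ) (hKM : K < M)
    (hg : 1 + 1 / ((M : ℝ) - K) < E * s) (F : Finset ℤ) (hF : ∀ m ∈ F, M ≤ m.natAbs) (b : ℤ → ℂ) :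
    ∑ m ∈ F, ‖∑ n ∈ Finset.Icc (-(K : ℤ)) K, (2 : ℂ) / ((m + n : ℤ) : ℂ) *
        ((starRingEnd ℂ) (b n) * CS d k ph m n)‖ ^ 2 ≤
      CF s E M K * ∑ n ∈ Finset.Icc (-(K : ℤ)) K, xx (E * s) M n * ‖b n‖ ^ 2 := by
  have h := far_rows d k ph s E hs hE hEs M K hKM F (Finset.Icc (-(K : ℤ)) K) hF
    (fun n hn => by rw [Finset.mem_Icc] at hn; omega) b _ (fun e he c => xw_class (E * s) M K hKM hg e he c)
  refine h.trans (le_of_eq ?_)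
  unfold CF xx
  ring

/-- **far rows of the first kind** -/
theorem far_GA (d k ph s E : ℝ) (hs : 1 ≤ s)
    (hE : Real.exp (|k| * (s ^ 3 - (s ^ 3)⁻¹) / 4) ≤ E) (hEs : E < s) (M K N : ℕ) (hKM : K < M) (hKN : K ≤ N)
    (hg : 1 + 1 / ((M : ℝ) - K) < E * s) (a b : ℤ → ℂ) (ha : Sup K a) (hb : Sup K b) (F : Finset ℤ)
    (hF : ∀ m ∈ F, M ≤ m.natAbs) :
    ∑ m ∈ F, ‖gNA (ps d k ph) N a b m‖ ^ 2 ≤
      CF s E M K * ∑ n ∈ Finset.Icc (-(K : ℤ)) K, xx (E * s) M n * ‖b n‖ ^ 2 := by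
  refine le_trans (le_of_eq ?_) (far_base d k ph s E hs hE hEs M K hKM hg F hF b)
  refine Finset.sum_congr rfl fun m hm => ?_
  rw [gNA_far d k ph N K hKN a b ha hb m (hKM.trans_le (hF m hm))]

/-- **far rows of the second kind** -/
theorem far_GB (d k ph s E : ℝ) (hs : 1 ≤ s)
    (hE : Real.exp (|k| * (s ^ 3 - (s ^ 3)⁻¹) / 4) ≤ E) (hEs : E < s) (M K N : ℕ) (hKM : K < M) (hKN : K ≤ N)
    (hg : 1 + 1 / ((M : ℝ) - K) < E * s) (a b : ℤ → ℂ) (ha : Sup K a) (hb : Sup K b) (F : Finset ℤ)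
    (hF : ∀ m ∈ F, M ≤ m.natAbs) :
    ∑ m ∈ F, ‖gNB (ps d k ph) N a b m‖ ^ 2 ≤
      CF s E M K * ∑ n ∈ Finset.Icc (-(K : ℤ)) K, xx (E * s) M n * ‖a n‖ ^ 2 := by
  have h := far_base d (-k) (-ph) s E hs (by rwa [abs_neg]) hEs M K hKM hg F hF
    (fun n => (starRingEnd ℂ) (a n))
  simp_rw [Complex.norm_conj] at h
  refine le_trans (le_of_eq ?_) h
  refine Finset.sum_congr rfl fun m hm => ?_
  rw [gNB_far d k ph N K hKN a b ha hb m (hKM.trans_le (hF m hm))]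

/-! ### the band operator and the hermitian part -/

/-- the band operator, pointwise -/
theorem wm_nsq (η : ℂ) (f : ℤ → ℂ) (n : ℤ) :
    ‖wm η f n‖ ^ 2 ≤ (1 + 2 * ‖η‖) * (‖f n‖ ^ 2 + ‖η‖ * (‖f (n - 2)‖ ^ 2 + ‖f (n + 2)‖ ^ 2)) := by
  have h1 : ‖wm η f n‖ ≤ ‖f n‖ + ‖η‖ * ‖f (n - 2)‖ + ‖η‖ * ‖f (n + 2)‖ := by
    unfold wm
    refine (norm_add_le _ _).trans (add_le_add ((norm_add_le _ _).trans (add_le_add le_rfl ?_)) ?_)
    · rw [norm_mul]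
    · rw [norm_mul, Complex.norm_conj]
  have h2 := pow_le_pow_left₀ (norm_nonneg _) h1 2
  refine h2.trans ?_
  set x := ‖f n‖
  set y := ‖f (n - 2)‖
  set z := ‖f (n + 2)‖
  set t := ‖η‖ with ht
  have ht0 : 0 ≤ t := norm_nonneg η
  nlinarith [mul_nonneg ht0 (sq_nonneg (x - y)), mul_nonneg ht0 (sq_nonneg (x - z)),
    mul_nonneg (mul_nonneg ht0 ht0) (sq_nonneg (y - z))]

/-- the band operator beyond a window -/
theorem wm_far (η : ℂ) (f : ℤ → ℂ) (M : ℕ) (D : ℝ)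
    (hD : ∀ G : Finset ℤ, (∀ m ∈ G, M ≤ m.natAbs) → ∑ m ∈ G, ‖f m‖ ^ 2 ≤ D) (F : Finset ℤ)
    (hF : ∀ n ∈ F, M + 2 ≤ n.natAbs) : ∑ n ∈ F, ‖wm η f n‖ ^ 2 ≤ (1 + 2 * ‖η‖) ^ 2 * D := by
  have ht0 : 0 ≤ ‖η‖ := norm_nonneg η
  have h1 := hD F (fun m hm => by have := hF m hm; omega)
  have h2 : ∑ n ∈ F, ‖f (n - 2)‖ ^ 2 ≤ D := by
    have := hD (F.image fun n => n - 2) (fun m hm => by
      obtain ⟨n, hn, rfl⟩ := Finset.mem_image.1 hm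
      have := hF n hn
      omega)
    rw [Finset.sum_image (fun x _ y _ h => by omega)] at this
    exact this
  have h3 : ∑ n ∈ F, ‖f (n + 2)‖ ^ 2 ≤ D := by
    have := hD (F.image fun n => n + 2) (fun m hm => by
      obtain ⟨n, hn, rfl⟩ := Finset.mem_image.1 hm
      have := hF n hn
      omega)
    rw [Finset.sum_image (fun x _ y _ h => by omega)] at this
    exact this
  calc ∑ n ∈ F, ‖wm η f n‖ ^ 2
      ≤ ∑ n ∈ F, (1 + 2 * ‖η‖) * (‖f n‖ ^ 2 + ‖η‖ * (‖f (n - 2)‖ ^ 2 + ‖f (n + 2)‖ ^ 2)) :=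
        Finset.sum_le_sum fun n _ => wm_nsq η f n
    _ = (1 + 2 * ‖η‖) * (∑ n ∈ F, ‖f n‖ ^ 2 + ‖η‖ * (∑ n ∈ F, ‖f (n - 2)‖ ^ 2 + ∑ n ∈ F, ‖f (n + 2)‖ ^ 2)) := by
        rw [← Finset.mul_sum, Finset.sum_add_distrib, ← Finset.mul_sum, Finset.sum_add_distrib]
    _ ≤ (1 + 2 * ‖η‖) * (D + ‖η‖ * (D + D)) := by
        gcongr
    _ = (1 + 2 * ‖η‖) ^ 2 * D := by ring

/-- the hermitian part beyond a window -/
theorem sy_far (f : ℤ → ℂ) (M : ℕ) (D : ℝ)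
    (hD : ∀ G : Finset ℤ, (∀ m ∈ G, M ≤ m.natAbs) → ∑ m ∈ G, ‖f m‖ ^ 2 ≤ D) (F : Finset ℤ)
    (hF : ∀ n ∈ F, M ≤ n.natAbs) : ∑ n ∈ F, ‖sy f n‖ ^ 2 ≤ D := by
  have h1 := hD F hF
  have h2 : ∑ n ∈ F, ‖f (-n)‖ ^ 2 ≤ D := by
    have := hD (F.image fun n => -n) (fun m hm => by
      obtain ⟨n, hn, rfl⟩ := Finset.mem_image.1 hm
      have := hF n hn
      omega)
    rw [Finset.sum_image (fun x _ y _ h => by omega)] at this
    exact this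
  have h3 : ∀ n, ‖sy f n‖ ^ 2 ≤ (‖f n‖ ^ 2 + ‖f (-n)‖ ^ 2) / 2 := by
    intro n
    unfold sy
    rw [norm_div, div_pow, Complex.norm_ofNat]
    have h4 : ‖f n + (starRingEnd ℂ) (f (-n))‖ ≤ ‖f n‖ + ‖f (-n)‖ := by
      refine (norm_add_le _ _).trans ?_
      rw [Complex.norm_conj]
    have h5 := pow_le_pow_left₀ (norm_nonneg _) h4 2
    nlinarith [sq_nonneg (‖f n‖ - ‖f (-n)‖)]
  calc ∑ n ∈ F, ‖sy f n‖ ^ 2 ≤ ∑ n ∈ F, (‖f n‖ ^ 2 + ‖f (-n)‖ ^ 2) / 2 := Finset.sum_le_sum fun n _ => h3 n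
    _ = (∑ n ∈ F, ‖f n‖ ^ 2 + ∑ n ∈ F, ‖f (-n)‖ ^ 2) / 2 := by
        rw [← Finset.sum_div, Finset.sum_add_distrib]
    _ ≤ D := by linarith

/-- the two families together, before the band operator -/
theorem two_far (A B : ℤ → ℂ) (x1 x2 : ℝ) (c1 c2 : ℂ) (M : ℕ) (DA DB : ℝ)
    (hA : ∀ G : Finset ℤ, (∀ m ∈ G, M ≤ m.natAbs) → ∑ m ∈ G, ‖A m‖ ^ 2 ≤ DA)
    (hB : ∀ G : Finset ℤ, (∀ m ∈ G, M ≤ m.natAbs) → ∑ m ∈ G, ‖B m‖ ^ 2 ≤ DB) (F : Finset ℤ)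
    (hF : ∀ n ∈ F, M + 1 ≤ n.natAbs) :
    ∑ n ∈ F, ‖c1 * (ee (((n + 1 : ℤ) : ℝ) * x1) * A (n + 1)) + c2 * (ee (((n + 1 : ℤ) : ℝ) * x2) * B (n + 1))‖ ^ 2 ≤
      2 * (‖c1‖ ^ 2 * DA + ‖c2‖ ^ 2 * DB) := by
  have h1 : ∀ f : ℤ → ℂ, ∀ D : ℝ, (∀ G : Finset ℤ, (∀ m ∈ G, M ≤ m.natAbs) → ∑ m ∈ G, ‖f m‖ ^ 2 ≤ D) →
      ∑ n ∈ F, ‖f (n + 1)‖ ^ 2 ≤ D := by
    intro f D hD
    have := hD (F.image fun n => n + 1) (fun m hm => by
      obtain ⟨n, hn, rfl⟩ := Finset.mem_image.1 hm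
      have := hF n hn
      omega)
    rw [Finset.sum_image (fun x _ y _ h => by omega)] at this
    exact this
  have h2 := h1 A DA hA
  have h3 := h1 B DB hB
  have h4 : ∀ n, ‖c1 * (ee (((n + 1 : ℤ) : ℝ) * x1) * A (n + 1)) +
      c2 * (ee (((n + 1 : ℤ) : ℝ) * x2) * B (n + 1))‖ ^ 2 ≤
      2 * (‖c1‖ ^ 2 * ‖A (n + 1)‖ ^ 2 + ‖c2‖ ^ 2 * ‖B (n + 1)‖ ^ 2) := by
    intro n
    have h5 : ‖c1 * (ee (((n + 1 : ℤ) : ℝ) * x1) * A (n + 1)) +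
      c2 * (ee (((n + 1 : ℤ) : ℝ) * x2) * B (n + 1))‖ ≤ ‖c1‖ * ‖A (n + 1)‖ + ‖c2‖ * ‖B (n + 1)‖ := by
      refine (norm_add_le _ _).trans (le_of_eq ?_)
      rw [norm_mul, norm_mul, norm_mul, norm_mul, norm_ee, norm_ee, one_mul, one_mul]
    have h6 := pow_le_pow_left₀ (norm_nonneg _) h5 2
    nlinarith [sq_nonneg (‖c1‖ * ‖A (n + 1)‖ - ‖c2‖ * ‖B (n + 1)‖)]
  calc _ ≤ ∑ n ∈ F, 2 * (‖c1‖ ^ 2 * ‖A (n + 1)‖ ^ 2 + ‖c2‖ ^ 2 * ‖B (n + 1)‖ ^ 2) :=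
        Finset.sum_le_sum fun n _ => h4 n
    _ = 2 * (‖c1‖ ^ 2 * ∑ n ∈ F, ‖A (n + 1)‖ ^ 2 + ‖c2‖ ^ 2 * ∑ n ∈ F, ‖B (n + 1)‖ ^ 2) := by
        rw [← Finset.mul_sum, Finset.sum_add_distrib, ← Finset.mul_sum, ← Finset.mul_sum]
    _ ≤ _ := by gcongr

end Pool.Agent.Helper20.SH
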