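import Pool.Agent.Helper20.SH.FarV

/-!
# Project RC, SHARP, zone II: the far rows `Y`, `Z` of `NF`, positive frequencies only
-/

set_option autoImplicit false

open MeasureTheory Set Filter Topology

namespace Pool.Agent.Helper20.SH

open Helper49.LT hiding sg
open Helper49.RC (om)
open Pool.Agent.Helper99.RC
open Helper95.RC
open Helper95.SH (gNA gNB wm sy gA gB C1 C2 Arr wm_odd CD sV hV pV rV bp br nt)
open Helper49.Sharp

theorem sy_neg (f : ℤ → ℂ) (n : ℤ) : sy f (-n) = (starRingEnd ℂ) (sy f n) := by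
  unfold sy
  rw [map_div₀, map_add, Complex.conj_conj, neg_neg, Complex.conj_ofNat, add_comm]

/-- a hermitian array: the positive half -/
theorem half_pos {f : ℤ → ℂ} (hf : ∀ n, f (-n) = (starRingEnd ℂ) (f n)) {M : ℕ} {D : ℝ}
    (hD : ∀ G : Finset ℤ, (∀ m ∈ G, M ≤ m.natAbs) → ∑ m ∈ G, ‖f m‖ ^ 2 ≤ D) (F : Finset ℤ)
    (h0 : ∀ n ∈ F, 0 < n) (hF : ∀ n ∈ F, M ≤ n.natAbs) : ∑ n ∈ F, ‖f n‖ ^ 2 ≤ D / 2 := by
  classical
  have h1 := hD (F ∪ F.image fun n => -n) (fun m hm => by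
    rcases Finset.mem_union.1 hm with h | h
    · exact hF m h
    · obtain ⟨n, hn, rfl⟩ := Finset.mem_image.1 h
      have := hF n hn
      omega)
  have hd : Disjoint F (F.image fun n => -n) := by
    rw [Finset.disjoint_left]
    intro n hn hn'
    obtain ⟨m, hm, h⟩ := Finset.mem_image.1 hn'
    have a := h0 n hn
    have b := h0 m hm
    have h' : -m = n := h
    omega
  rw [Finset.sum_union hd, Finset.sum_image (fun x _ y _ h => by
    have h' : -x = -y := h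
    omega)] at h1
  have h2 : ∑ n ∈ F, ‖f (-n)‖ ^ 2 = ∑ n ∈ F, ‖f n‖ ^ 2 :=
    Finset.sum_congr rfl fun n _ => by rw [hf, Complex.norm_conj]
  rw [h2] at h1
  linarith

namespace FD

variable {f : FD} {k : ℤ} {K L : ℕ} {c : CD} {d ph : ℝ}

/-- **rows `Y`, positive frequencies** -/
theorem farY2 (h : f.okF k K = true) (hps : c.P.ps = ps d ((k : ℝ) / 100000) ph)
    (he : ‖c.P.eta‖ ≤ (f.te : ℝ) / 100000) (hK : ¬ Even K) (hL : Even L) (hLK : L ≤ K) (v : ℕ → ℝ) (v0 : v 0 = 1)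
    (a : Arr K (pV K L v) (rV K L v) (sV K v)) (F : Finset ℤ) (h0 : ∀ n ∈ F, 0 < n)
    (hF : ∀ n ∈ F, f.M + 3 ≤ n.natAbs) :
    ∑ n ∈ F, ‖sy (wm c.P.eta (fun n => om * gA c K (pV K L v) (rV K L v) (sV K v) n
        + om ^ 2 * gB c K (pV K L v) (rV K L v) (sV K v) n)) n‖ ^ 2 ≤
      (∑ i ∈ Finset.range (nt K L), (f.dN K L i : ℝ) / 2 ^ f.S * v i ^ 2) / 2 :=
  half_pos (sy_neg _) (fun G hG => farY h hps he hK hL hLK v v0 a G hG) F h0 hF

/-- **rows `Z`, positive frequencies** -/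
theorem farZ2 (h : f.okF k K = true) (hps : c.P.ps = ps d ((k : ℝ) / 100000) ph)
    (he : ‖c.P.eta‖ ≤ (f.te : ℝ) / 100000) (hK : ¬ Even K) (hL : Even L) (hLK : L ≤ K) (v : ℕ → ℝ) (v0 : v 0 = 1)
    (a : Arr K (pV K L v) (rV K L v) (sV K v)) (F : Finset ℤ) (h0 : ∀ n ∈ F, 0 < n)
    (hF : ∀ n ∈ F, f.M + 3 ≤ n.natAbs) :
    ∑ n ∈ F, ‖sy (wm c.P.eta (fun n => (starRingEnd ℂ) (kq 2) * gA c K (pV K L v) (rV K L v) (sV K v) n
        + kq 2 * gB c K (pV K L v) (rV K L v) (sV K v) n)) n‖ ^ 2 ≤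
      49 / 32 * ∑ i ∈ Finset.range (nt K L), (f.dN K L i : ℝ) / 2 ^ f.S * v i ^ 2 := by
  refine (half_pos (sy_neg _) (fun G hG => farZ h hps he hK hL hLK v v0 a G hG) F h0 hF).trans (le_of_eq ?_)
  ring

end FD

end Pool.Agent.Helper20.SH
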