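import Pool.Agent.Helper20.SH.NFX
import Pool.Agent.Helper95.SH.Cell

/-!
# Project RC, SHARP, zone II: the far rows of `NF` as a diagonal form in the coordinates, natural numbers

`FD`: data (`s = sn / 1000`, `E = en / 100000`, `|eta| ≤ te / 100000`, rows `|m| ≥ M`, scale `2 ^ S`).
`okFar`: kernel check. `farX`, `farY`, `farZ`: the bounds, weights `dN`.
-/

set_option autoImplicit false

open MeasureTheory Set Filter Topology

namespace Pool.Agent.Helper20.SH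

open Helper49.LT hiding sg
open Helper49.RC (om)
open Pool.Agent.Helper99.RC
open Helper95.RC
open Helper95.SH (gNA gNB wm sy gA gB C1 C2 Arr wm_odd CD sV hV pV rV bp br nt)
open Helper49.Sharp

/-! ### powers rounded up -/

/-- `2 ^ S (a / b) ^ n`, rounded up -/
def pwU (S a b : ℕ) : ℕ → ℕ
  | 0 => 2 ^ S
  | n + 1 => pwU S a b n * a / b + 1

/-- division rounded up -/
theorem le_divU {x : ℝ} {a b : ℕ} (hb : 0 < b) (h : x ≤ (a : ℝ) / b) : x ≤ ((a / b + 1 : ℕ) : ℝ) := by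
  refine h.trans ?_
  have hb' : (0 : ℝ) < b := by exact_mod_cast hb
  rw [div_le_iff₀ hb']
  have h1 : a < (a / b + 1) * b := by
    have := Nat.lt_succ_iff.2 (le_refl (a / b))
    have h2 := Nat.div_add_mod a b
    have h3 := Nat.mod_lt a hb
    nlinarith
  exact_mod_cast h1.le

theorem pwU_le (S a b : ℕ) (hb : 0 < b) (n : ℕ) : 2 ^ S * ((a : ℝ) / b) ^ n ≤ (pwU S a b n : ℝ) := by
  induction n with
  | zero => simp [pwU]
  | succ n ih =>
    unfold pwU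
    refine le_divU hb ?_
    have h1 : 2 ^ S * ((a : ℝ) / b) ^ (n + 1) = (2 ^ S * ((a : ℝ) / b) ^ n) * (a / b) := by
      rw [pow_succ]
      ring
    rw [h1]
    push_cast
    rw [mul_div_assoc]
    exact mul_le_mul_of_nonneg_right ih (by positivity)

/-- the data -/
structure FD where
  sn : ℕ
  en : ℕ
  te : ℕ
  M : ℕ
  S : ℕ

namespace FD

variable (f : FD)

/-- the weight of a column, rounded up, times `2 ^ S` -/
def xxU (n : ℕ) : ℕ :=
  (pwU f.S (f.sn * f.en) 100000000 n / (f.M + n) + 1) + (pwU f.S 100000000 (f.sn * f.en) n / (f.M - n) + 1)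

/-- the weight of a coefficient -/
def xsU (l : ℤ) : ℕ :=
  (100000 + 2 * f.te) * (100000 * f.xxU (l + 1).natAbs + f.te * (f.xxU (l - 1).natAbs + f.xxU (l + 3).natAbs)) /
    10000000000 + 1

/-- numerator and denominator of the constant -/
def cn (K : ℕ) : ℕ := 16 * (100000 + 2 * f.te) ^ 2 * pwU f.S f.en (100 * f.sn) (2 * f.M) *
  pwU f.S (f.sn * f.en) 100000000 (K + 3) * (100 * f.sn) ^ 6 * ((f.M - (K + 3)) * (f.sn * f.en)) ^ 3
def cd (K : ℕ) : ℕ := 10000000000 * 2 ^ f.S * ((100 * f.sn) ^ 6 - f.en ^ 6) * (f.M + (K + 3)) *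
  (((f.M - (K + 3)) * (f.sn * f.en)) ^ 3 - ((f.M - (K + 3) + 1) * 100000000) ^ 3)
/-- the constant, rounded up, times `2 ^ S` -/
def cxU (K : ℕ) : ℕ := f.cn K / f.cd K + 1

/-- the weight of a coefficient in the far rows of `NF`, times `2 ^ S` -/
def wU (K : ℕ) (l : ℤ) : ℕ := f.cxU K * f.xsU l / 2 ^ f.S + 1

/-- numerator and denominator of the exponent -/
def en1 (k : ℤ) : ℕ := k.natAbs * (f.sn ^ 6 - 1000000000000000000)
def en2 : ℕ := 400000000000000 * f.sn ^ 3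

/-- the check -/
def okF (k : ℤ) (K : ℕ) : Bool :=
  decide (1000 ≤ f.sn) && decide (f.en < 100 * f.sn) && decide (K + 3 < f.M) &&
    decide ((f.M - (K + 3) + 1) * 100000000 < (f.M - (K + 3)) * (f.sn * f.en)) &&
    decide (f.en1 k ≤ f.en2) &&
    decide ((18 * f.en2 ^ 3 + 18 * f.en1 k * f.en2 ^ 2 + 9 * f.en1 k ^ 2 * f.en2 + 4 * f.en1 k ^ 3) * 100000 ≤
      18 * f.en2 ^ 3 * f.en)

/-- the diagonal weight of the coordinate `i`, times `2 ^ S` -/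
def dN (K L i : ℕ) : ℕ :=
  if i = 0 then 3 * f.wU K 0
  else if i < bp K then f.wU K (2 * ((i - 1) / 2 : ℕ) - (K : ℤ))
  else if i < br K L then
    if i = bp K then 3 * f.wU K 0
    else 3 * (f.wU K (2 * ((i - bp K + 1) / 2 : ℕ)) + f.wU K (-(2 * ((i - bp K + 1) / 2 : ℕ))))
  else
    if i = br K L then 10 * f.wU K 0
    else 10 * (f.wU K (2 * ((i - br K L + 1) / 2 : ℕ)) + f.wU K (-(2 * ((i - br K L + 1) / 2 : ℕ))))

end FD

/-- `exp x ≤ 1 + x + x² / 2 + 2 x³ / 9` on `[0, 1]` -/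
theorem exp_cub {x : ℝ} (h0 : 0 ≤ x) (h1 : x ≤ 1) : Real.exp x ≤ 1 + x + x ^ 2 / 2 + 2 * x ^ 3 / 9 := by
  have h := Real.exp_bound' h0 h1 (n := 3) (by norm_num)
  refine h.trans (le_of_eq ?_)
  simp [Finset.sum_range_succ, Nat.factorial]
  ring

theorem exp_key (a b e : ℕ) (h5 : a ≤ b) (hb : 0 < b)
    (h6 : (18 * b ^ 3 + 18 * a * b ^ 2 + 9 * a ^ 2 * b + 4 * a ^ 3) * 100000 ≤ 18 * b ^ 3 * e) :
    Real.exp ((a : ℝ) / b) ≤ (e : ℝ) / 100000 := by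
  have hb' : (0 : ℝ) < b := by exact_mod_cast hb
  have ha : (0 : ℝ) ≤ a := Nat.cast_nonneg a
  have h5' : (a : ℝ) ≤ b := by exact_mod_cast h5
  have hle : (a : ℝ) / b ≤ 1 := by rw [div_le_one hb']; exact h5'
  have h6' : (18 * (b : ℝ) ^ 3 + 18 * a * (b : ℝ) ^ 2 + 9 * (a : ℝ) ^ 2 * b + 4 * (a : ℝ) ^ 3) * 100000 ≤
      18 * (b : ℝ) ^ 3 * e := by exact_mod_cast h6
  refine (exp_cub (by positivity) hle).trans ?_
  rw [le_div_iff₀ (by norm_num)]
  have e : (1 + (a : ℝ) / b + ((a : ℝ) / b) ^ 2 / 2 + 2 * ((a : ℝ) / b) ^ 3 / 9) * 100000 =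
      (18 * (b : ℝ) ^ 3 + 18 * a * (b : ℝ) ^ 2 + 9 * (a : ℝ) ^ 2 * b + 4 * (a : ℝ) ^ 3) * 100000 / (18 * (b : ℝ) ^ 3) := by
    field_simp
    ring
  rw [e, div_le_iff₀ (by positivity)]
  linarith

namespace FD

variable {f : FD} {k : ℤ} {K : ℕ}

theorem okF_iff : f.okF k K = true ↔ (1000 ≤ f.sn ∧ f.en < 100 * f.sn ∧ K + 3 < f.M ∧
    (f.M - (K + 3) + 1) * 100000000 < (f.M - (K + 3)) * (f.sn * f.en) ∧ f.en1 k ≤ f.en2 ∧
    (18 * f.en2 ^ 3 + 18 * f.en1 k * f.en2 ^ 2 + 9 * f.en1 k ^ 2 * f.en2 + 4 * f.en1 k ^ 3) * 100000 ≤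
      18 * f.en2 ^ 3 * f.en) := by
  unfold okF
  simp only [Bool.and_eq_true, decide_eq_true_eq, and_assoc]

/-- soundness: the numbers are admissible -/
theorem farP (h : f.okF k K = true) : FarP ((k : ℝ) / 100000) ((f.sn : ℝ) / 1000) ((f.en : ℝ) / 100000) f.M K := by
  obtain ⟨h1, h2, h3, h4, h5, h6⟩ := okF_iff.1 h
  have hs : (1000 : ℝ) ≤ f.sn := by exact_mod_cast h1
  have hs0 : (0 : ℝ) < f.sn := by linarith
  have hE2 : (f.en : ℝ) < 100 * f.sn := by exact_mod_cast h2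
  have hx2 : ((f.en2 : ℕ) : ℝ) = 400000000000000 * (f.sn : ℝ) ^ 3 := by
    unfold en2
    push_cast
    ring
  have hx20 : (0 : ℝ) < ((f.en2 : ℕ) : ℝ) := by
    rw [hx2]
    positivity
  have h6s : (1000000000000000000 : ℕ) ≤ f.sn ^ 6 := by
    calc (1000000000000000000 : ℕ) = 1000 ^ 6 := by norm_num
      _ ≤ f.sn ^ 6 := Nat.pow_le_pow_left h1 6
  have hx1 : ((f.en1 k : ℕ) : ℝ) = |(k : ℝ)| * ((f.sn : ℝ) ^ 6 - 1000000000000000000) := by
    unfold en1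
    rw [Nat.cast_mul, Nat.cast_sub h6s, Nat.cast_natAbs]
    push_cast
    ring
  have hx : |(k : ℝ) / 100000| * (((f.sn : ℝ) / 1000) ^ 3 - (((f.sn : ℝ) / 1000) ^ 3)⁻¹) / 4 =
      ((f.en1 k : ℕ) : ℝ) / ((f.en2 : ℕ) : ℝ) := by
    rw [hx1, hx2, abs_div, abs_of_pos (by norm_num : (0 : ℝ) < 100000)]
    field_simp
    ring
  have hexp : Real.exp (((f.en1 k : ℕ) : ℝ) / ((f.en2 : ℕ) : ℝ)) ≤ (f.en : ℝ) / 100000 := by
    refine exp_key _ _ _ h5 ?_ h6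
    exact Nat.cast_pos.1 hx20
  refine ⟨?_, ?_, ?_, h3, ?_⟩
  · rw [le_div_iff₀ (by norm_num)]
    linarith
  · rw [hx]
    exact hexp
  · rw [div_lt_div_iff₀ (by norm_num) (by norm_num)]
    linarith
  · have m0 : (0 : ℝ) < ((f.M - (K + 3) : ℕ) : ℝ) := by
      have : 0 < f.M - (K + 3) := by omega
      exact_mod_cast this
    have m1 : ((f.M - (K + 3) : ℕ) : ℝ) = (f.M : ℝ) - (K + 3 : ℕ) := by
      rw [Nat.cast_sub h3.le]
    have h4' : (((f.M - (K + 3) : ℕ) : ℝ) + 1) * 100000000 < ((f.M - (K + 3) : ℕ) : ℝ) * (f.sn * f.en) := by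
      exact_mod_cast h4
    rw [← m1]
    have e1 : 1 + 1 / ((f.M - (K + 3) : ℕ) : ℝ) = (((f.M - (K + 3) : ℕ) : ℝ) + 1) / ((f.M - (K + 3) : ℕ) : ℝ) := by
      field_simp
    rw [e1, div_lt_iff₀ m0]
    have e2 : (f.en : ℝ) / 100000 * ((f.sn : ℝ) / 1000) * ((f.M - (K + 3) : ℕ) : ℝ) =
        ((f.M - (K + 3) : ℕ) : ℝ) * (f.sn * f.en) / 100000000 := by
      ring
    rw [e2, lt_div_iff₀ (by norm_num)]
    exact h4'

end FD

end Pool.Agent.Helper20.SH
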