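import Pool.Agent.Helper20.SH.FarN

/-!
# Project RC, SHARP, zone II: the far rows of `NF`, the weights in natural numbers
-/

set_option autoImplicit false

open MeasureTheory Set Filter Topology

namespace Pool.Agent.Helper20.SH

open Helper49.LT hiding sg
open Helper49.RC (om)
open Pool.Agent.Helper99.RC
open Helper95.RC
open Helper95.SH (gNA gNB wm sy gA gB C1 C2 Arr wm_odd CD sV hV pV rV bp br nt)
open Helper49.Sharp

namespace FD

variable {f : FD} {k : ℤ} {K : ℕ}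

/-- the base of the geometric weights -/
theorem g_eq : (f.en : ℝ) / 100000 * ((f.sn : ℝ) / 1000) = ((f.sn * f.en : ℕ) : ℝ) / ((100000000 : ℕ) : ℝ) := by
  push_cast
  ring

theorem xxU_le (h : f.okF k K = true) (u : ℕ) (hu : u < f.M) :
    2 ^ f.S * xx ((f.en : ℝ) / 100000 * ((f.sn : ℝ) / 1000)) f.M u ≤ (f.xxU u : ℝ) := by
  obtain ⟨h1, h2, h3, h4, h5, h6⟩ := okF_iff.1 h
  have hpos : 0 < f.sn * f.en := by
    rcases Nat.eq_zero_or_pos (f.sn * f.en) with h0 | h0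
    · rw [h0, mul_zero] at h4
      omega
    · exact h0
  have a1 := pwU_le f.S (f.sn * f.en) 100000000 (by norm_num) u
  have a2 := pwU_le f.S 100000000 (f.sn * f.en) hpos u
  rw [g_eq]
  unfold xx xw xxU
  have e1 : (((f.sn * f.en : ℕ) : ℝ) / ((100000000 : ℕ) : ℝ)) ^ ((u : ℕ) : ℤ) =
      (((f.sn * f.en : ℕ) : ℝ) / ((100000000 : ℕ) : ℝ)) ^ u := zpow_natCast _ _
  have e2 : (((f.sn * f.en : ℕ) : ℝ) / ((100000000 : ℕ) : ℝ)) ^ (-((u : ℕ) : ℤ)) =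
      (((100000000 : ℕ) : ℝ) / ((f.sn * f.en : ℕ) : ℝ)) ^ u := by
    rw [zpow_neg, zpow_natCast, ← inv_pow, inv_div]
  rw [e1, e2, mul_add]
  rw [Nat.cast_add]
  refine add_le_add ?_ ?_
  · refine le_divU (by omega) ?_
    rw [← mul_div_assoc]
    have : ((f.M + u : ℕ) : ℝ) = (f.M : ℝ) + ((u : ℤ) : ℝ) := by push_cast; ring
    rw [this]
    have hp : (0 : ℝ) < (f.M : ℝ) + ((u : ℤ) : ℝ) := by
      rw [← this]
      have : 0 < f.M + u := by omega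
      exact_mod_cast this
    gcongr
  · refine le_divU (by omega) ?_
    rw [← mul_div_assoc]
    have : ((f.M - u : ℕ) : ℝ) = (f.M : ℝ) + ((-(u : ℤ) : ℤ) : ℝ) := by
      rw [Nat.cast_sub hu.le]; push_cast; ring
    rw [this]
    have hp : (0 : ℝ) < (f.M : ℝ) + ((-(u : ℤ) : ℤ) : ℝ) := by
      rw [← this]
      have : 0 < f.M - u := by omega
      exact_mod_cast this
    gcongr

theorem xx_natAbs (g : ℝ) (M : ℕ) (l : ℤ) : xx g M l = xx g M (l.natAbs : ℤ) := by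
  rcases Int.natAbs_eq l with h | h
  · rw [← h]
  · conv_lhs => rw [h]
    rw [xx_neg]

theorem xxU_le' (h : f.okF k K = true) (l : ℤ) (hl : l.natAbs < f.M) :
    2 ^ f.S * xx ((f.en : ℝ) / 100000 * ((f.sn : ℝ) / 1000)) f.M l ≤ (f.xxU l.natAbs : ℝ) := by
  rw [xx_natAbs]
  exact xxU_le h _ hl

theorem xsU_le (h : f.okF k K = true) (l : ℤ) (hl : l.natAbs ≤ K) :
    2 ^ f.S * xs ((f.te : ℝ) / 100000) ((f.en : ℝ) / 100000 * ((f.sn : ℝ) / 1000)) f.M l ≤ (f.xsU l : ℝ) := by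
  have h3 := (okF_iff.1 h).2.2.1
  have a1 := xxU_le' h (l + 1) (by omega)
  have a2 := xxU_le' h (l - 1) (by omega)
  have a3 := xxU_le' h (l + 3) (by omega)
  unfold xs xsU
  refine le_divU (by norm_num) ?_
  set g := (f.en : ℝ) / 100000 * ((f.sn : ℝ) / 1000)
  have ht : (0 : ℝ) ≤ f.te := Nat.cast_nonneg _
  have e : 2 ^ f.S * ((1 + 2 * ((f.te : ℝ) / 100000)) * (xx g f.M (l + 1) +
      (f.te : ℝ) / 100000 * (xx g f.M (l - 1) + xx g f.M (l + 3)))) =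
      (100000 + 2 * (f.te : ℝ)) * (100000 * (2 ^ f.S * xx g f.M (l + 1)) + f.te * (2 ^ f.S * xx g f.M (l - 1) +
        2 ^ f.S * xx g f.M (l + 3))) / 10000000000 := by
    ring
  rw [e]
  push_cast
  gcongr

theorem cxU_le (h : f.okF k K = true) :
    2 ^ f.S * CX ((f.te : ℝ) / 100000) ((f.sn : ℝ) / 1000) ((f.en : ℝ) / 100000) f.M K ≤ (f.cxU K : ℝ) := by
  obtain ⟨h1, h2, h3, h4, h5, h6⟩ := okF_iff.1 h
  have hen : 0 < f.en := by
    rcases Nat.eq_zero_or_pos f.en with h0 | h0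
    · rw [h0] at h4
      omega
    · exact h0
  have hsn : 0 < f.sn := by omega
  set m := f.M - (K + 3) with hm
  have hm0 : 0 < m := by omega
  have b1 : f.en ^ 6 < (100 * f.sn) ^ 6 := Nat.pow_lt_pow_left h2 (by norm_num)
  have b2 : ((m + 1) * 100000000) ^ 3 < (m * (f.sn * f.en)) ^ 3 := Nat.pow_lt_pow_left h4 (by norm_num)
  have a1 := pwU_le f.S f.en (100 * f.sn) (by omega) (2 * f.M)
  have a2 := pwU_le f.S (f.sn * f.en) 100000000 (by norm_num) (K + 3)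
  set A := pwU f.S f.en (100 * f.sn) (2 * f.M) with hA
  set B := pwU f.S (f.sn * f.en) 100000000 (K + 3) with hB
  have hcd : 0 < f.cd K := by
    unfold cd
    rw [← hm]
    have c1 : 0 < (100 * f.sn) ^ 6 - f.en ^ 6 := by omega
    have c2 : 0 < (m * (f.sn * f.en)) ^ 3 - ((m + 1) * 100000000) ^ 3 := by omega
    have c3 : 0 < f.M + (K + 3) := by omega
    positivity
  unfold cxU
  refine le_divU hcd ?_
  have ren : (0 : ℝ) < f.en := by exact_mod_cast hen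
  have rsn : (0 : ℝ) < f.sn := by exact_mod_cast hsn
  have rm : (0 : ℝ) < (m : ℝ) := by exact_mod_cast hm0
  have m1 : (m : ℝ) = (f.M : ℝ) - (K + 3 : ℕ) := by rw [hm, Nat.cast_sub h3.le]
  have d1 : (((100 * f.sn) ^ 6 - f.en ^ 6 : ℕ) : ℝ) = (100 * (f.sn : ℝ)) ^ 6 - (f.en : ℝ) ^ 6 := by
    rw [Nat.cast_sub b1.le]; push_cast; ring
  have d2 : (((m * (f.sn * f.en)) ^ 3 - ((m + 1) * 100000000) ^ 3 : ℕ) : ℝ) =
      ((m : ℝ) * (f.sn * f.en)) ^ 3 - (((m : ℝ) + 1) * 100000000) ^ 3 := by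
    rw [Nat.cast_sub b2.le]; push_cast; ring
  have d10 : (0 : ℝ) < (100 * (f.sn : ℝ)) ^ 6 - (f.en : ℝ) ^ 6 := by
    rw [← d1]
    have : 0 < (100 * f.sn) ^ 6 - f.en ^ 6 := by omega
    exact_mod_cast this
  have d20 : (0 : ℝ) < ((m : ℝ) * (f.sn * f.en)) ^ 3 - (((m : ℝ) + 1) * 100000000) ^ 3 := by
    rw [← d2]
    have : 0 < (m * (f.sn * f.en)) ^ 3 - ((m + 1) * 100000000) ^ 3 := by omega
    exact_mod_cast this
  have rM : (0 : ℝ) < (f.M : ℝ) + (K + 3 : ℕ) := by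
    have : 0 < f.M + (K + 3) := by omega
    exact_mod_cast this
  have hq : (f.en : ℝ) / 100000 / ((f.sn : ℝ) / 1000) = (f.en : ℝ) / ((100 * f.sn : ℕ) : ℝ) := by
    push_cast
    field_simp
    ring
  have hcn : (f.cn K : ℝ) = 16 * (100000 + 2 * (f.te : ℝ)) ^ 2 * A * B * (100 * (f.sn : ℝ)) ^ 6 *
      ((m : ℝ) * (f.sn * f.en)) ^ 3 := by
    unfold cn
    rw [← hm, ← hA, ← hB]
    push_cast
    ring
  have hcd' : (f.cd K : ℝ) = 10000000000 * 2 ^ f.S * ((100 * (f.sn : ℝ)) ^ 6 - (f.en : ℝ) ^ 6) *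
      ((f.M : ℝ) + (K + 3 : ℕ)) * (((m : ℝ) * (f.sn * f.en)) ^ 3 - (((m : ℝ) + 1) * 100000000) ^ 3) := by
    unfold cd
    rw [← hm, Nat.cast_mul, Nat.cast_mul, Nat.cast_mul, d1, d2]
    push_cast
    ring
  rw [hcn, hcd']
  unfold CX CF
  rw [hq, g_eq, ← m1]
  set Q := ((f.en : ℝ) / ((100 * f.sn : ℕ) : ℝ)) ^ (2 * f.M) with hQ
  set G := (((f.sn * f.en : ℕ) : ℝ) / ((100000000 : ℕ) : ℝ)) ^ (K + 3) with hG
  have e1 : 1 - ((f.en : ℝ) / ((100 * f.sn : ℕ) : ℝ)) ^ 6 =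
      ((100 * (f.sn : ℝ)) ^ 6 - (f.en : ℝ) ^ 6) / (100 * (f.sn : ℝ)) ^ 6 := by
    push_cast
    field_simp
  have e2 : 1 - ((1 + 1 / (m : ℝ)) / (((f.sn * f.en : ℕ) : ℝ) / ((100000000 : ℕ) : ℝ))) ^ 3 =
      (((m : ℝ) * (f.sn * f.en)) ^ 3 - (((m : ℝ) + 1) * 100000000) ^ 3) / ((m : ℝ) * (f.sn * f.en)) ^ 3 := by
    push_cast
    field_simp
  rw [e1, e2]
  set D1 := (100 * (f.sn : ℝ)) ^ 6 - (f.en : ℝ) ^ 6
  set D2 := ((m : ℝ) * (f.sn * f.en)) ^ 3 - (((m : ℝ) + 1) * 100000000) ^ 3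
  have hQ0 : 0 ≤ Q := by positivity
  have hG0 : 0 ≤ G := by positivity
  have e3 : 2 ^ f.S * (4 * (1 + 2 * ((f.te : ℝ) / 100000)) ^ 2 *
      (4 * (Q / (D1 / (100 * (f.sn : ℝ)) ^ 6)) * (G / (((f.M : ℝ) + (K + 3 : ℕ)) *
        (D2 / ((m : ℝ) * (f.sn * f.en)) ^ 3))))) =
      16 * (100000 + 2 * (f.te : ℝ)) ^ 2 * (2 ^ f.S * Q) * (2 ^ f.S * G) * (100 * (f.sn : ℝ)) ^ 6 *
        ((m : ℝ) * (f.sn * f.en)) ^ 3 / (10000000000 * 2 ^ f.S * D1 * ((f.M : ℝ) + (K + 3 : ℕ)) * D2) := by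
    field_simp
    ring
  rw [e3]
  have hS : (0 : ℝ) < 2 ^ f.S := by positivity
  gcongr

theorem xs_nonneg {t g : ℝ} (ht : 0 ≤ t) (hg : 0 < g) {M : ℕ} {l : ℤ} (hl : l.natAbs + 3 < M) : 0 ≤ xs t g M l := by
  have a1 : 0 ≤ xx g M (l + 1) := xx_nonneg hg (by omega)
  have a2 : 0 ≤ xx g M (l - 1) := xx_nonneg hg (by omega)
  have a3 : 0 ≤ xx g M (l + 3) := xx_nonneg hg (by omega)
  unfold xs
  positivity

theorem wU_le (h : f.okF k K = true) (l : ℤ) (hl : l.natAbs ≤ K) :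
    CX ((f.te : ℝ) / 100000) ((f.sn : ℝ) / 1000) ((f.en : ℝ) / 100000) f.M K *
      xs ((f.te : ℝ) / 100000) ((f.en : ℝ) / 100000 * ((f.sn : ℝ) / 1000)) f.M l ≤ (f.wU K l : ℝ) / 2 ^ f.S := by
  have hS : (0 : ℝ) < 2 ^ f.S := by positivity
  have a1 := cxU_le h
  have a2 := xsU_le h l hl
  have h3 := (okF_iff.1 h).2.2.1
  have hP := farP h
  have hg0 : 0 < (f.en : ℝ) / 100000 * ((f.sn : ℝ) / 1000) := by
    have := (Real.exp_pos _).trans_le hP.hE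
    have := hP.hs
    positivity
  have ht : (0 : ℝ) ≤ (f.te : ℝ) / 100000 := by positivity
  have x0 := xs_nonneg ht hg0 (M := f.M) (l := l) (by omega)
  rw [le_div_iff₀ hS]
  unfold wU
  refine le_divU (by positivity) ?_
  push_cast
  rw [le_div_iff₀ hS]
  set C := CX ((f.te : ℝ) / 100000) ((f.sn : ℝ) / 1000) ((f.en : ℝ) / 100000) f.M K
  set X := xs ((f.te : ℝ) / 100000) ((f.en : ℝ) / 100000 * ((f.sn : ℝ) / 1000)) f.M l
  calc C * X * 2 ^ f.S * 2 ^ f.S = (2 ^ f.S * C) * (2 ^ f.S * X) := by ring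
    _ ≤ (f.cxU K : ℝ) * (f.xsU l : ℝ) :=
        mul_le_mul a1 a2 (by positivity) (Nat.cast_nonneg _)

end FD

end Pool.Agent.Helper20.SH
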