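import Pool.Agent.Helper20.SH.FarN2

/-!
# Project RC, SHARP, zone II: the far rows of `NF` as a diagonal form in the coordinates
-/

set_option autoImplicit false

open MeasureTheory Set Filter Topology

namespace Pool.Agent.Helper20.SH

open Helper49.LT hiding sg
open Helper49.RC (om)
open Pool.Agent.Helper99.RC
open Helper95.RC
open Helper95.SH (gNA gNB wm sy gA gB C1 C2 Arr wm_odd CD sV hV pV rV bp br nt)
open Helper49.Sharp

/-! ### sums over coordinates -/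

theorem sum_pair (h : ℕ → ℝ) (n : ℕ) :
    ∑ j ∈ Finset.range (2 * n), h j = ∑ j ∈ Finset.range n, (h (2 * j) + h (2 * j + 1)) := by
  induction n with
  | zero => simp
  | succ n ih =>
    rw [show 2 * (n + 1) = 2 * n + 1 + 1 by ring, Finset.sum_range_succ, Finset.sum_range_succ, ih,
      Finset.sum_range_succ]
    ring

/-- sum over a progression of difference two -/
theorem sum_prog {F : ℤ → ℝ} {K Kw : ℕ} (hK : K ≤ Kw)
    (h0 : ∀ l : ℤ, (¬ (2 : ℤ) ∣ l + K) ∨ l ∉ Finset.Icc (-(K : ℤ)) K → F l = 0) :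
    ∑ l ∈ Finset.Icc (-(Kw : ℤ)) Kw, F l = ∑ j ∈ Finset.range (K + 1), F (2 * j - K) := by
  have hinj : Set.InjOn (fun j : ℕ => (2 * j - K : ℤ)) (Finset.range (K + 1) : Set ℕ) := by
    intro x _ y _ hxy
    have : (2 * x - K : ℤ) = 2 * y - K := hxy
    omega
  rw [← Finset.sum_image (f := F) hinj]
  symm
  apply Finset.sum_subset
  · intro l hl
    obtain ⟨j, hj, rfl⟩ := Finset.mem_image.1 hl
    rw [Finset.mem_range] at hj
    rw [Finset.mem_Icc]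
    omega
  · intro l _ hl
    apply h0
    by_contra hc
    push Not at hc
    obtain ⟨⟨a, ha⟩, hc2⟩ := hc
    rw [Finset.mem_Icc] at hc2
    apply hl
    rw [Finset.mem_image]
    refine ⟨a.toNat, ?_, ?_⟩
    · rw [Finset.mem_range]
      omega
    · omega

theorem sum_center (h : ℕ → ℝ) (n : ℕ) :
    ∑ j ∈ Finset.range (2 * n + 1), h j =
      h n + ∑ j ∈ Finset.range n, (h (n + 1 + j) + h (n - 1 - j)) := by
  rw [show 2 * n + 1 = (n + 1) + n by ring, Finset.sum_range_add, Finset.sum_range_succ,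
    ← Finset.sum_range_reflect h n, Finset.sum_add_distrib]
  ring

/-- the array `s` -/
theorem sum_sV {K Kw : ℕ} (hK : ¬ Even K) (hKw : K ≤ Kw) (x : ℤ → ℝ) (v : ℕ → ℝ) :
    ∑ l ∈ Finset.Icc (-(Kw : ℤ)) Kw, x l * ‖sV K v l‖ ^ 2 =
      ∑ j ∈ Finset.range (2 * (K + 1)), x (2 * (j / 2 : ℕ) - (K : ℤ)) * v (1 + j) ^ 2 := by
  rw [sum_prog hKw, sum_pair]
  · refine Finset.sum_congr rfl fun j hj => ?_
    rw [Finset.mem_range] at hj
    have h1 : ¬ (Even (2 * (j : ℤ) - K) ∨ (2 * (j : ℤ) - K) ∉ Finset.Icc (-(K : ℤ)) K) := by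
      rintro (h | h)
      · rw [Int.even_sub] at h
        apply hK
        have h2 : Even (2 * (j : ℤ)) := even_two_mul _
        have h3 := h.1 h2
        exact_mod_cast h3
      · rw [Finset.mem_Icc] at h
        omega
    have h2 : sV K v (2 * j - K) = (v (1 + 2 * j) : ℂ) + Complex.I * (v (2 + 2 * j) : ℂ) := by
      unfold sV
      rw [if_neg h1, sub_add_cancel]
      have : (2 * (j : ℤ)).toNat = 2 * j := by omega
      rw [this]
    have h3 : ‖sV K v (2 * j - K)‖ ^ 2 = v (1 + 2 * j) ^ 2 + v (2 + 2 * j) ^ 2 := by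
      rw [h2, ← Complex.normSq_eq_norm_sq, Complex.normSq_apply]
      simp
      ring
    rw [h3]
    have h4 : 2 * j / 2 = j := by omega
    have h5 : (2 * j + 1) / 2 = j := by omega
    rw [h4, h5, show 1 + (2 * j + 1) = 2 + 2 * j by ring]
    ring
  · intro l hl
    have h1 : sV K v l = 0 := by
      unfold sV
      rw [if_pos]
      rcases hl with h | h
      · left
        rw [Int.even_iff]
        have hK' : K % 2 = 1 := Nat.not_even_iff.1 hK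
        omega
      · exact Or.inr h
    rw [h1]
    simp

/-- the weight of the coordinate `base + j` of a hermitian array -/
noncomputable def yh (x : ℤ → ℝ) (j : ℕ) : ℝ :=
  if j = 0 then x 0 else x (2 * ((j + 1) / 2 : ℕ)) + x (-(2 * ((j + 1) / 2 : ℕ)))

/-- a hermitian array -/
theorem sum_hV {L Kw : ℕ} (hL : Even L) (hKw : L ≤ Kw) (x : ℤ → ℝ) (base : ℕ) (v : ℕ → ℝ) :
    ∑ l ∈ Finset.Icc (-(Kw : ℤ)) Kw, x l * ‖hV L base v l‖ ^ 2 =
      ∑ j ∈ Finset.range (L + 1), yh x j * v (base + j) ^ 2 := by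
  obtain ⟨n, rfl⟩ : ∃ n, L = 2 * n := by
    obtain ⟨n, hn⟩ := hL
    exact ⟨n, by omega⟩
  have hp : ∀ j : ℕ, j < n → ‖hV (2 * n) base v (2 * j + 2)‖ ^ 2 = v (base + (2 * j + 1)) ^ 2 + v (base + (2 * j + 2)) ^ 2 := by
    intro j hj
    have h1 : ¬ (¬ Even (2 * (j : ℤ) + 2) ∨ (2 * (j : ℤ) + 2) ∉ Finset.Icc (-((2 * n : ℕ) : ℤ)) ((2 * n : ℕ) : ℤ)) := by
      rintro (h | h)
      · exact h ⟨j + 1, by ring⟩
      · rw [Finset.mem_Icc] at h
        omega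
    unfold hV
    rw [if_neg h1, if_neg (by omega), if_pos (by omega)]
    have e1 : (2 * (j : ℤ) + 2).toNat = 2 * j + 2 := by omega
    rw [e1, ← Complex.normSq_eq_norm_sq, Complex.normSq_apply]
    have e2 : 2 * j + 2 - 1 = 2 * j + 1 := by omega
    rw [e2]
    simp
    ring
  rw [sum_prog hKw, sum_center]
  · rw [Finset.sum_range_succ' (fun j => yh x j * v (base + j) ^ 2) (2 * n), sum_pair, add_comm]
    congr 1
    · refine Finset.sum_congr rfl fun j hj => ?_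
      rw [Finset.mem_range] at hj
      have e1 : (2 * ((n + 1 + j : ℕ) : ℤ) - ((2 * n : ℕ) : ℤ)) = 2 * j + 2 := by omega
      have e2 : (2 * ((n - 1 - j : ℕ) : ℤ) - ((2 * n : ℕ) : ℤ)) = -(2 * j + 2) := by omega
      rw [e1, e2, Helper95.SH.hV_neg, Complex.norm_conj, hp j hj]
      unfold yh
      rw [if_neg (by omega), if_neg (by omega)]
      have e3 : (2 * j + 1 + 1) / 2 = j + 1 := by omega
      have e4 : (2 * j + 1 + 1 + 1) / 2 = j + 1 := by omega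
      rw [e3, e4]
      have e5 : (2 * ((j + 1 : ℕ) : ℤ)) = 2 * j + 2 := by push_cast; ring
      rw [e5]
      ring
    · have e1 : (2 * (n : ℤ) - ((2 * n : ℕ) : ℤ)) = 0 := by omega
      rw [e1]
      unfold yh
      rw [if_pos rfl]
      congr 1
      have h1 : ¬ (¬ Even (0 : ℤ) ∨ (0 : ℤ) ∉ Finset.Icc (-((2 * n : ℕ) : ℤ)) ((2 * n : ℕ) : ℤ)) := by
        rintro (h | h)
        · exact h (by simp)
        · rw [Finset.mem_Icc] at h
          omega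
      unfold hV
      rw [if_neg h1, if_pos rfl, add_zero, Complex.norm_real, Real.norm_eq_abs, sq_abs]
  · intro l hl
    have h1 : hV (2 * n) base v l = 0 := by
      unfold hV
      rw [if_pos]
      rcases hl with h | h
      · left
        rw [Int.even_iff]
        omega
      · exact Or.inr h
    rw [h1]
    simp

theorem xs_mono {t t' g : ℝ} (ht : 0 ≤ t) (htt : t ≤ t') (hg : 0 < g) {M : ℕ} {l : ℤ} (hl : l.natAbs + 3 < M) :
    xs t g M l ≤ xs t' g M l := by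
  have a1 : 0 ≤ xx g M (l + 1) := xx_nonneg hg (by omega)
  have a2 : 0 ≤ xx g M (l - 1) := xx_nonneg hg (by omega)
  have a3 : 0 ≤ xx g M (l + 3) := xx_nonneg hg (by omega)
  have a4 : 0 ≤ 1 + 2 * t' := by linarith
  unfold xs
  gcongr

/-- the head form with larger weights -/
theorem SF_le {x : ℤ → ℝ} {t g C : ℝ} {M K : ℕ} {p r s : ℤ → ℂ}
    (hx : ∀ l ∈ Finset.Icc (-(K : ℤ)) K, 0 ≤ x l ∧ C * xs t g M l ≤ x l) :
    C * SF t g M K p r s ≤ ∑ l ∈ Finset.Icc (-(K : ℤ)) K, x l * ‖s l‖ ^ 2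
      + (3 * x 0 + 3 * ∑ l ∈ Finset.Icc (-(K : ℤ)) K, x l * ‖p l‖ ^ 2
      + 10 * ∑ l ∈ Finset.Icc (-(K : ℤ)) K, x l * ‖r l‖ ^ 2) := by
  have h1 : ∀ y : ℤ → ℂ, C * ∑ l ∈ Finset.Icc (-(K : ℤ)) K, xs t g M l * ‖y l‖ ^ 2 ≤
      ∑ l ∈ Finset.Icc (-(K : ℤ)) K, x l * ‖y l‖ ^ 2 := by
    intro y
    rw [Finset.mul_sum]
    refine Finset.sum_le_sum fun l hl => ?_
    rw [← mul_assoc]
    exact mul_le_mul_of_nonneg_right (hx l hl).2 (sq_nonneg _)
  have h2 := h1 s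
  have h3 := h1 p
  have h4 := h1 r
  have h5 := (hx 0 (by rw [Finset.mem_Icc]; omega)).2
  have h6 : 0 ≤ ∑ l ∈ Finset.Icc (-(K : ℤ)) K, x l * ‖r l‖ ^ 2 :=
    Finset.sum_nonneg fun l hl => mul_nonneg (hx l hl).1 (sq_nonneg _)
  unfold SF
  rw [mul_add, mul_left_comm C 3, mul_add, mul_add, mul_left_comm C (49 / 16)]
  linarith

namespace FD

variable {f : FD} {k : ℤ} {K L : ℕ}

theorem dN_s {j : ℕ} (hj : j < 2 * (K + 1)) : f.dN K L (1 + j) = f.wU K (2 * (j / 2 : ℕ) - (K : ℤ)) := by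
  unfold dN
  rw [if_neg (by omega), if_pos (by unfold bp; omega), Nat.add_sub_cancel_left]

theorem dN_p {j : ℕ} (hj : j < L + 1) : f.dN K L (bp K + j) =
    if j = 0 then 3 * f.wU K 0 else 3 * (f.wU K (2 * ((j + 1) / 2 : ℕ)) + f.wU K (-(2 * ((j + 1) / 2 : ℕ)))) := by
  unfold dN
  rw [if_neg (by unfold bp; omega), if_neg (by omega), if_pos (by unfold br; omega), Nat.add_sub_cancel_left]
  by_cases hj0 : j = 0
  · rw [if_pos (by omega), if_pos hj0]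
  · rw [if_neg (by omega), if_neg hj0]

theorem dN_r {j : ℕ} : f.dN K L (br K L + j) =
    if j = 0 then 10 * f.wU K 0 else 10 * (f.wU K (2 * ((j + 1) / 2 : ℕ)) + f.wU K (-(2 * ((j + 1) / 2 : ℕ)))) := by
  unfold dN
  rw [if_neg (by unfold br bp; omega), if_neg (by unfold br; omega), if_neg (by omega), Nat.add_sub_cancel_left]
  by_cases hj0 : j = 0
  · rw [if_pos (by omega), if_pos hj0]
  · rw [if_neg (by omega), if_neg hj0]

/-- the diagonal form -/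
theorem diag_eq (hK : ¬ Even K) (hL : Even L) (hLK : L ≤ K) (v : ℕ → ℝ) (v0 : v 0 = 1) :
    ∑ l ∈ Finset.Icc (-(K : ℤ)) K, (f.wU K l : ℝ) / 2 ^ f.S * ‖sV K v l‖ ^ 2
      + (3 * ((f.wU K 0 : ℝ) / 2 ^ f.S) + 3 * ∑ l ∈ Finset.Icc (-(K : ℤ)) K, (f.wU K l : ℝ) / 2 ^ f.S * ‖pV K L v l‖ ^ 2
      + 10 * ∑ l ∈ Finset.Icc (-(K : ℤ)) K, (f.wU K l : ℝ) / 2 ^ f.S * ‖rV K L v l‖ ^ 2) =
    ∑ i ∈ Finset.range (nt K L), (f.dN K L i : ℝ) / 2 ^ f.S * v i ^ 2 := by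
  set x : ℤ → ℝ := fun l => (f.wU K l : ℝ) / 2 ^ f.S with hx
  have h1 := sum_sV hK le_rfl x v
  have h2 := sum_hV hL hLK x (bp K) v
  have h3 := sum_hV hL hLK x (br K L) v
  have e0 : nt K L = 1 + 2 * (K + 1) + (L + 1) + (L + 1) := by unfold nt bp; ring
  rw [e0, Finset.sum_range_add, Finset.sum_range_add, Finset.sum_range_add, Finset.sum_range_one]
  have g1 : ∑ l ∈ Finset.Icc (-(K : ℤ)) K, x l * ‖sV K v l‖ ^ 2 =
      ∑ j ∈ Finset.range (2 * (K + 1)), (f.dN K L (1 + j) : ℝ) / 2 ^ f.S * v (1 + j) ^ 2 := by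
    rw [h1]
    refine Finset.sum_congr rfl fun j hj => ?_
    rw [Finset.mem_range] at hj
    rw [dN_s hj]
  have g2 : 3 * ∑ l ∈ Finset.Icc (-(K : ℤ)) K, x l * ‖pV K L v l‖ ^ 2 =
      ∑ j ∈ Finset.range (L + 1), (f.dN K L (1 + 2 * (K + 1) + j) : ℝ) / 2 ^ f.S * v (1 + 2 * (K + 1) + j) ^ 2 := by
    show 3 * ∑ l ∈ Finset.Icc (-(K : ℤ)) K, x l * ‖hV L (bp K) v l‖ ^ 2 = _
    rw [h2, Finset.mul_sum]
    refine Finset.sum_congr rfl fun j hj => ?_
    rw [Finset.mem_range] at hj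
    have hb : 1 + 2 * (K + 1) = bp K := rfl
    rw [hb, ← mul_assoc, dN_p hj]
    congr 1
    unfold yh
    by_cases hj0 : j = 0
    · rw [if_pos hj0, if_pos hj0, hx]
      push_cast
      ring
    · rw [if_neg hj0, if_neg hj0, hx]
      push_cast
      ring
  have g3 : 10 * ∑ l ∈ Finset.Icc (-(K : ℤ)) K, x l * ‖rV K L v l‖ ^ 2 =
      ∑ j ∈ Finset.range (L + 1), (f.dN K L (1 + 2 * (K + 1) + (L + 1) + j) : ℝ) / 2 ^ f.S *
        v (1 + 2 * (K + 1) + (L + 1) + j) ^ 2 := by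
    show 10 * ∑ l ∈ Finset.Icc (-(K : ℤ)) K, x l * ‖hV L (br K L) v l‖ ^ 2 = _
    rw [h3, Finset.mul_sum]
    refine Finset.sum_congr rfl fun j hj => ?_
    rw [Finset.mem_range] at hj
    have hb : 1 + 2 * (K + 1) + (L + 1) = br K L := rfl
    rw [hb, ← mul_assoc, dN_r]
    congr 1
    unfold yh
    by_cases hj0 : j = 0
    · rw [if_pos hj0, if_pos hj0, hx]
      push_cast
      ring
    · rw [if_neg hj0, if_neg hj0, hx]
      push_cast
      ring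
  have g0 : 3 * x 0 = (f.dN K L 0 : ℝ) / 2 ^ f.S * v 0 ^ 2 := by
    unfold dN
    rw [if_pos rfl, v0, hx]
    push_cast
    ring
  have g2' := g2
  have g3' := g3
  rw [g1, g0, g2, g3]
  ring

variable {c : CD} {d ph : ℝ}

/-- the bound of the head form in coordinates -/
theorem head_le (h : f.okF k K = true) (he : ‖c.P.eta‖ ≤ (f.te : ℝ) / 100000) (hK : ¬ Even K) (hL : Even L)
    (hLK : L ≤ K) (v : ℕ → ℝ) (v0 : v 0 = 1) :
    CX ‖c.P.eta‖ ((f.sn : ℝ) / 1000) ((f.en : ℝ) / 100000) f.M K *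
      SF ‖c.P.eta‖ ((f.en : ℝ) / 100000 * ((f.sn : ℝ) / 1000)) f.M K (pV K L v) (rV K L v) (sV K v) ≤
    ∑ i ∈ Finset.range (nt K L), (f.dN K L i : ℝ) / 2 ^ f.S * v i ^ 2 := by
  have hP := farP h
  have h3 := (okF_iff.1 h).2.2.1
  have hg0 : 0 < (f.en : ℝ) / 100000 * ((f.sn : ℝ) / 1000) := by
    have := (Real.exp_pos _).trans_le hP.hE
    have := hP.hs
    positivity
  have hC0 : 0 ≤ CF ((f.sn : ℝ) / 1000) ((f.en : ℝ) / 100000) f.M (K + 3) := by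
    have hE0 := (Real.exp_pos _).trans_le hP.hE
    have hs0 : 0 < (f.sn : ℝ) / 1000 := by linarith [hP.hs]
    have q0 : 0 ≤ (f.en : ℝ) / 100000 / ((f.sn : ℝ) / 1000) := by positivity
    have q1 : (f.en : ℝ) / 100000 / ((f.sn : ℝ) / 1000) < 1 := by rw [div_lt_one hs0]; exact hP.hEs
    have q6 : ((f.en : ℝ) / 100000 / ((f.sn : ℝ) / 1000)) ^ 6 < 1 := pow_lt_one₀ q0 q1 (by norm_num)
    have m1 : (0 : ℝ) < (f.M : ℝ) - (K + 3 : ℕ) := by
      have : ((K + 3 : ℕ) : ℝ) < f.M := by exact_mod_cast h3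
      linarith
    set G := (f.en : ℝ) / 100000 * ((f.sn : ℝ) / 1000)
    have g0 : 0 ≤ (1 + 1 / ((f.M : ℝ) - (K + 3 : ℕ))) / G := by positivity
    have g1 : (1 + 1 / ((f.M : ℝ) - (K + 3 : ℕ))) / G < 1 := by rw [div_lt_one hg0]; exact hP.hg
    have g3 : ((1 + 1 / ((f.M : ℝ) - (K + 3 : ℕ))) / G) ^ 3 < 1 := pow_lt_one₀ g0 g1 (by norm_num)
    have a1 : 0 < 1 - ((f.en : ℝ) / 100000 / ((f.sn : ℝ) / 1000)) ^ 6 := by linarith
    have a2 : 0 < 1 - ((1 + 1 / ((f.M : ℝ) - (K + 3 : ℕ))) / G) ^ 3 := by linarith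
    have a3 : (0 : ℝ) < (f.M : ℝ) + (K + 3 : ℕ) := by
      have : (0 : ℝ) ≤ ((K + 3 : ℕ) : ℝ) := Nat.cast_nonneg _
      linarith
    unfold CF
    positivity
  have hη : 0 ≤ ‖c.P.eta‖ := norm_nonneg _
  have hCX : CX ‖c.P.eta‖ ((f.sn : ℝ) / 1000) ((f.en : ℝ) / 100000) f.M K ≤
      CX ((f.te : ℝ) / 100000) ((f.sn : ℝ) / 1000) ((f.en : ℝ) / 100000) f.M K := by
    unfold CX
    gcongr
  have hCX0 : 0 ≤ CX ((f.te : ℝ) / 100000) ((f.sn : ℝ) / 1000) ((f.en : ℝ) / 100000) f.M K := by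
    unfold CX
    positivity
  rw [← diag_eq hK hL hLK v v0]
  refine SF_le fun l hl => ⟨by positivity, ?_⟩
  rw [Finset.mem_Icc] at hl
  refine le_trans ?_ (wU_le h l (by omega))
  have x0 := xs_nonneg hη hg0 (M := f.M) (l := l) (by omega)
  exact mul_le_mul hCX (xs_mono hη he hg0 (by omega)) x0 hCX0

/-- **rows `X`** -/
theorem farX (h : f.okF k K = true) (hps : c.P.ps = ps d ((k : ℝ) / 100000) ph)
    (he : ‖c.P.eta‖ ≤ (f.te : ℝ) / 100000) (hK : ¬ Even K) (hL : Even L) (hLK : L ≤ K) (v : ℕ → ℝ) (v0 : v 0 = 1)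
    (a : Arr K (pV K L v) (rV K L v) (sV K v)) (F : Finset ℤ) (hF : ∀ n ∈ F, f.M + 3 ≤ n.natAbs) :
    ∑ n ∈ F, ‖wm c.P.eta (fun n => gA c K (pV K L v) (rV K L v) (sV K v) n - gB c K (pV K L v) (rV K L v) (sV K v) n) n‖ ^ 2 ≤
      ∑ i ∈ Finset.range (nt K L), (f.dN K L i : ℝ) / 2 ^ f.S * v i ^ 2 :=
  (NFX_far (farP h) hps a F hF).trans (head_le h he hK hL hLK v v0)

/-- **rows `Y`** -/
theorem farY (h : f.okF k K = true) (hps : c.P.ps = ps d ((k : ℝ) / 100000) ph)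
    (he : ‖c.P.eta‖ ≤ (f.te : ℝ) / 100000) (hK : ¬ Even K) (hL : Even L) (hLK : L ≤ K) (v : ℕ → ℝ) (v0 : v 0 = 1)
    (a : Arr K (pV K L v) (rV K L v) (sV K v)) (F : Finset ℤ) (hF : ∀ n ∈ F, f.M + 3 ≤ n.natAbs) :
    ∑ n ∈ F, ‖sy (wm c.P.eta (fun n => om * gA c K (pV K L v) (rV K L v) (sV K v) n
        + om ^ 2 * gB c K (pV K L v) (rV K L v) (sV K v) n)) n‖ ^ 2 ≤
      ∑ i ∈ Finset.range (nt K L), (f.dN K L i : ℝ) / 2 ^ f.S * v i ^ 2 :=
  (NFY_far (farP h) hps a F hF).trans (head_le h he hK hL hLK v v0)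

/-- **rows `Z`** -/
theorem farZ (h : f.okF k K = true) (hps : c.P.ps = ps d ((k : ℝ) / 100000) ph)
    (he : ‖c.P.eta‖ ≤ (f.te : ℝ) / 100000) (hK : ¬ Even K) (hL : Even L) (hLK : L ≤ K) (v : ℕ → ℝ) (v0 : v 0 = 1)
    (a : Arr K (pV K L v) (rV K L v) (sV K v)) (F : Finset ℤ) (hF : ∀ n ∈ F, f.M + 3 ≤ n.natAbs) :
    ∑ n ∈ F, ‖sy (wm c.P.eta (fun n => (starRingEnd ℂ) (kq 2) * gA c K (pV K L v) (rV K L v) (sV K v) n
        + kq 2 * gB c K (pV K L v) (rV K L v) (sV K v) n)) n‖ ^ 2 ≤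
      49 / 16 * ∑ i ∈ Finset.range (nt K L), (f.dN K L i : ℝ) / 2 ^ f.S * v i ^ 2 :=
  (NFZ_far (farP h) hps a F hF).trans
    (mul_le_mul_of_nonneg_left (head_le h he hK hL hLK v v0) (by norm_num))

end FD

end Pool.Agent.Helper20.SH
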