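import Pool.Agent.Helper20.SH.NFT2

/-!
# Project RC, SHARP: Kapteyn's bound for Bessel functions and the far columns of the kernel `CS`

`kapteyn : |J j y| * s ^ |j| ≤ exp (|y| (s - 1/s) / 2)` for `s ≥ 1`.
-/

set_option autoImplicit false

open MeasureTheory Set Filter Topology

namespace Pool.Agent.Helper20.SH

open Helper49.LT hiding sg
open Pool.Agent.Helper99.RC
open Pool.Agent.Helper61.RC
open Helper95.RC
open Helper87.RC (BM)
open Helper31.Bes

/-- the generating function -/
noncomputable def gf (y : ℝ) (n : ℕ) (w : ℂ) : ℂ := Complex.exp ((y / 2 : ℝ) * (w - w⁻¹)) * (w ^ n)⁻¹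

theorem gf_diff (y : ℝ) (n : ℕ) {w : ℂ} (hw : w ≠ 0) : DifferentiableAt ℂ (gf y n) w := by
  unfold gf
  have h1 : DifferentiableAt ℂ (fun w : ℂ => w - w⁻¹) w := differentiableAt_id.sub (differentiableAt_inv hw)
  have h2 : DifferentiableAt ℂ (fun w : ℂ => Complex.exp ((y / 2 : ℝ) * (w - w⁻¹))) w :=
    (h1.const_mul _).cexp
  exact h2.mul ((differentiableAt_id.pow n).inv (pow_ne_zero n hw))

theorem gf_norm (y s : ℝ) (n : ℕ) (hs : 1 ≤ s) {w : ℂ} (hw : ‖w‖ = s) :
    ‖gf y n w‖ ≤ Real.exp (|y| * (s - s⁻¹) / 2) / s ^ n := by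
  have hs0 : 0 < s := by linarith
  have hw0 : w ≠ 0 := by
    rintro rfl
    rw [norm_zero] at hw
    linarith
  unfold gf
  rw [norm_mul, norm_inv, norm_pow, hw, Complex.norm_exp, div_eq_mul_inv]
  apply mul_le_mul_of_nonneg_right _ (by positivity)
  rw [Real.exp_le_exp, Complex.re_ofReal_mul, Complex.sub_re, Complex.inv_re]
  have hn : Complex.normSq w = s ^ 2 := by rw [Complex.normSq_eq_norm_sq, hw]
  rw [hn]
  have hre : |w.re| ≤ s := by
    rw [← hw]
    exact Complex.abs_re_le_norm w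
  have e1 : w.re - w.re / s ^ 2 = w.re * (1 - (s ^ 2)⁻¹) := by
    rw [div_eq_mul_inv]
    ring
  rw [e1]
  have h1 : 0 ≤ 1 - (s ^ 2)⁻¹ := by
    have : (s ^ 2)⁻¹ ≤ 1 := inv_le_one_of_one_le₀ (by nlinarith)
    linarith
  have e2 : s * (1 - (s ^ 2)⁻¹) = s - s⁻¹ := by
    field_simp
  calc y / 2 * (w.re * (1 - (s ^ 2)⁻¹)) ≤ |y / 2 * (w.re * (1 - (s ^ 2)⁻¹))| := le_abs_self _
    _ = |y| / 2 * (|w.re| * (1 - (s ^ 2)⁻¹)) := by
        rw [abs_mul, abs_mul, abs_div, abs_of_nonneg h1, abs_of_pos (by norm_num : (0 : ℝ) < 2)]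
    _ ≤ |y| / 2 * (s * (1 - (s ^ 2)⁻¹)) := by gcongr
    _ = |y| * (s - s⁻¹) / 2 := by
        rw [e2]
        ring

theorem kapteyn_nat (n : ℕ) (y s : ℝ) (hs : 1 ≤ s) :
    |J n y| * s ^ n ≤ Real.exp (|y| * (s - s⁻¹) / 2) := by
  have hs0 : 0 < s := by linarith
  have hpi := Real.pi_pos
  have hannulus := Complex.circleIntegral_sub_center_inv_smul_eq_of_differentiable_on_annulus_off_countable
    (c := (0 : ℂ)) (r := 1) (R := s) one_pos hs (f := gf y n) (s := ∅) Set.countable_empty
    (by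
      intro w hw
      have hw0 : w ≠ 0 := by
        rintro rfl
        apply hw.2
        simp
      exact (gf_diff y n hw0).continuousAt.continuousWithinAt)
    (by
      intro w hw
      have hw0 : w ≠ 0 := by
        rintro rfl
        apply hw.1.2
        simp
      exact gf_diff y n hw0)
  have h1 : ‖∮ z in C((0 : ℂ), s), (z - 0)⁻¹ • gf y n z‖ ≤
      2 * Real.pi * s * (s⁻¹ * (Real.exp (|y| * (s - s⁻¹) / 2) / s ^ n)) := by
    apply circleIntegral.norm_integral_le_of_norm_le_const hs0.le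
    intro z hz
    have hz' : ‖z‖ = s := by simpa using hz
    rw [sub_zero, norm_smul, norm_inv, hz']
    exact mul_le_mul_of_nonneg_left (gf_norm y s n hs hz') (by positivity)
  have h2 : ∮ z in C((0 : ℂ), 1), (z - 0)⁻¹ • gf y n z = Complex.I * (2 * Real.pi * (J n y : ℂ)) := by
    have hJ := int_ee_sin (n : ℤ) y
    have e1 : (2 * Real.pi * (J n y : ℂ)) = ∫ t in (0 : ℝ)..(2 * Real.pi), ee (y * Real.sin t - (n : ℤ) * t) := by
      rw [← hJ]
      have : (Real.pi : ℂ) ≠ 0 := by exact_mod_cast hpi.ne'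
      field_simp
    rw [e1, ← intervalIntegral.integral_const_mul]
    unfold circleIntegral
    apply intervalIntegral.integral_congr
    intro t _
    show deriv (circleMap 0 1) t • ((circleMap 0 1 t - 0)⁻¹ • gf y n (circleMap 0 1 t)) = _
    have hc : circleMap 0 1 t = Complex.exp (t * Complex.I) := by
      unfold circleMap
      simp
    rw [deriv_circleMap, hc, sub_zero]
    have hne : Complex.exp (t * Complex.I) ≠ 0 := Complex.exp_ne_zero _
    rw [smul_eq_mul, smul_eq_mul]
    have e2 : Complex.exp (t * Complex.I) * Complex.I * ((Complex.exp (t * Complex.I))⁻¹ *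
        gf y n (Complex.exp (t * Complex.I))) = Complex.I * gf y n (Complex.exp (t * Complex.I)) := by
      field_simp
    rw [e2]
    congr 1
    unfold gf ee
    rw [← Complex.exp_neg, ← Complex.exp_nat_mul, ← Complex.exp_neg, ← Complex.exp_add]
    congr 1
    have e3 : Complex.exp (t * Complex.I) - Complex.exp (-(t * Complex.I)) =
        2 * Complex.I * (Real.sin t : ℂ) := by
      rw [Complex.ofReal_sin, Complex.sin, neg_mul]
      have hI := Complex.I_sq
      linear_combination (Complex.exp (t * Complex.I) - Complex.exp (-(t * Complex.I))) * hI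
    rw [e3]
    push_cast
    ring
  rw [hannulus, h2, norm_mul, Complex.norm_I, one_mul, norm_mul, norm_mul, Complex.norm_ofNat,
    Complex.norm_real, Complex.norm_real, Real.norm_of_nonneg hpi.le, Real.norm_eq_abs] at h1
  have e4 : 2 * Real.pi * s * (s⁻¹ * (Real.exp (|y| * (s - s⁻¹) / 2) / s ^ n)) =
      2 * Real.pi * (Real.exp (|y| * (s - s⁻¹) / 2) / s ^ n) := by
    field_simp
  rw [e4] at h1
  have h3 : |J n y| ≤ Real.exp (|y| * (s - s⁻¹) / 2) / s ^ n :=
    le_of_mul_le_mul_left h1 (by positivity)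
  rwa [le_div_iff₀ (by positivity)] at h3

/-- **Kapteyn's bound** -/
theorem kapteyn (j : ℤ) (y s : ℝ) (hs : 1 ≤ s) :
    |J j y| * s ^ j.natAbs ≤ Real.exp (|y| * (s - s⁻¹) / 2) := by
  rcases Int.natAbs_eq j with h | h
  · have := kapteyn_nat j.natAbs y s hs
    rwa [← h] at this
  · have := kapteyn_nat j.natAbs y s hs
    have e : ∀ k : ℕ, j = -(k : ℤ) → |J j y| = |J k y| := by
      rintro k rfl
      exact abs_J_neg _ _
    rwa [e _ h]

end Pool.Agent.Helper20.SH
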