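import Pool.Agent.Helper20.SH.TailNS
import Pool.Agent.Helper95.RC.Tr

/-!
# Project RC, SHARP, zone II: the shift form on the tail

`CS_bd`: the kernel `CS` is a bounded operator with norm `(1 - 9 k² / 4) ^ (-1/2)`.
`same_bd`, `same_rect`: the kernel `2 / (m + n) CS m n` on indices of one sign.
`mix_bd`: the kernel on indices of opposite signs.
`NS_tail`: the lower bound of `NS` on sequences supported in `|m| ≥ M0`.
-/

set_option autoImplicit false

open MeasureTheory Set Filter Topology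

namespace Pool.Agent.Helper20.SH

open Helper49.LT hiding sg
open Pool.Agent.Helper99.RC
open Pool.Agent.Helper61.RC
open Helper95.RC
open Helper87.RC (BM)

/-- the two changes of variable -/
noncomputable def gv (d k ph c : ℝ) (φ : ℝ) : ℝ := φ + c * ps d k ph φ
noncomputable def gd (k ph c : ℝ) (φ : ℝ) : ℝ := 1 + c * (k * (Real.cos (3 * φ + ph) * 3))

theorem gv_cont (d k ph c : ℝ) : Continuous (gv d k ph c) := by
  unfold gv ps
  fun_prop

theorem gd_cont (k ph c : ℝ) : Continuous (gd k ph c) := by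
  unfold gd
  fun_prop

theorem gv_deriv (d k ph c φ : ℝ) : HasDerivAt (gv d k ph c) (gd k ph c φ) φ := by
  have h1 : HasDerivAt (fun φ : ℝ => 3 * φ + ph) 3 φ := by
    have := ((hasDerivAt_id φ).const_mul 3).add_const ph
    simpa using this
  have h2 := (h1.sin.const_mul k).const_add (-d)
  exact (hasDerivAt_id φ).add (h2.const_mul c)

theorem gv_per (d k ph c φ : ℝ) : gv d k ph c (φ + 2 * Real.pi) = gv d k ph c φ + 2 * Real.pi := by
  unfold gv
  rw [ps_per]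
  ring

theorem gv_cov (d k ph c : ℝ) {F : ℝ → ℝ} (hF : Continuous F) (hp : ∀ t, F (t + 2 * Real.pi) = F t) :
    ∫ φ in (0 : ℝ)..(2 * Real.pi), F (gv d k ph c φ) * gd k ph c φ =
      ∫ t in (0 : ℝ)..(2 * Real.pi), F t := by
  have h := intervalIntegral.integral_comp_mul_deriv (a := 0) (b := 2 * Real.pi)
    (f := gv d k ph c) (f' := gd k ph c) (g := F) (fun x _ => gv_deriv d k ph c x)
    (gd_cont k ph c).continuousOn hF
  have e : gv d k ph c (2 * Real.pi) = gv d k ph c 0 + 2 * Real.pi := by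
    have := gv_per d k ph c 0
    rwa [zero_add] at this
  rw [e] at h
  have hP : Function.Periodic F (2 * Real.pi) := hp
  have h2 := hP.intervalIntegral_add_eq (gv d k ph c 0) 0
  rw [zero_add] at h2
  rw [h2] at h
  exact h

theorem tp_cont (S : Finset ℤ) (a : ℤ → ℂ) : Continuous (tp S a) := by
  unfold tp
  apply continuous_finsetSum
  intro m _
  exact continuous_const.mul (continuous_ee.comp (by fun_prop))

theorem tp_cov (d k ph c : ℝ) (S : Finset ℤ) (a : ℤ → ℂ) :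
    ∫ φ in (0 : ℝ)..(2 * Real.pi), ‖tp S a (gv d k ph c φ)‖ ^ 2 * gd k ph c φ =
      2 * Real.pi * ∑ m ∈ S, ‖a m‖ ^ 2 := by
  rw [gv_cov d k ph c (F := fun t => ‖tp S a t‖ ^ 2) ((tp_cont S a).norm.pow 2)
    (fun t => by rw [tp_per]), ← ms_tp]
  unfold ms
  have hpi := Real.pi_pos
  field_simp

/-- the kernel as a mean -/
theorem CS_av (d k ph : ℝ) (S T : Finset ℤ) (a b : ℤ → ℂ) :
    ∑ m ∈ S, ∑ n ∈ T, a m * (starRingEnd ℂ) (b n) * CS d k ph m n =
      av (fun φ => tp S a (gv d k ph (1 / 2) φ) *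
        (starRingEnd ℂ) (tp T b (gv d k ph (-(1 / 2)) φ))) := by
  have hc : Continuous (ps d k ph) := by
    unfold ps
    fun_prop
  have hi : ∀ m n : ℤ, Continuous (fun φ => a m * (starRingEnd ℂ) (b n) *
      (ee (((m - n : ℤ) : ℝ) * φ) * ee (((m + n : ℤ) : ℝ) * (ps d k ph φ / 2)))) := by
    intro m n
    exact continuous_const.mul ((continuous_ee.comp (by fun_prop)).mul
      (continuous_ee.comp (by fun_prop)))
  have e : (fun φ => tp S a (gv d k ph (1 / 2) φ) *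
        (starRingEnd ℂ) (tp T b (gv d k ph (-(1 / 2)) φ))) =
      fun φ => ∑ m ∈ S, ∑ n ∈ T, a m * (starRingEnd ℂ) (b n) *
        (ee (((m - n : ℤ) : ℝ) * φ) * ee (((m + n : ℤ) : ℝ) * (ps d k ph φ / 2))) := by
    funext φ
    unfold tp
    rw [map_sum, Finset.sum_mul_sum]
    refine Finset.sum_congr rfl fun m _ => Finset.sum_congr rfl fun n _ => ?_
    rw [map_mul, ← ee_neg]
    have h : ee (((m - n : ℤ) : ℝ) * φ) * ee (((m + n : ℤ) : ℝ) * (ps d k ph φ / 2)) =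
        ee ((m : ℝ) * gv d k ph (1 / 2) φ) * ee (-((n : ℝ) * gv d k ph (-(1 / 2)) φ)) := by
      rw [← ee_add, ← ee_add]
      congr 1
      unfold gv
      push_cast
      ring
    rw [h]
    ring
  rw [e]
  unfold av
  rw [intervalIntegral.integral_finsetSum, Finset.mul_sum]
  · refine Finset.sum_congr rfl fun m _ => ?_
    rw [intervalIntegral.integral_finsetSum, Finset.mul_sum]
    · refine Finset.sum_congr rfl fun n _ => ?_
      rw [← av_CS, intervalIntegral.integral_const_mul]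
      unfold av
      ring
    · intro n _
      exact (hi m n).intervalIntegrable _ _
  · intro m _
    exact (continuous_finsetSum _ fun n _ => hi m n).intervalIntegrable _ _

/-- **the operator bound for `CS`** -/
theorem CS_bd (d k ph δ : ℝ) (hδ : 0 < δ) (hk : δ ^ 2 ≤ 1 - 9 / 4 * k ^ 2) (S T : Finset ℤ)
    (a b : ℤ → ℂ) (l : ℝ) (hl : 0 < l) :
    δ * ‖∑ m ∈ S, ∑ n ∈ T, a m * (starRingEnd ℂ) (b n) * CS d k ph m n‖ ≤
      (l * ∑ m ∈ S, ‖a m‖ ^ 2 + l⁻¹ * ∑ n ∈ T, ‖b n‖ ^ 2) / 2 := by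
  have hpi := Real.pi_pos
  rw [CS_av]
  set A : ℝ → ℂ := fun φ => tp S a (gv d k ph (1 / 2) φ) with hA
  set B : ℝ → ℂ := fun φ => tp T b (gv d k ph (-(1 / 2)) φ) with hB
  have cA : Continuous A := (tp_cont S a).comp (gv_cont _ _ _ _)
  have cB : Continuous B := (tp_cont T b).comp (gv_cont _ _ _ _)
  have cN : Continuous fun φ => δ * ‖A φ * (starRingEnd ℂ) (B φ)‖ :=
    continuous_const.mul (cA.mul (Complex.continuous_conj.comp cB)).norm
  have c1 : Continuous fun φ => l / 2 * (‖A φ‖ ^ 2 * gd k ph (1 / 2) φ) :=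
    continuous_const.mul ((cA.norm.pow 2).mul (gd_cont _ _ _))
  have c2 : Continuous fun φ => l⁻¹ / 2 * (‖B φ‖ ^ 2 * gd k ph (-(1 / 2)) φ) :=
    continuous_const.mul ((cB.norm.pow 2).mul (gd_cont _ _ _))
  have hpt : ∀ φ, δ * ‖A φ * (starRingEnd ℂ) (B φ)‖ ≤
      l / 2 * (‖A φ‖ ^ 2 * gd k ph (1 / 2) φ) + l⁻¹ / 2 * (‖B φ‖ ^ 2 * gd k ph (-(1 / 2)) φ) := by
    intro φ
    rw [norm_mul, Complex.norm_conj]
    set X := ‖A φ‖
    set Y := ‖B φ‖
    have hX : 0 ≤ X := norm_nonneg _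
    have hY : 0 ≤ Y := norm_nonneg _
    have hcos := Real.abs_cos_le_one (3 * φ + ph)
    obtain ⟨hc1, hc2⟩ := abs_le.1 hcos
    set c := Real.cos (3 * φ + ph) with hcdef
    have e1 : gd k ph (1 / 2) φ = 1 + 3 / 2 * k * c := by
      unfold gd
      rw [← hcdef]
      ring
    have e2 : gd k ph (-(1 / 2)) φ = 1 - 3 / 2 * k * c := by
      unfold gd
      rw [← hcdef]
      ring
    rw [e1, e2]
    have hcc : c ^ 2 ≤ 1 := by nlinarith
    have hq2 : (3 / 2 * k * c) ^ 2 ≤ 9 / 4 * k ^ 2 := by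
      have : k ^ 2 * c ^ 2 ≤ k ^ 2 * 1 := mul_le_mul_of_nonneg_left hcc (sq_nonneg k)
      nlinarith
    have hk1 : 9 / 4 * k ^ 2 < 1 := by
      have := pow_pos hδ 2
      linarith
    have hq1 : |3 / 2 * k * c| < 1 := by
      rw [← sq_lt_one_iff_abs_lt_one]
      linarith
    obtain ⟨hqa, hqb⟩ := abs_lt.1 hq1
    set q := 3 / 2 * k * c
    have hli : 0 < l⁻¹ := inv_pos.2 hl
    have hll : l * l⁻¹ = 1 := mul_inv_cancel₀ hl.ne'
    set u := l * (X ^ 2 * (1 + q)) with hu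
    set v := l⁻¹ * (Y ^ 2 * (1 - q)) with hv
    have hu0 : 0 ≤ u := mul_nonneg hl.le (mul_nonneg (sq_nonneg _) (by linarith))
    have hv0 : 0 ≤ v := mul_nonneg hli.le (mul_nonneg (sq_nonneg _) (by linarith))
    have huv : u * v = (X * Y) ^ 2 * (1 - q ^ 2) := by
      have : u * v = (l * l⁻¹) * ((X * Y) ^ 2 * (1 - q ^ 2)) := by rw [hu, hv]; ring
      rw [this, hll, one_mul]
    have h3 : (2 * (δ * (X * Y))) ^ 2 ≤ (u + v) ^ 2 := by
      have h4 : (X * Y) ^ 2 * δ ^ 2 ≤ (X * Y) ^ 2 * (1 - q ^ 2) :=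
        mul_le_mul_of_nonneg_left (by linarith) (sq_nonneg _)
      nlinarith [sq_nonneg (u - v)]
    have h5 : 2 * (δ * (X * Y)) ≤ u + v :=
      (pow_le_pow_iff_left₀ (by positivity) (by linarith) two_ne_zero).1 h3
    rw [hu, hv] at h5
    linarith
  have h1 : δ * ‖av (fun φ => A φ * (starRingEnd ℂ) (B φ))‖ ≤
      1 / (2 * Real.pi) * ∫ φ in (0 : ℝ)..(2 * Real.pi), δ * ‖A φ * (starRingEnd ℂ) (B φ)‖ := by
    unfold av
    rw [norm_mul]
    have hn : ‖(1 / (2 * Real.pi) : ℂ)‖ = 1 / (2 * Real.pi) := by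
      rw [norm_div, norm_mul, norm_one, Complex.norm_real, Complex.norm_ofNat,
        Real.norm_of_nonneg hpi.le]
    rw [hn, intervalIntegral.integral_const_mul]
    have h2 := intervalIntegral.norm_integral_le_integral_norm (μ := volume)
      (f := fun φ => A φ * (starRingEnd ℂ) (B φ)) (show (0 : ℝ) ≤ 2 * Real.pi by positivity)
    calc δ * (1 / (2 * Real.pi) * ‖∫ φ in (0 : ℝ)..(2 * Real.pi), A φ * (starRingEnd ℂ) (B φ)‖)
        ≤ δ * (1 / (2 * Real.pi) *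
            ∫ φ in (0 : ℝ)..(2 * Real.pi), ‖A φ * (starRingEnd ℂ) (B φ)‖) := by gcongr
      _ = _ := by ring
  refine h1.trans ?_
  have h2 : ∫ φ in (0 : ℝ)..(2 * Real.pi), δ * ‖A φ * (starRingEnd ℂ) (B φ)‖ ≤
      ∫ φ in (0 : ℝ)..(2 * Real.pi), (l / 2 * (‖A φ‖ ^ 2 * gd k ph (1 / 2) φ) +
        l⁻¹ / 2 * (‖B φ‖ ^ 2 * gd k ph (-(1 / 2)) φ)) :=
    intervalIntegral.integral_mono_on (by positivity) (cN.intervalIntegrable _ _)
      ((c1.add c2).intervalIntegrable _ _) fun φ _ => hpt φ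
  have h3 : ∫ φ in (0 : ℝ)..(2 * Real.pi), (l / 2 * (‖A φ‖ ^ 2 * gd k ph (1 / 2) φ) +
        l⁻¹ / 2 * (‖B φ‖ ^ 2 * gd k ph (-(1 / 2)) φ)) =
      l / 2 * (2 * Real.pi * ∑ m ∈ S, ‖a m‖ ^ 2) + l⁻¹ / 2 * (2 * Real.pi * ∑ n ∈ T, ‖b n‖ ^ 2) := by
    rw [intervalIntegral.integral_add (c1.intervalIntegrable _ _) (c2.intervalIntegrable _ _),
      intervalIntegral.integral_const_mul, intervalIntegral.integral_const_mul,
      tp_cov, tp_cov]
  rw [h3] at h2
  refine (mul_le_mul_of_nonneg_left h2 (by positivity)).trans (le_of_eq ?_)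
  field_simp

/-- the kernel with the weight `x ^ (|m| + |n| - 1)` -/
theorem same_pt (d k ph δ : ℝ) (hδ : 0 < δ) (hk : δ ^ 2 ≤ 1 - 9 / 4 * k ^ 2) (S T : Finset ℤ)
    (a b : ℤ → ℂ) (hS : ∀ m ∈ S, 1 ≤ m.natAbs) (x : ℝ) (hx : 0 < x) (l : ℝ) (hl : 0 < l) :
    δ * ‖∑ m ∈ S, ∑ n ∈ T, ((x ^ (m.natAbs + n.natAbs - 1) : ℝ) : ℂ) *
        (a m * (starRingEnd ℂ) (b n) * CS d k ph m n)‖ ≤
      (l * ∑ m ∈ S, ‖a m‖ ^ 2 * x ^ (2 * m.natAbs) +
        l⁻¹ * ∑ n ∈ T, ‖b n‖ ^ 2 * x ^ (2 * n.natAbs)) / (2 * x) := by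
  have h := CS_bd d k ph δ hδ hk S T (fun m => ((x ^ m.natAbs : ℝ) : ℂ) * a m)
    (fun n => ((x ^ n.natAbs : ℝ) : ℂ) * b n) l hl
  have e1 : ∀ (c : ℤ → ℂ) (m : ℤ), ‖((x ^ m.natAbs : ℝ) : ℂ) * c m‖ ^ 2 =
      ‖c m‖ ^ 2 * x ^ (2 * m.natAbs) := by
    intro c m
    rw [norm_mul, Complex.norm_real, Real.norm_eq_abs, abs_of_nonneg (by positivity), mul_pow,
      ← pow_mul, mul_comm m.natAbs 2]
    ring
  simp_rw [e1] at h
  have e2 : ∑ m ∈ S, ∑ n ∈ T, ((x ^ m.natAbs : ℝ) : ℂ) * a m *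
      (starRingEnd ℂ) (((x ^ n.natAbs : ℝ) : ℂ) * b n) * CS d k ph m n =
      (x : ℂ) * ∑ m ∈ S, ∑ n ∈ T, ((x ^ (m.natAbs + n.natAbs - 1) : ℝ) : ℂ) *
        (a m * (starRingEnd ℂ) (b n) * CS d k ph m n) := by
    rw [Finset.mul_sum]
    refine Finset.sum_congr rfl fun m hm => ?_
    rw [Finset.mul_sum]
    refine Finset.sum_congr rfl fun n _ => ?_
    have h1 := hS m hm
    have e3 : x ^ m.natAbs * x ^ n.natAbs = x * x ^ (m.natAbs + n.natAbs - 1) := by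
      rw [← pow_add, ← pow_succ']
      congr 1
      omega
    have e4 : ((x ^ m.natAbs : ℝ) : ℂ) * ((x ^ n.natAbs : ℝ) : ℂ) =
        (x : ℂ) * ((x ^ (m.natAbs + n.natAbs - 1) : ℝ) : ℂ) := by exact_mod_cast e3
    rw [map_mul, Complex.conj_ofReal]
    linear_combination (a m * (starRingEnd ℂ) (b n) * CS d k ph m n) * e4
  rw [e2, norm_mul, Complex.norm_real, Real.norm_eq_abs, abs_of_pos hx] at h
  rw [le_div_iff₀ (by positivity)]
  linarith

theorem int_pow_one (N : ℕ) (hN : 1 ≤ N) : ∫ x in (0 : ℝ)..1, x ^ (N - 1) = 1 / (N : ℝ) := by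
  rw [integral_pow]
  have : N - 1 + 1 = N := by omega
  rw [this]
  have h2 : ((N - 1 : ℕ) : ℝ) + 1 = N := by
    rw [Nat.cast_sub hN]
    push_cast
    ring
  rw [h2, one_pow, zero_pow (by omega), sub_zero]

/-- the kernel with the weight `1 / (|m| + |n|)` as an integral -/
theorem same_int (d k ph : ℝ) (S T : Finset ℤ) (a b : ℤ → ℂ) (hS : ∀ m ∈ S, 1 ≤ m.natAbs) :
    ∫ x in (0 : ℝ)..1, ∑ m ∈ S, ∑ n ∈ T, ((x ^ (m.natAbs + n.natAbs - 1) : ℝ) : ℂ) *
        (a m * (starRingEnd ℂ) (b n) * CS d k ph m n) =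
      ∑ m ∈ S, ∑ n ∈ T, (1 / ((m.natAbs + n.natAbs : ℕ) : ℂ)) *
        (a m * (starRingEnd ℂ) (b n) * CS d k ph m n) := by
  have hc : ∀ (m n : ℤ), Continuous fun x : ℝ => ((x ^ (m.natAbs + n.natAbs - 1) : ℝ) : ℂ) *
        (a m * (starRingEnd ℂ) (b n) * CS d k ph m n) := by
    intro m n
    exact (Complex.continuous_ofReal.comp (continuous_pow _)).mul continuous_const
  rw [intervalIntegral.integral_finsetSum]
  · refine Finset.sum_congr rfl fun m hm => ?_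
    rw [intervalIntegral.integral_finsetSum]
    · refine Finset.sum_congr rfl fun n _ => ?_
      rw [intervalIntegral.integral_mul_const, intervalIntegral.integral_ofReal,
        int_pow_one _ (by have := hS m hm; omega)]
      push_cast
      ring
    · intro n _
      exact (hc m n).intervalIntegrable _ _
  · intro m _
    exact (continuous_finsetSum _ fun n _ => hc m n).intervalIntegrable _ _

/-- **indices of one sign, weights `1 / |m|`** -/
theorem same_bd (d k ph δ : ℝ) (hδ : 0 < δ) (hk : δ ^ 2 ≤ 1 - 9 / 4 * k ^ 2) (S T : Finset ℤ)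
    (a b : ℤ → ℂ) (hS : ∀ m ∈ S, 1 ≤ m.natAbs) (hT : ∀ m ∈ T, 1 ≤ m.natAbs) (l : ℝ) (hl : 0 < l) :
    δ * ‖∑ m ∈ S, ∑ n ∈ T, (1 / ((m.natAbs + n.natAbs : ℕ) : ℂ)) *
        (a m * (starRingEnd ℂ) (b n) * CS d k ph m n)‖ ≤
      (l * ∑ m ∈ S, ‖a m‖ ^ 2 / (m.natAbs : ℝ) + l⁻¹ * ∑ n ∈ T, ‖b n‖ ^ 2 / (n.natAbs : ℝ)) / 4 := by
  rw [← same_int d k ph S T a b hS]
  set f : ℝ → ℂ := fun x => ∑ m ∈ S, ∑ n ∈ T, ((x ^ (m.natAbs + n.natAbs - 1) : ℝ) : ℂ) *
        (a m * (starRingEnd ℂ) (b n) * CS d k ph m n) with hf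
  have cf : Continuous f := by
    refine continuous_finsetSum _ fun m _ => continuous_finsetSum _ fun n _ => ?_
    exact (Complex.continuous_ofReal.comp (continuous_pow _)).mul continuous_const
  set g : ℝ → ℝ := fun x => l / 2 * ∑ m ∈ S, ‖a m‖ ^ 2 * x ^ (2 * m.natAbs - 1) +
        l⁻¹ / 2 * ∑ n ∈ T, ‖b n‖ ^ 2 * x ^ (2 * n.natAbs - 1) with hg
  have cs : ∀ (U : Finset ℤ) (c : ℤ → ℂ), Continuous fun x : ℝ =>
      ∑ m ∈ U, ‖c m‖ ^ 2 * x ^ (2 * m.natAbs - 1) := fun U c =>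
    continuous_finsetSum _ fun m _ => continuous_const.mul (continuous_pow _)
  have cg : Continuous g := (continuous_const.mul (cs S a)).add (continuous_const.mul (cs T b))
  have hle : ∀ x ∈ Set.Icc (0 : ℝ) 1, δ * ‖f x‖ ≤ g x := by
    have hopen : ∀ x, 0 < x → δ * ‖f x‖ ≤ g x := by
      intro x hx
      refine (same_pt d k ph δ hδ hk S T a b hS x hx l hl).trans (le_of_eq ?_)
      have e : ∀ (U : Finset ℤ) (c : ℤ → ℂ), (∀ m ∈ U, 1 ≤ m.natAbs) →
          ∑ m ∈ U, ‖c m‖ ^ 2 * x ^ (2 * m.natAbs) =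
          x * ∑ m ∈ U, ‖c m‖ ^ 2 * x ^ (2 * m.natAbs - 1) := by
        intro U c hU
        rw [Finset.mul_sum]
        refine Finset.sum_congr rfl fun m hm => ?_
        have h1 := hU m hm
        have : x ^ (2 * m.natAbs) = x * x ^ (2 * m.natAbs - 1) := by
          rw [← pow_succ']
          congr 1
          omega
        rw [this]
        ring
      rw [e S a hS, e T b hT, hg]
      field_simp
    intro x hx
    rcases hx.1.eq_or_lt with h0 | h0
    · rw [← h0]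
      have hcl : IsClosed {x : ℝ | δ * ‖f x‖ ≤ g x} :=
        isClosed_le (continuous_const.mul cf.norm) cg
      have hsub : Set.Ioi (0 : ℝ) ⊆ {x : ℝ | δ * ‖f x‖ ≤ g x} := fun y hy => hopen y hy
      have := hcl.closure_subset_iff.2 hsub
      rw [closure_Ioi] at this
      exact this Set.self_mem_Ici
    · exact hopen x h0
  have h1 : δ * ‖∫ x in (0 : ℝ)..1, f x‖ ≤ ∫ x in (0 : ℝ)..1, g x := by
    have h2 := intervalIntegral.norm_integral_le_integral_norm (μ := volume) (f := f)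
      (show (0 : ℝ) ≤ 1 by norm_num)
    calc δ * ‖∫ x in (0 : ℝ)..1, f x‖ ≤ δ * ∫ x in (0 : ℝ)..1, ‖f x‖ := by gcongr
      _ = ∫ x in (0 : ℝ)..1, δ * ‖f x‖ := by rw [intervalIntegral.integral_const_mul]
      _ ≤ ∫ x in (0 : ℝ)..1, g x :=
          intervalIntegral.integral_mono_on (by norm_num)
            ((continuous_const.mul cf.norm).intervalIntegrable _ _) (cg.intervalIntegrable _ _) hle
  refine h1.trans (le_of_eq ?_)
  have e3 : ∀ (U : Finset ℤ) (c : ℤ → ℂ), (∀ m ∈ U, 1 ≤ m.natAbs) →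
      ∫ x in (0 : ℝ)..1, ∑ m ∈ U, ‖c m‖ ^ 2 * x ^ (2 * m.natAbs - 1) =
      (∑ m ∈ U, ‖c m‖ ^ 2 / (m.natAbs : ℝ)) / 2 := by
    intro U c hU
    rw [intervalIntegral.integral_finsetSum]
    · rw [Finset.sum_div]
      refine Finset.sum_congr rfl fun m hm => ?_
      have h1 := hU m hm
      rw [intervalIntegral.integral_const_mul, int_pow_one _ (by omega)]
      push_cast
      ring
    · intro m _
      exact (continuous_const.mul (continuous_pow _)).intervalIntegrable _ _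
  have ca : Continuous fun x : ℝ => l / 2 * ∑ m ∈ S, ‖a m‖ ^ 2 * x ^ (2 * m.natAbs - 1) :=
    continuous_const.mul (cs S a)
  have cb : Continuous fun x : ℝ => l⁻¹ / 2 * ∑ n ∈ T, ‖b n‖ ^ 2 * x ^ (2 * n.natAbs - 1) :=
    continuous_const.mul (cs T b)
  have e4 : ∫ x in (0 : ℝ)..1, g x =
      (∫ x in (0 : ℝ)..1, l / 2 * ∑ m ∈ S, ‖a m‖ ^ 2 * x ^ (2 * m.natAbs - 1)) +
      ∫ x in (0 : ℝ)..1, l⁻¹ / 2 * ∑ n ∈ T, ‖b n‖ ^ 2 * x ^ (2 * n.natAbs - 1) :=
    intervalIntegral.integral_add (ca.intervalIntegrable _ _) (cb.intervalIntegrable _ _)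
  rw [e4, intervalIntegral.integral_const_mul, intervalIntegral.integral_const_mul, e3 S a hS,
    e3 T b hT]
  ring

/-- **indices of one sign, rectangles** -/
theorem same_rect (d k ph δ : ℝ) (hδ : 0 < δ) (hk : δ ^ 2 ≤ 1 - 9 / 4 * k ^ 2) (S T : Finset ℤ)
    (a b : ℤ → ℂ) (M L : ℕ) (hM : 1 ≤ M) (hS : ∀ m ∈ S, M ≤ m.natAbs) (hT : ∀ m ∈ T, L ≤ m.natAbs)
    (l : ℝ) (hl : 0 < l) :
    δ * ‖∑ m ∈ S, ∑ n ∈ T, (1 / ((m.natAbs + n.natAbs : ℕ) : ℂ)) *
        (a m * (starRingEnd ℂ) (b n) * CS d k ph m n)‖ ≤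
      (l * ∑ m ∈ S, ‖a m‖ ^ 2 + l⁻¹ * ∑ n ∈ T, ‖b n‖ ^ 2) / (2 * (M + L : ℕ)) := by
  have hS1 : ∀ m ∈ S, 1 ≤ m.natAbs := fun m hm => hM.trans (hS m hm)
  rw [← same_int d k ph S T a b hS1]
  set f : ℝ → ℂ := fun x => ∑ m ∈ S, ∑ n ∈ T, ((x ^ (m.natAbs + n.natAbs - 1) : ℝ) : ℂ) *
        (a m * (starRingEnd ℂ) (b n) * CS d k ph m n) with hf
  have cf : Continuous f := by
    refine continuous_finsetSum _ fun m _ => continuous_finsetSum _ fun n _ => ?_
    exact (Complex.continuous_ofReal.comp (continuous_pow _)).mul continuous_const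
  set C : ℝ := (l * ∑ m ∈ S, ‖a m‖ ^ 2 + l⁻¹ * ∑ n ∈ T, ‖b n‖ ^ 2) / 2 with hC
  set g : ℝ → ℝ := fun x => C * x ^ (M + L - 1) with hg
  have cg : Continuous g := continuous_const.mul (continuous_pow _)
  have hli : 0 < l⁻¹ := inv_pos.2 hl
  have hle : ∀ x ∈ Set.Ioc (0 : ℝ) 1, δ * ‖f x‖ ≤ g x := by
    intro x hx
    have hx0 := hx.1
    have hxM : 0 < x ^ M := pow_pos hx0 M
    have hxL : 0 < x ^ L := pow_pos hx0 L
    have h := same_pt d k ph δ hδ hk S T a b hS1 x hx0 (l * (x ^ L / x ^ M)) (by positivity)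
    have e1 : l * (x ^ L / x ^ M) * ∑ m ∈ S, ‖a m‖ ^ 2 * x ^ (2 * m.natAbs) ≤
        l * (x ^ (M + L) * ∑ m ∈ S, ‖a m‖ ^ 2) := by
      rw [mul_assoc]
      apply mul_le_mul_of_nonneg_left _ hl.le
      rw [Finset.mul_sum, Finset.mul_sum]
      refine Finset.sum_le_sum fun m hm => ?_
      have h1 : x ^ (2 * m.natAbs) ≤ x ^ (M + M) :=
        pow_le_pow_of_le_one hx0.le hx.2 (by have := hS m hm; omega)
      have h2 : x ^ L / x ^ M * x ^ (M + M) = x ^ (M + L) := by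
        rw [pow_add, pow_add]
        field_simp
      calc x ^ L / x ^ M * (‖a m‖ ^ 2 * x ^ (2 * m.natAbs))
          ≤ x ^ L / x ^ M * (‖a m‖ ^ 2 * x ^ (M + M)) := by gcongr
        _ = ‖a m‖ ^ 2 * (x ^ L / x ^ M * x ^ (M + M)) := by ring
        _ = x ^ (M + L) * ‖a m‖ ^ 2 := by rw [h2]; ring
    have e2 : (l * (x ^ L / x ^ M))⁻¹ * ∑ n ∈ T, ‖b n‖ ^ 2 * x ^ (2 * n.natAbs) ≤
        l⁻¹ * (x ^ (M + L) * ∑ n ∈ T, ‖b n‖ ^ 2) := by
      have e0 : (l * (x ^ L / x ^ M))⁻¹ = l⁻¹ * (x ^ M / x ^ L) := by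
        rw [mul_inv, inv_div]
      rw [e0, mul_assoc]
      apply mul_le_mul_of_nonneg_left _ hli.le
      rw [Finset.mul_sum, Finset.mul_sum]
      refine Finset.sum_le_sum fun m hm => ?_
      have h1 : x ^ (2 * m.natAbs) ≤ x ^ (L + L) :=
        pow_le_pow_of_le_one hx0.le hx.2 (by have := hT m hm; omega)
      have h2 : x ^ M / x ^ L * x ^ (L + L) = x ^ (M + L) := by
        rw [pow_add, pow_add]
        field_simp
      calc x ^ M / x ^ L * (‖b m‖ ^ 2 * x ^ (2 * m.natAbs))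
          ≤ x ^ M / x ^ L * (‖b m‖ ^ 2 * x ^ (L + L)) := by gcongr
        _ = ‖b m‖ ^ 2 * (x ^ M / x ^ L * x ^ (L + L)) := by ring
        _ = x ^ (M + L) * ‖b m‖ ^ 2 := by rw [h2]; ring
    refine h.trans ?_
    rw [div_le_iff₀ (by positivity)]
    refine (add_le_add e1 e2).trans (le_of_eq ?_)
    have e3 : x ^ (M + L) = x * x ^ (M + L - 1) := by
      rw [← pow_succ']
      congr 1
      omega
    rw [hg, hC, e3]
    ring
  have h1 : δ * ‖∫ x in (0 : ℝ)..1, f x‖ ≤ ∫ x in (0 : ℝ)..1, g x := by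
    have h2 := intervalIntegral.norm_integral_le_integral_norm (μ := volume) (f := f)
      (show (0 : ℝ) ≤ 1 by norm_num)
    calc δ * ‖∫ x in (0 : ℝ)..1, f x‖ ≤ δ * ∫ x in (0 : ℝ)..1, ‖f x‖ := by gcongr
      _ = ∫ x in (0 : ℝ)..1, δ * ‖f x‖ := by rw [intervalIntegral.integral_const_mul]
      _ ≤ ∫ x in (0 : ℝ)..1, g x := by
          apply intervalIntegral.integral_mono_on_of_le_Ioo (by norm_num)
            ((continuous_const.mul cf.norm).intervalIntegrable _ _) (cg.intervalIntegrable _ _)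
          intro x hx
          exact hle x ⟨hx.1, hx.2.le⟩
  refine h1.trans (le_of_eq ?_)
  rw [hg, intervalIntegral.integral_const_mul, int_pow_one _ (by omega), hC]
  have : ((M + L : ℕ) : ℝ) ≠ 0 := by
    have : 0 < M + L := by omega
    positivity
  push_cast at this ⊢
  field_simp

end Pool.Agent.Helper20.SH
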