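import Pool.Agent.Helper20.SH.FRA

/-!
# Project RC, SHARP, zone II: the far rows of `NF`, windows `K` (odd part) and `L` (even part) separate
-/

set_option autoImplicit false

open MeasureTheory Set Filter Topology

namespace Pool.Agent.Helper20.SH

open Helper49.LT hiding sg
open Helper49.RC (om)
open Pool.Agent.Helper99.RC
open Helper95.RC
open Helper95.SH (gNA gNB gA gB C1 C2 Arr wm_odd CD sV hV pV rV bp br nt)
open Helper49.Sharp

/-- the linear form of the far rows -/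
noncomputable def RG (d k ph : ℝ) (K : ℕ) (b : ℤ → ℂ) (m : ℤ) : ℂ :=
  ∑ n ∈ Finset.Icc (-(K : ℤ)) K, (2 : ℂ) / ((m + n : ℤ) : ℂ) * ((starRingEnd ℂ) (b n) * CS d k ph m n)

theorem RG_add (d k ph : ℝ) (K : ℕ) (b b' : ℤ → ℂ) (m : ℤ) :
    RG d k ph K (fun n => b n + b' n) m = RG d k ph K b m + RG d k ph K b' m := by
  unfold RG
  rw [← Finset.sum_add_distrib]
  exact Finset.sum_congr rfl fun n _ => by rw [map_add]; ring

theorem RG_win (d k ph : ℝ) {K N : ℕ} (h : K ≤ N) {b : ℤ → ℂ} (hb : Sup K b) (m : ℤ) :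
    RG d k ph N b m = RG d k ph K b m := by
  unfold RG
  symm
  apply Finset.sum_subset
  · intro n hn
    rw [Finset.mem_Icc] at hn ⊢
    omega
  · intro n _ hn
    rw [hb n hn, map_zero, zero_mul, mul_zero]

/-- even and odd part of an array -/
def evp (b : ℤ → ℂ) (n : ℤ) : ℂ := if n % 2 = 0 then b n else 0
def odp (b : ℤ → ℂ) (n : ℤ) : ℂ := if n % 2 = 0 then 0 else b n

theorem ev_od (b : ℤ → ℂ) : (fun n => evp b n + odp b n) = b := by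
  funext n
  unfold evp odp
  split_ifs <;> simp

theorem evp_conj (b : ℤ → ℂ) : (evp fun n => (starRingEnd ℂ) (b n)) = fun n => (starRingEnd ℂ) (evp b n) := by
  funext n
  unfold evp
  split_ifs <;> simp

theorem odp_conj (b : ℤ → ℂ) : (odp fun n => (starRingEnd ℂ) (b n)) = fun n => (starRingEnd ℂ) (odp b n) := by
  funext n
  unfold odp
  split_ifs <;> simp

section

variable {k s E s' E' : ℝ} {M K L : ℕ}

theorem FarP.base (h : FarP k s E M K) (d ph : ℝ) (b : ℤ → ℂ) :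
    Tb M (RG d k ph (K + 3) b)
      (CF s E M (K + 3) * ∑ n ∈ Finset.Icc (-((K + 3 : ℕ) : ℤ)) ((K + 3 : ℕ) : ℤ), xx (E * s) M n * ‖b n‖ ^ 2) :=
  fun F hF => far_base d k ph s E h.hs h.hE h.hEs M (K + 3) h.hKM h.hg F hF b

theorem FarP.neg (h : FarP k s E M K) : FarP (-k) s E M K :=
  ⟨h.hs, by rw [abs_neg]; exact h.hE, h.hEs, h.hKM, h.hg⟩

theorem FarP.CF0 (h : FarP k s E M K) : 0 ≤ CF s E M (K + 3) := by
  have hE0 := (Real.exp_pos _).trans_le h.hE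
  have hs0 : 0 < s := by linarith [h.hs]
  have hg0 : 0 < E * s := by positivity
  have q0 : 0 ≤ E / s := by positivity
  have q1 : E / s < 1 := by rw [div_lt_one hs0]; exact h.hEs
  have q6 : (E / s) ^ 6 < 1 := pow_lt_one₀ q0 q1 (by norm_num)
  have m1 : (0 : ℝ) < (M : ℝ) - (K + 3 : ℕ) := by
    have : ((K + 3 : ℕ) : ℝ) < M := by exact_mod_cast h.hKM
    linarith
  have g0 : 0 ≤ (1 + 1 / ((M : ℝ) - (K + 3 : ℕ))) / (E * s) := by positivity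
  have g1 : (1 + 1 / ((M : ℝ) - (K + 3 : ℕ))) / (E * s) < 1 := by rw [div_lt_one hg0]; exact h.hg
  have g3 : ((1 + 1 / ((M : ℝ) - (K + 3 : ℕ))) / (E * s)) ^ 3 < 1 := pow_lt_one₀ g0 g1 (by norm_num)
  have a1 : 0 < 1 - (E / s) ^ 6 := by linarith
  have a2 : 0 < 1 - ((1 + 1 / ((M : ℝ) - (K + 3 : ℕ))) / (E * s)) ^ 3 := by linarith
  have a3 : (0 : ℝ) < (M : ℝ) + (K + 3 : ℕ) := by
    have : (0 : ℝ) ≤ ((K + 3 : ℕ) : ℝ) := Nat.cast_nonneg _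
    linarith
  unfold CF
  positivity

theorem FarP.g0 (h : FarP k s E M K) : 0 < E * s := by
  have hE0 := (Real.exp_pos _).trans_le h.hE
  have hs0 : 0 < s := by linarith [h.hs]
  positivity

theorem FarP.CX0 (h : FarP k s E M K) {t : ℝ} : 0 ≤ CX t s E M K := by
  have := h.CF0
  unfold CX
  positivity

/-- a far row of an array, even and odd part with their windows -/
theorem RG_split (h : FarP k s E M K) (h' : FarP k s' E' M L) (d ph : ℝ) {b : ℤ → ℂ} (hb : Sup (max K L + 3) b)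
    (he : Sup (K + 3) (evp b)) (ho : Sup (L + 3) (odp b)) {SS SB : ℝ}
    (hS : ∑ n ∈ Finset.Icc (-((K + 3 : ℕ) : ℤ)) ((K + 3 : ℕ) : ℤ), xx (E * s) M n * ‖evp b n‖ ^ 2 ≤ SS)
    (hB : ∑ n ∈ Finset.Icc (-((L + 3 : ℕ) : ℤ)) ((L + 3 : ℕ) : ℤ), xx (E' * s') M n * ‖odp b n‖ ^ 2 ≤ SB) :
    Tb M (RG d k ph (max K L + 3) b) (5 / 4 * (CF s E M (K + 3) * SS) + 5 * (CF s' E' M (L + 3) * SB)) := by
  have k1 := (h.base d ph (evp b)).mono le_rfl (mul_le_mul_of_nonneg_left hS h.CF0)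
  have k2 := (h'.base d ph (odp b)).mono le_rfl (mul_le_mul_of_nonneg_left hB h'.CF0)
  have k3 := k1.addw k2 (th := 1 / 4) (by norm_num)
  refine (k3.congr fun m _ => ?_).mono le_rfl (le_of_eq ?_)
  · have e1 : RG d k ph (max K L + 3) b m =
        RG d k ph (max K L + 3) (evp b) m + RG d k ph (max K L + 3) (odp b) m := by
      rw [← RG_add, ev_od]
    rw [e1, RG_win d k ph (by omega) he, RG_win d k ph (by omega) ho]
  · norm_num

end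

/-! ### the families of the head -/

/-- the forms of the head -/
noncomputable def SS (t g : ℝ) (M K : ℕ) (s : ℤ → ℂ) : ℝ := ∑ l ∈ Finset.Icc (-(K : ℤ)) K, xs t g M l * ‖s l‖ ^ 2
noncomputable def SB (t g : ℝ) (M L : ℕ) (p r : ℤ → ℂ) : ℝ :=
  3 * (xs t g M 0 + ∑ l ∈ Finset.Icc (-(L : ℤ)) L, xs t g M l * ‖p l‖ ^ 2
    + 49 / 16 * ∑ l ∈ Finset.Icc (-(L : ℤ)) L, xs t g M l * ‖r l‖ ^ 2)

section

variable {N K L : ℕ} {p r s : ℤ → ℂ} {η : ℂ} {C : ℤ → ℂ}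

theorem par_even (a : Arr N p r s) {n : ℤ} (hn : n % 2 = 0) :
    Helper95.SH.wm η d0 (n - 1) = 0 ∧ Helper95.SH.wm η p (n - 1) = 0 ∧ Helper95.SH.wm η r (n - 1) = 0 := by
  have h : ¬ Even (n - 1) := by
    rw [Int.even_iff]
    omega
  exact ⟨wm_odd d0_odd h, wm_odd a.ep h, wm_odd a.er h⟩

theorem par_odd (a : Arr N p r s) {n : ℤ} (hn : ¬ n % 2 = 0) : Helper95.SH.wm η s (n - 1) = 0 :=
  wm_even a.es (by
    rw [Int.even_iff]
    omega)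

theorem ev_le (a : Arr N p r s)
    (hC : ∀ m, ‖C m‖ ≤ ‖Helper95.SH.wm η d0 (m - 1)‖ + ‖Helper95.SH.wm η p (m - 1)‖ +
      ‖kq 2‖ * ‖Helper95.SH.wm η r (m - 1)‖ + ‖Helper95.SH.wm η s (m - 1)‖) (n : ℤ) :
    ‖evp C n‖ ≤ ‖Helper95.SH.wm η s (n - 1)‖ := by
  unfold evp
  split_ifs with h
  · obtain ⟨h0, h1, h2⟩ := par_even (η := η) a h
    have := hC n
    rw [h0, h1, h2, norm_zero, mul_zero, add_zero, zero_add, zero_add] at this
    exact this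
  · rw [norm_zero]
    exact norm_nonneg _

theorem od_le (a : Arr N p r s)
    (hC : ∀ m, ‖C m‖ ≤ ‖Helper95.SH.wm η d0 (m - 1)‖ + ‖Helper95.SH.wm η p (m - 1)‖ +
      ‖kq 2‖ * ‖Helper95.SH.wm η r (m - 1)‖ + ‖Helper95.SH.wm η s (m - 1)‖) (n : ℤ) :
    ‖odp C n‖ ≤ ‖Helper95.SH.wm η d0 (n - 1)‖ + ‖Helper95.SH.wm η p (n - 1)‖ +
      ‖kq 2‖ * ‖Helper95.SH.wm η r (n - 1)‖ := by
  unfold odp
  split_ifs with h
  · rw [norm_zero]
    positivity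
  · have := hC n
    rw [par_odd (η := η) a h, norm_zero, add_zero] at this
    exact this

theorem wm_out {f : ℤ → ℂ} {K : ℕ} (hf : Sup K f) {n : ℤ} (hn : n ∉ Finset.Icc (-((K + 3 : ℕ) : ℤ)) ((K + 3 : ℕ) : ℤ)) :
    Helper95.SH.wm η f (n - 1) = 0 := by
  rw [Finset.mem_Icc] at hn
  unfold Helper95.SH.wm
  rw [hf (n - 1) (by rw [Finset.mem_Icc]; omega), hf (n - 1 - 2) (by rw [Finset.mem_Icc]; omega),
    hf (n - 1 + 2) (by rw [Finset.mem_Icc]; omega)]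
  ring

theorem ev_sup (a : Arr N p r s) (hs : Sup K s)
    (hC : ∀ m, ‖C m‖ ≤ ‖Helper95.SH.wm η d0 (m - 1)‖ + ‖Helper95.SH.wm η p (m - 1)‖ +
      ‖kq 2‖ * ‖Helper95.SH.wm η r (m - 1)‖ + ‖Helper95.SH.wm η s (m - 1)‖) : Sup (K + 3) (evp C) := fun n hn => by
  have := ev_le a hC n
  rw [wm_out hs hn, norm_zero] at this
  exact norm_le_zero_iff.1 this

theorem od_sup (a : Arr N p r s) (hp : Sup L p) (hr : Sup L r)
    (hC : ∀ m, ‖C m‖ ≤ ‖Helper95.SH.wm η d0 (m - 1)‖ + ‖Helper95.SH.wm η p (m - 1)‖ +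
      ‖kq 2‖ * ‖Helper95.SH.wm η r (m - 1)‖ + ‖Helper95.SH.wm η s (m - 1)‖) : Sup (L + 3) (odp C) := fun n hn => by
  have := od_le a hC n
  rw [wm_out hp hn, wm_out hr hn, wm_out (d0_sup L) hn, norm_zero, mul_zero, add_zero, add_zero] at this
  exact norm_le_zero_iff.1 this

/-- the odd frequencies of a family -/
theorem ev_wt {g : ℝ} (hg : 0 < g) {M : ℕ} (hKM : K + 3 < M) (a : Arr N p r s) (hs : Sup K s)
    (hC : ∀ m, ‖C m‖ ≤ ‖Helper95.SH.wm η d0 (m - 1)‖ + ‖Helper95.SH.wm η p (m - 1)‖ +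
      ‖kq 2‖ * ‖Helper95.SH.wm η r (m - 1)‖ + ‖Helper95.SH.wm η s (m - 1)‖) :
    ∑ n ∈ Finset.Icc (-((K + 3 : ℕ) : ℤ)) ((K + 3 : ℕ) : ℤ), xx g M n * ‖evp C n‖ ^ 2 ≤ SS ‖η‖ g M K s := by
  refine le_trans (Finset.sum_le_sum fun n hn => ?_) (wm_wt hg hKM hs η)
  rw [Finset.mem_Icc] at hn
  have hx : 0 ≤ xx g M n := xx_nonneg hg (by omega)
  exact mul_le_mul_of_nonneg_left (pow_le_pow_left₀ (norm_nonneg _) (ev_le a hC n) 2) hx

/-- the even frequencies of a family -/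
theorem od_wt {g : ℝ} (hg : 0 < g) {M : ℕ} (hLM : L + 3 < M) (a : Arr N p r s) (hp : Sup L p) (hr : Sup L r)
    (hC : ∀ m, ‖C m‖ ≤ ‖Helper95.SH.wm η d0 (m - 1)‖ + ‖Helper95.SH.wm η p (m - 1)‖ +
      ‖kq 2‖ * ‖Helper95.SH.wm η r (m - 1)‖ + ‖Helper95.SH.wm η s (m - 1)‖) :
    ∑ n ∈ Finset.Icc (-((L + 3 : ℕ) : ℤ)) ((L + 3 : ℕ) : ℤ), xx g M n * ‖odp C n‖ ^ 2 ≤ SB ‖η‖ g M L p r := by
  have h0 := wm_wt hg hLM (d0_sup L) η
  have h1 := wm_wt hg hLM hp η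
  have h2 := wm_wt hg hLM hr η
  have e0 : ∑ l ∈ Finset.Icc (-(L : ℤ)) L, xs ‖η‖ g M l * ‖d0 l‖ ^ 2 = xs ‖η‖ g M 0 := by
    rw [Finset.sum_eq_single_of_mem 0 (by rw [Finset.mem_Icc]; omega)]
    · unfold d0
      simp
    · intro l _ hl
      unfold d0
      rw [if_neg hl]
      simp
  rw [e0] at h0
  have key : ∀ n ∈ Finset.Icc (-((L + 3 : ℕ) : ℤ)) ((L + 3 : ℕ) : ℤ), xx g M n * ‖odp C n‖ ^ 2 ≤
      3 * (xx g M n * ‖Helper95.SH.wm η d0 (n - 1)‖ ^ 2 + xx g M n * ‖Helper95.SH.wm η p (n - 1)‖ ^ 2 +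
        49 / 16 * (xx g M n * ‖Helper95.SH.wm η r (n - 1)‖ ^ 2)) := by
    intro n hn
    rw [Finset.mem_Icc] at hn
    have hx : 0 ≤ xx g M n := xx_nonneg hg (by omega)
    have hb : ‖odp C n‖ ^ 2 ≤ 3 * (‖Helper95.SH.wm η d0 (n - 1)‖ ^ 2 + ‖Helper95.SH.wm η p (n - 1)‖ ^ 2 +
        49 / 16 * ‖Helper95.SH.wm η r (n - 1)‖ ^ 2) := by
      have hc := od_le a hC n
      have hq := nsq_kq
      rw [← hq]
      have h2 := pow_le_pow_left₀ (norm_nonneg _) hc 2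
      nlinarith [sq_nonneg (‖Helper95.SH.wm η d0 (n - 1)‖ - ‖Helper95.SH.wm η p (n - 1)‖),
        sq_nonneg (‖Helper95.SH.wm η d0 (n - 1)‖ - ‖kq 2‖ * ‖Helper95.SH.wm η r (n - 1)‖),
        sq_nonneg (‖Helper95.SH.wm η p (n - 1)‖ - ‖kq 2‖ * ‖Helper95.SH.wm η r (n - 1)‖)]
    have := mul_le_mul_of_nonneg_left hb hx
    refine this.trans (le_of_eq ?_)
    ring
  refine (Finset.sum_le_sum key).trans ?_
  rw [← Finset.mul_sum, Finset.sum_add_distrib, Finset.sum_add_distrib, ← Finset.mul_sum]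
  unfold SB
  linarith

end

/-! ### the two families -/

section

variable {c : CD} {d k ph s E s' E' : ℝ} {M K L : ℕ} {p r z : ℤ → ℂ}

/-- **the part of `NF` in the far rows** -/
theorem FarP.two2 (h : FarP k s E M K) (h' : FarP k s' E' M L) (hps : c.P.ps = ps d k ph)
    (a : Arr (max K L) p r z) (hp : Sup L p) (hr : Sup L r) (hz : Sup K z) (c1 c2 : ℂ) :
    Tb (M + 3) (Helper95.SH.wm c.P.eta (fun n => c1 * gA c (max K L) p r z n + c2 * gB c (max K L) p r z n))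
      ((‖c1‖ ^ 2 + ‖c2‖ ^ 2) / 2 * (5 / 4 * (CX ‖c.P.eta‖ s E M K * SS ‖c.P.eta‖ (E * s) M K z)
        + 5 * (CX ‖c.P.eta‖ s' E' M L * SB ‖c.P.eta‖ (E' * s') M L p r))) := by
  set N := max K L with hN
  have hKN : K ≤ N := le_max_left _ _
  have hLN : L ≤ N := le_max_right _ _
  have hNM : N + 3 < M := by
    have h1 := h.hKM
    have h2 := h'.hKM
    rcases max_choice K L with e | e <;> rw [hN, e] <;> assumption
  have s1 := Helper95.SH.C1_sup c.P N a.sp a.sr a.ss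
  have s2 := Helper95.SH.C2_sup c.P N a.sp a.sr a.ss
  have c1n := C1_norm c.P p r z
  have c2n := C2_norm c.P p r z
  have hcj : ∀ C : ℤ → ℂ, (∀ m, ‖C m‖ ≤ ‖Helper95.SH.wm c.P.eta d0 (m - 1)‖ + ‖Helper95.SH.wm c.P.eta p (m - 1)‖ +
      ‖kq 2‖ * ‖Helper95.SH.wm c.P.eta r (m - 1)‖ + ‖Helper95.SH.wm c.P.eta z (m - 1)‖) →
      ∀ m, ‖(starRingEnd ℂ) (C m)‖ ≤ ‖Helper95.SH.wm c.P.eta d0 (m - 1)‖ + ‖Helper95.SH.wm c.P.eta p (m - 1)‖ +
      ‖kq 2‖ * ‖Helper95.SH.wm c.P.eta r (m - 1)‖ + ‖Helper95.SH.wm c.P.eta z (m - 1)‖ := fun C hC m => by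
    rw [Complex.norm_conj]
    exact hC m
  set D0 := 5 / 4 * (CF s E M (K + 3) * SS ‖c.P.eta‖ (E * s) M K z)
    + 5 * (CF s' E' M (L + 3) * SB ‖c.P.eta‖ (E' * s') M L p r) with hD0
  have hA : Tb M (gNA c.P.ps (N + 3) (C1 c.P p r z) (C2 c.P p r z)) D0 := by
    have k1 := RG_split h h' d ph s2 (ev_sup a hz c2n) (od_sup a hp hr c2n)
      (ev_wt h.g0 h.hKM a hz c2n) (od_wt h'.g0 h'.hKM a hp hr c2n)
    intro F hF
    refine le_trans (le_of_eq ?_) (k1 F hF)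
    refine Finset.sum_congr rfl fun m hm => ?_
    rw [hps, gNA_far d k ph (N + 3) (N + 3) le_rfl _ _ s1 s2 m (hNM.trans_le (hF m hm))]
    rfl
  have hB : Tb M (gNB c.P.ps (N + 3) (C1 c.P p r z) (C2 c.P p r z)) D0 := by
    have s1' : Sup (N + 3) (fun n => (starRingEnd ℂ) (C1 c.P p r z n)) := fun n hn => by
      beta_reduce
      rw [s1 n hn, map_zero]
    have c1n' := hcj _ c1n
    have k1 := RG_split h.neg h'.neg d (-ph) s1' (ev_sup a hz c1n') (od_sup a hp hr c1n')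
      (ev_wt h.g0 h.hKM a hz c1n') (od_wt h'.g0 h'.hKM a hp hr c1n')
    intro F hF
    refine le_trans (le_of_eq ?_) (k1 F hF)
    refine Finset.sum_congr rfl fun m hm => ?_
    rw [hps, gNB_far d k ph (N + 3) (N + 3) le_rfl _ _ s1 s2 m (hNM.trans_le (hF m hm))]
    rfl
  have h2 : Tb (M + 1) (fun n => c1 * gA c N p r z n + c2 * gB c N p r z n)
      (2 * (‖c1‖ ^ 2 * D0 + ‖c2‖ ^ 2 * D0)) := fun G hG =>
    two_far _ _ (Real.pi / 3) (2 * Real.pi / 3) c1 c2 M _ _ hA hB G hG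
  refine (h2.wm c.P.eta).mono (by omega) (le_of_eq ?_)
  rw [hD0]
  unfold CX
  ring

end

end Pool.Agent.Helper20.SH
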