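import Pool.Agent.Helper20.SH.Far3
import Pool.Agent.Helper95.SH.HeadT

/-!
# Project RC, SHARP, zone II: the part of `NF` in the far rows of the head/tail theorem

`NFX_far`, `NFY_far`, `NFZ_far`: quadratic mean of the rows `wm (gA - gB)`, `sy (wm (om gA + om² gB))`,
`sy (wm (conj kq gA + kq gB))` beyond a window, for head arrays.
-/

set_option autoImplicit false

open MeasureTheory Set Filter Topology

namespace Pool.Agent.Helper20.SH

open Helper49.LT hiding sg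
open Helper49.RC (om)
open Pool.Agent.Helper99.RC
open Helper95.RC
open Helper95.SH (gNA gNB wm sy gA gB C1 C2 Arr wm_odd CD)
open Helper49.Sharp
open Helper56.RC (fc)
open Helper87.RC (BM)

/-! ### the weights -/

theorem xw_nonneg {g : ℝ} (hg : 0 < g) {M : ℕ} {n : ℤ} (hn : -(M : ℤ) < n) : 0 ≤ xw g M n := by
  have h1 : (0 : ℤ) < (M : ℤ) + n := by omega
  have h2 : (0 : ℝ) < (M : ℝ) + n := by exact_mod_cast h1
  unfold xw
  positivity

theorem xx_nonneg {g : ℝ} (hg : 0 < g) {M : ℕ} {n : ℤ} (hn : n.natAbs < M) : 0 ≤ xx g M n :=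
  add_nonneg (xw_nonneg hg (by omega)) (xw_nonneg hg (by omega))

theorem xx_neg (g : ℝ) (M : ℕ) (n : ℤ) : xx g M (-n) = xx g M n := by
  unfold xx
  rw [neg_neg, add_comm]

/-- the weight of a coefficient -/
noncomputable def xs (t g : ℝ) (M : ℕ) (l : ℤ) : ℝ :=
  (1 + 2 * t) * (xx g M (l + 1) + t * (xx g M (l - 1) + xx g M (l + 3)))

theorem win_shiftR {f : ℤ → ℝ} {M M' : ℕ} (k : ℤ) (h1 : ∀ n, n ∉ Finset.Icc (-(M : ℤ)) M → f n = 0)
    (h2 : ∀ n, n ∉ Finset.Icc (-(M' : ℤ)) M' → f (n + k) = 0) :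
    ∑ n ∈ Finset.Icc (-(M' : ℤ)) M', f (n + k) = ∑ n ∈ Finset.Icc (-(M : ℤ)) M, f n := by
  rw [Helper95.SH.sum_win h1, Helper95.SH.sum_win h2]
  exact (Equiv.addRight k).tsum_eq f

/-- weighted square sum after the band operator and the shift by one -/
theorem wm_wt {g : ℝ} (hg : 0 < g) {M K : ℕ} (hKM : K + 3 < M) {f : ℤ → ℂ} (hf : Sup K f) (η : ℂ) :
    ∑ n ∈ Finset.Icc (-((K + 3 : ℕ) : ℤ)) ((K + 3 : ℕ) : ℤ), xx g M n * ‖wm η f (n - 1)‖ ^ 2 ≤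
      ∑ l ∈ Finset.Icc (-(K : ℤ)) K, xs ‖η‖ g M l * ‖f l‖ ^ 2 := by
  have z : ∀ n : ℤ, n ∉ Finset.Icc (-(K : ℤ)) K → f n = 0 := hf
  have z2 : ∀ n : ℤ, (n < -(K : ℤ) ∨ (K : ℤ) < n) → ‖f n‖ ^ 2 = 0 := fun n hn => by
    rw [z n (by rw [Finset.mem_Icc]; omega)]
    simp
  have s1 : ∀ k : ℤ, -3 ≤ k → k ≤ 3 →
      ∑ n ∈ Finset.Icc (-((K + 3 : ℕ) : ℤ)) ((K + 3 : ℕ) : ℤ), xx g M n * ‖f (n + k)‖ ^ 2 =
      ∑ l ∈ Finset.Icc (-(K : ℤ)) K, xx g M (l - k) * ‖f l‖ ^ 2 := by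
    intro k h1 h2
    have := win_shiftR (f := fun l => xx g M (l - k) * ‖f l‖ ^ 2) (M := K) (M' := K + 3) k
      (fun n hn => by
        beta_reduce
        rw [z n hn]
        simp)
      (fun n hn => by
        beta_reduce
        rw [Finset.mem_Icc] at hn
        push_cast at hn
        rw [z2 (n + k) (by omega), mul_zero])
    rw [← this]
    refine Finset.sum_congr rfl fun n _ => ?_
    beta_reduce
    rw [add_sub_cancel_right]
  have a1 := s1 (-1) (by norm_num) (by norm_num)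
  have a2 := s1 (-3) (by norm_num) (by norm_num)
  have a3 := s1 1 (by norm_num) (by norm_num)
  calc ∑ n ∈ Finset.Icc (-((K + 3 : ℕ) : ℤ)) ((K + 3 : ℕ) : ℤ), xx g M n * ‖wm η f (n - 1)‖ ^ 2
      ≤ ∑ n ∈ Finset.Icc (-((K + 3 : ℕ) : ℤ)) ((K + 3 : ℕ) : ℤ), (1 + 2 * ‖η‖) *
          (xx g M n * ‖f (n + -1)‖ ^ 2 + ‖η‖ * (xx g M n * ‖f (n + -3)‖ ^ 2 + xx g M n * ‖f (n + 1)‖ ^ 2)) := by
        refine Finset.sum_le_sum fun n hn => ?_
        rw [Finset.mem_Icc] at hn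
        have hx : 0 ≤ xx g M n := xx_nonneg hg (by omega)
        have := mul_le_mul_of_nonneg_left (wm_nsq η f (n - 1)) hx
        refine this.trans (le_of_eq ?_)
        rw [show n - 1 = n + -1 by ring, show n + -1 - 2 = n + -3 by ring, show n + -1 + 2 = n + 1 by ring]
        ring
    _ = ∑ l ∈ Finset.Icc (-(K : ℤ)) K, xs ‖η‖ g M l * ‖f l‖ ^ 2 := by
        rw [← Finset.mul_sum, Finset.sum_add_distrib, ← Finset.mul_sum, Finset.sum_add_distrib, a1, a2, a3,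
          ← Finset.sum_add_distrib, Finset.mul_sum, ← Finset.sum_add_distrib, Finset.mul_sum]
        refine Finset.sum_congr rfl fun l _ => ?_
        unfold xs
        rw [show l - -1 = l + 1 by ring, show l - -3 = l + 3 by ring]
        ring

theorem norm_om' : ‖om‖ = 1 := norm_ee _

theorem nsq_kq : ‖kq 2‖ ^ 2 = 49 / 16 := by
  rw [← Complex.normSq_eq_norm_sq, Complex.normSq_apply]
  have h1 : (kq 2).re = Real.sqrt 3 := by
    unfold kq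
    simp
    ring
  have h2 : (kq 2).im = 1 / 4 := by
    unfold kq
    simp
    norm_num
  rw [h1, h2, Real.mul_self_sqrt (by norm_num)]
  norm_num

theorem three_sq (x y z : ℂ) : ‖x + y + z‖ ^ 2 ≤ 3 * (‖x‖ ^ 2 + ‖y‖ ^ 2 + ‖z‖ ^ 2) := by
  have h1 : ‖x + y + z‖ ≤ ‖x‖ + ‖y‖ + ‖z‖ := (norm_add_le _ _).trans (add_le_add (norm_add_le _ _) le_rfl)
  have h2 := pow_le_pow_left₀ (norm_nonneg _) h1 2
  nlinarith [sq_nonneg (‖x‖ - ‖y‖), sq_nonneg (‖x‖ - ‖z‖), sq_nonneg (‖y‖ - ‖z‖)]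

theorem wm_even {η : ℂ} {f : ℤ → ℂ} (hf : ∀ n, Even n → f n = 0) {n : ℤ} (hn : Even n) : wm η f n = 0 := by
  unfold wm
  rw [hf n hn, hf (n - 2) (by rw [Int.even_sub]; simp [hn]), hf (n + 2) (by rw [Int.even_add]; simp [hn])]
  ring

/-- the coefficients of the constant function -/
def d0 (m : ℤ) : ℂ := if m = 0 then 1 else 0

theorem wc_wm (η : ℂ) (n : ℤ) : wc (Pool.Agent.Helper20.RC.wR η 0 0) n = wm η d0 n := by
  have h1 : BM (fun _ : ℝ => (1 : ℂ)) 1 := ⟨measurable_const, fun _ => by simp⟩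
  have e : wc (Pool.Agent.Helper20.RC.wR η 0 0) n = wm η (fc fun _ => 1) n := by
    rw [← Helper95.SH.fc_w η h1]
    unfold wc
    congr 1
    funext t
    rw [mul_one]
  have e1 : (fc fun _ : ℝ => (1 : ℂ)) = d0 := by
    funext m
    have h := fc_ee 0 m
    simp only [Int.cast_zero, zero_mul, ee_zero] at h
    rw [h]
    unfold d0
    by_cases hm : m = 0
    · subst hm; simp
    · rw [if_neg hm, if_neg (Ne.symm hm)]
  rw [e, e1]

theorem d0_sup (K : ℕ) : Sup K d0 := fun n hn => by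
  unfold d0
  rw [if_neg]
  rintro rfl
  exact hn (by rw [Finset.mem_Icc]; omega)

theorem d0_odd (n : ℤ) (hn : ¬ Even n) : d0 n = 0 := by
  unfold d0
  rw [if_neg]
  rintro rfl
  exact hn (by simp)

/-- the quadratic form of the head in the far rows -/
noncomputable def SF (t g : ℝ) (M K : ℕ) (p r s : ℤ → ℂ) : ℝ :=
  ∑ l ∈ Finset.Icc (-(K : ℤ)) K, xs t g M l * ‖s l‖ ^ 2
  + 3 * (xs t g M 0 + ∑ l ∈ Finset.Icc (-(K : ℤ)) K, xs t g M l * ‖p l‖ ^ 2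
    + 49 / 16 * ∑ l ∈ Finset.Icc (-(K : ℤ)) K, xs t g M l * ‖r l‖ ^ 2)

/-- a family of the head -/
theorem fam_wt {g : ℝ} (hg : 0 < g) {M K : ℕ} (hKM : K + 3 < M) {p r s : ℤ → ℂ} (a : Arr K p r s) (η : ℂ)
    {C : ℤ → ℂ} (hC : ∀ m, ‖C m‖ ≤ ‖wm η d0 (m - 1)‖ + ‖wm η p (m - 1)‖ + ‖kq 2‖ * ‖wm η r (m - 1)‖ +
      ‖wm η s (m - 1)‖) :
    ∑ n ∈ Finset.Icc (-((K + 3 : ℕ) : ℤ)) ((K + 3 : ℕ) : ℤ), xx g M n * ‖C n‖ ^ 2 ≤ SF ‖η‖ g M K p r s := by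
  have h0 := wm_wt hg hKM (d0_sup K) η
  have h1 := wm_wt hg hKM a.sp η
  have h2 := wm_wt hg hKM a.sr η
  have h3 := wm_wt hg hKM a.ss η
  have e0 : ∑ l ∈ Finset.Icc (-(K : ℤ)) K, xs ‖η‖ g M l * ‖d0 l‖ ^ 2 = xs ‖η‖ g M 0 := by
    rw [Finset.sum_eq_single_of_mem 0 (by rw [Finset.mem_Icc]; omega)]
    · unfold d0
      simp
    · intro l _ hl
      unfold d0
      rw [if_neg hl]
      simp
  rw [e0] at h0
  have key : ∀ n ∈ Finset.Icc (-((K + 3 : ℕ) : ℤ)) ((K + 3 : ℕ) : ℤ), xx g M n * ‖C n‖ ^ 2 ≤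
      xx g M n * ‖wm η s (n - 1)‖ ^ 2 + 3 * (xx g M n * ‖wm η d0 (n - 1)‖ ^ 2 +
        xx g M n * ‖wm η p (n - 1)‖ ^ 2 + 49 / 16 * (xx g M n * ‖wm η r (n - 1)‖ ^ 2)) := by
    intro n hn
    rw [Finset.mem_Icc] at hn
    have hx : 0 ≤ xx g M n := xx_nonneg hg (by omega)
    have hb : ‖C n‖ ^ 2 ≤ ‖wm η s (n - 1)‖ ^ 2 + 3 * (‖wm η d0 (n - 1)‖ ^ 2 + ‖wm η p (n - 1)‖ ^ 2 +
        49 / 16 * ‖wm η r (n - 1)‖ ^ 2) := by
      have hc := hC n
      have hq := nsq_kq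
      by_cases hev : Even (n - 1)
      · rw [wm_even a.es hev, norm_zero, add_zero] at hc
        rw [wm_even a.es hev, norm_zero, ← hq]
        have h2 := pow_le_pow_left₀ (norm_nonneg _) hc 2
        nlinarith [sq_nonneg (‖wm η d0 (n - 1)‖ - ‖wm η p (n - 1)‖),
          sq_nonneg (‖wm η d0 (n - 1)‖ - ‖kq 2‖ * ‖wm η r (n - 1)‖),
          sq_nonneg (‖wm η p (n - 1)‖ - ‖kq 2‖ * ‖wm η r (n - 1)‖)]
      · rw [wm_odd d0_odd hev, wm_odd a.ep hev, wm_odd a.er hev] at hc ⊢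
        simp only [norm_zero, mul_zero, add_zero, zero_add] at hc ⊢
        have h2 := pow_le_pow_left₀ (norm_nonneg _) hc 2
        nlinarith
    have := mul_le_mul_of_nonneg_left hb hx
    refine this.trans (le_of_eq ?_)
    ring
  refine (Finset.sum_le_sum key).trans ?_
  rw [Finset.sum_add_distrib, ← Finset.mul_sum, Finset.sum_add_distrib, Finset.sum_add_distrib, ← Finset.mul_sum]
  unfold SF
  linarith

section

variable (P : Par) (p r s : ℤ → ℂ)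

theorem C1_norm (m : ℤ) : ‖C1 P p r s m‖ ≤ ‖wm P.eta d0 (m - 1)‖ + ‖wm P.eta p (m - 1)‖ +
    ‖kq 2‖ * ‖wm P.eta r (m - 1)‖ + ‖wm P.eta s (m - 1)‖ := by
  have hw : wc P.w (m - 1) = wm P.eta d0 (m - 1) := wc_wm P.eta (m - 1)
  unfold C1 c1
  rw [norm_mul, norm_ee, one_mul, hw]
  refine (norm_add_le _ _).trans (add_le_add ((norm_add_le _ _).trans (add_le_add ((norm_add_le _ _).trans
    (add_le_add ?_ ?_)) ?_)) le_rfl)
  · rw [norm_mul, norm_om', one_mul]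
  · rw [norm_mul, Complex.norm_conj, norm_om', one_mul]
  · rw [norm_mul]

theorem C2_norm (m : ℤ) : ‖C2 P p r s m‖ ≤ ‖wm P.eta d0 (m - 1)‖ + ‖wm P.eta p (m - 1)‖ +
    ‖kq 2‖ * ‖wm P.eta r (m - 1)‖ + ‖wm P.eta s (m - 1)‖ := by
  have hw : wc P.w (m - 1) = wm P.eta d0 (m - 1) := wc_wm P.eta (m - 1)
  unfold C2 c2
  rw [norm_mul, norm_ee, one_mul, hw]
  refine (norm_sub_le _ _).trans (add_le_add ((norm_add_le _ _).trans (add_le_add ((norm_add_le _ _).trans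
    (add_le_add ?_ ?_)) ?_)) le_rfl)
  · rw [norm_mul, norm_pow, norm_om', one_pow, one_mul]
  · rw [norm_mul, norm_pow, Complex.norm_conj, norm_om', one_pow, one_mul]
  · rw [norm_mul, Complex.norm_conj]

end

/-- numbers of the far rows: `s ≥ 1`, `E ≥ exp (|k| (s³ - s⁻³) / 4)` -/
structure FarP (k s E : ℝ) (M K : ℕ) : Prop where
  hs : 1 ≤ s
  hE : Real.exp (|k| * (s ^ 3 - (s ^ 3)⁻¹) / 4) ≤ E
  hEs : E < s
  hKM : K + 3 < M
  hg : 1 + 1 / ((M : ℝ) - (K + 3 : ℕ)) < E * s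

/-- the constant of the far rows of `NF` -/
noncomputable def CX (t s E : ℝ) (M K : ℕ) : ℝ := 4 * (1 + 2 * t) ^ 2 * CF s E M (K + 3)

section

variable {c : CD} {d k ph s E : ℝ} {M K : ℕ} {p r z : ℤ → ℂ}

theorem FarP.two (h : FarP k s E M K) (hps : c.P.ps = ps d k ph) (a : Arr K p r z) (c1 c2 : ℂ) (F : Finset ℤ)
    (hF : ∀ n ∈ F, M + 3 ≤ n.natAbs) :
    ∑ n ∈ F, ‖wm c.P.eta (fun n => c1 * gA c K p r z n + c2 * gB c K p r z n) n‖ ^ 2 ≤
      (‖c1‖ ^ 2 + ‖c2‖ ^ 2) / 2 * (CX ‖c.P.eta‖ s E M K * SF ‖c.P.eta‖ (E * s) M K p r z) := by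
  have hg0 : 0 < E * s := by
    have := (Real.exp_pos _).trans_le h.hE
    have := h.hs
    positivity
  have s1 := Helper95.SH.C1_sup c.P K a.sp a.sr a.ss
  have s2 := Helper95.SH.C2_sup c.P K a.sp a.sr a.ss
  have f1 := fam_wt hg0 h.hKM a c.P.eta (C1_norm c.P p r z)
  have f2 := fam_wt hg0 h.hKM a c.P.eta (C2_norm c.P p r z)
  have hC0 : 0 ≤ CF s E M (K + 3) := by
    have hE0 := (Real.exp_pos _).trans_le h.hE
    have hs0 : 0 < s := by linarith [h.hs]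
    have q0 : 0 ≤ E / s := by positivity
    have q1 : E / s < 1 := by rw [div_lt_one hs0]; exact h.hEs
    have q6 : (E / s) ^ 6 < 1 := pow_lt_one₀ q0 q1 (by norm_num)
    have m1 : (0 : ℝ) < (M : ℝ) - (K + 3 : ℕ) := by
      have : ((K + 3 : ℕ) : ℝ) < M := by exact_mod_cast h.hKM
      linarith
    have g0 : 0 ≤ (1 + 1 / ((M : ℝ) - (K + 3 : ℕ))) / (E * s) := by positivity
    have g1 : (1 + 1 / ((M : ℝ) - (K + 3 : ℕ))) / (E * s) < 1 := by rw [div_lt_one hg0]; exact h.hg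
    have g3 : ((1 + 1 / ((M : ℝ) - (K + 3 : ℕ))) / (E * s)) ^ 3 < 1 := pow_lt_one₀ g0 g1 (by norm_num)
    have a1 : 0 < 1 - (E / s) ^ 6 := by linarith
    have a2 : 0 < 1 - ((1 + 1 / ((M : ℝ) - (K + 3 : ℕ))) / (E * s)) ^ 3 := by linarith
    have a3 : (0 : ℝ) < (M : ℝ) + (K + 3 : ℕ) := by
      have : (0 : ℝ) ≤ ((K + 3 : ℕ) : ℝ) := Nat.cast_nonneg _
      linarith
    unfold CF
    positivity
  have hA : ∀ G : Finset ℤ, (∀ m ∈ G, M ≤ m.natAbs) →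
      ∑ m ∈ G, ‖gNA c.P.ps (K + 3) (C1 c.P p r z) (C2 c.P p r z) m‖ ^ 2 ≤
        CF s E M (K + 3) * SF ‖c.P.eta‖ (E * s) M K p r z := by
    intro G hG
    rw [hps]
    exact (far_GA d k ph s E h.hs h.hE h.hEs M (K + 3) (K + 3) h.hKM le_rfl h.hg _ _ s1 s2 G hG).trans
      (mul_le_mul_of_nonneg_left f2 hC0)
  have hB : ∀ G : Finset ℤ, (∀ m ∈ G, M ≤ m.natAbs) →
      ∑ m ∈ G, ‖gNB c.P.ps (K + 3) (C1 c.P p r z) (C2 c.P p r z) m‖ ^ 2 ≤
        CF s E M (K + 3) * SF ‖c.P.eta‖ (E * s) M K p r z := by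
    intro G hG
    rw [hps]
    exact (far_GB d k ph s E h.hs h.hE h.hEs M (K + 3) (K + 3) h.hKM le_rfl h.hg _ _ s1 s2 G hG).trans
      (mul_le_mul_of_nonneg_left f1 hC0)
  have h2 := wm_far c.P.eta (fun n => c1 * gA c K p r z n + c2 * gB c K p r z n) (M + 1) _
    (fun G hG => two_far _ _ (Real.pi / 3) (2 * Real.pi / 3) c1 c2 M _ _ hA hB G hG) F hF
  refine h2.trans (le_of_eq ?_)
  unfold CX
  ring

/-- **the rows `X`** -/
theorem NFX_far (h : FarP k s E M K) (hps : c.P.ps = ps d k ph) (a : Arr K p r z) (F : Finset ℤ)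
    (hF : ∀ n ∈ F, M + 3 ≤ n.natAbs) :
    ∑ n ∈ F, ‖wm c.P.eta (fun n => gA c K p r z n - gB c K p r z n) n‖ ^ 2 ≤
      CX ‖c.P.eta‖ s E M K * SF ‖c.P.eta‖ (E * s) M K p r z := by
  have := h.two hps a 1 (-1) F hF
  have e : (fun n => (1 : ℂ) * gA c K p r z n + -1 * gB c K p r z n) =
      fun n => gA c K p r z n - gB c K p r z n := by funext n; ring
  rw [e] at this
  refine this.trans (le_of_eq ?_)
  rw [norm_neg, norm_one]
  ring

/-- **the rows `Y`** -/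
theorem NFY_far (h : FarP k s E M K) (hps : c.P.ps = ps d k ph) (a : Arr K p r z) (F : Finset ℤ)
    (hF : ∀ n ∈ F, M + 3 ≤ n.natAbs) :
    ∑ n ∈ F, ‖sy (wm c.P.eta (fun n => om * gA c K p r z n + om ^ 2 * gB c K p r z n)) n‖ ^ 2 ≤
      CX ‖c.P.eta‖ s E M K * SF ‖c.P.eta‖ (E * s) M K p r z := by
  refine sy_far _ (M + 3) _ (fun G hG => ?_) F hF
  have := h.two hps a om (om ^ 2) G hG
  refine this.trans (le_of_eq ?_)
  rw [norm_pow, norm_om']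
  ring

/-- **the rows `Z`** -/
theorem NFZ_far (h : FarP k s E M K) (hps : c.P.ps = ps d k ph) (a : Arr K p r z) (F : Finset ℤ)
    (hF : ∀ n ∈ F, M + 3 ≤ n.natAbs) :
    ∑ n ∈ F, ‖sy (wm c.P.eta (fun n => (starRingEnd ℂ) (kq 2) * gA c K p r z n + kq 2 * gB c K p r z n)) n‖ ^ 2 ≤
      49 / 16 * (CX ‖c.P.eta‖ s E M K * SF ‖c.P.eta‖ (E * s) M K p r z) := by
  refine sy_far _ (M + 3) _ (fun G hG => ?_) F hF
  have := h.two hps a ((starRingEnd ℂ) (kq 2)) (kq 2) G hG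
  refine this.trans (le_of_eq ?_)
  rw [Complex.norm_conj, nsq_kq]
  ring

end

end Pool.Agent.Helper20.SH
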