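import Pool.Agent.Helper61.RC.NFB

/-!
# Project RC, SHARP, zone I: the tail of the gradient of `NS` (rows `40 ≤ |m|`)
-/

set_option autoImplicit false

open MeasureTheory Set Filter Topology

namespace Pool.Agent.Helper20.SH

open Helper49.LT hiding sg
open Pool.Agent.Helper99.RC
open Pool.Agent.Helper61.RC
open Helper31.Bes

theorem exp_quarter : Real.exp (1 / 4) ≤ 257 / 200 := by
  have h1 : Real.exp (1 / 4) ^ 4 = Real.exp 1 := by
    rw [← Real.exp_nat_mul]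
    norm_num
  have h2 := Real.exp_one_lt_d9
  by_contra h
  push Not at h
  have h3 : ((257 : ℝ) / 200) ^ 4 ≤ Real.exp (1 / 4) ^ 4 :=
    pow_le_pow_left₀ (by norm_num) h.le 4
  rw [h1] at h3
  norm_num at h3
  linarith

theorem exp_nat_quarter (p : ℕ) : Real.exp ((p : ℝ) / 4) ≤ (257 / 200 : ℝ) ^ p := by
  have h : Real.exp ((p : ℝ) / 4) = Real.exp (1 / 4) ^ p := by
    rw [← Real.exp_nat_mul]
    congr 1
    ring
  rw [h]
  exact pow_le_pow_left₀ (Real.exp_pos _).le exp_quarter p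

/-- the geometric estimate -/
theorem geo_est (J p M N : ℕ) (h1 : p ≤ M + N) (h2 : M ≤ 3 * J + N) (h3 : N ≤ M) :
    (1 / 4 : ℝ) ^ J * (257 / 200) ^ p ≤ (81 / 100) ^ M * (51 / 25) ^ N := by
  obtain ⟨P, rfl⟩ : ∃ P, M = P + N := ⟨M - N, by omega⟩
  have hP : P ≤ 3 * J := by omega
  have e1 : (1 / 4 : ℝ) ^ J ≤ (63 / 100) ^ P := by
    calc (1 / 4 : ℝ) ^ J ≤ ((63 / 100) ^ 3) ^ J := pow_le_pow_left₀ (by norm_num) (by norm_num) J
      _ = (63 / 100) ^ (3 * J) := by rw [pow_mul]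
      _ ≤ (63 / 100) ^ P := pow_le_pow_of_le_one (by norm_num) (by norm_num) hP
  have e2 : (257 / 200 : ℝ) ^ p ≤ (257 / 200) ^ (P + N + N) :=
    pow_le_pow_right₀ (by norm_num) h1
  have e3 : (63 / 100 : ℝ) ^ P * (257 / 200) ^ (P + N + N) =
      (63 / 100 * (257 / 200)) ^ P * (257 / 200 * (257 / 200)) ^ N := by
    rw [pow_add, pow_add, mul_pow, mul_pow]
    ring
  have e4 : (81 / 100 : ℝ) ^ (P + N) * (51 / 25) ^ N = (81 / 100) ^ P * (81 / 100 * (51 / 25)) ^ N := by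
    rw [pow_add, mul_pow]
    ring
  rw [e4]
  calc (1 / 4 : ℝ) ^ J * (257 / 200) ^ p ≤ (63 / 100) ^ P * (257 / 200) ^ (P + N + N) :=
        mul_le_mul e1 e2 (by positivity) (by positivity)
    _ = (63 / 100 * (257 / 200)) ^ P * (257 / 200 * (257 / 200)) ^ N := e3
    _ ≤ (81 / 100) ^ P * (81 / 100 * (51 / 25)) ^ N :=
        mul_le_mul (pow_le_pow_left₀ (by norm_num) (by norm_num) P)
          (pow_le_pow_left₀ (by norm_num) (by norm_num) N) (by positivity) (by positivity)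

/-- the entry estimate, natural numbers -/
theorem ent_nat (A : ℝ) (hA : 0 ≤ A) (hA' : A ≤ 1 / 4) (J p M N : ℕ) (h1 : p ≤ M + N)
    (h2 : M ≤ 3 * J + N) (h3 : N ≤ M) (hp : 27 ≤ p) (hJ : 5 ≤ J) :
    2 / (p : ℝ) * (((p : ℝ) * A / 4) ^ J / (J.factorial : ℝ)) ≤
      76 * A ^ 5 * (81 / 100) ^ M * (51 / 25) ^ N := by
  have hp' : (27 : ℝ) ≤ p := by exact_mod_cast hp
  have hp0 : (0 : ℝ) < p := by linarith
  have e1 : ((p : ℝ) * A / 4) ^ J = (4 * A) ^ J * ((1 / 4) ^ J * ((p : ℝ) / 4) ^ J) := by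
    rw [← mul_pow, ← mul_pow]
    congr 1
    ring
  have e2 : (4 * A) ^ J ≤ (4 * A) ^ 5 :=
    pow_le_pow_of_le_one (by linarith) (by linarith) hJ
  have e3 : ((p : ℝ) / 4) ^ J / (J.factorial : ℝ) ≤ (257 / 200) ^ p :=
    (Real.pow_div_factorial_le_exp _ (by positivity) J).trans (exp_nat_quarter p)
  have e4 : 2 / (p : ℝ) ≤ 2 / 27 := div_le_div_of_nonneg_left (by norm_num) (by norm_num) hp'
  have e5 := geo_est J p M N h1 h2 h3
  have hA5 : 0 ≤ (4 * A) ^ 5 := by positivity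
  have hJ4 : (0 : ℝ) ≤ (1 / 4) ^ J := by positivity
  calc 2 / (p : ℝ) * (((p : ℝ) * A / 4) ^ J / (J.factorial : ℝ))
      = 2 / (p : ℝ) * ((4 * A) ^ J * ((1 / 4) ^ J * (((p : ℝ) / 4) ^ J / (J.factorial : ℝ)))) := by
        rw [e1]
        ring
    _ ≤ 2 / 27 * ((4 * A) ^ 5 * ((1 / 4) ^ J * (257 / 200) ^ p)) := by
        apply mul_le_mul e4 _ (by positivity) (by norm_num)
        apply mul_le_mul e2 _ (by positivity) hA5
        exact mul_le_mul_of_nonneg_left e3 hJ4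
    _ ≤ 2 / 27 * ((4 * A) ^ 5 * ((81 / 100) ^ M * (51 / 25) ^ N)) := by
        apply mul_le_mul_of_nonneg_left _ (by norm_num)
        exact mul_le_mul_of_nonneg_left e5 hA5
    _ = 2048 / 27 * (A ^ 5 * (81 / 100) ^ M * (51 / 25) ^ N) := by ring
    _ ≤ 76 * (A ^ 5 * (81 / 100) ^ M * (51 / 25) ^ N) := by
        apply mul_le_mul_of_nonneg_right (by norm_num)
        positivity
    _ = 76 * A ^ 5 * (81 / 100) ^ M * (51 / 25) ^ N := by ring

/-- the norm of the kernel -/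
theorem norm_CS_le (d k ph : ℝ) (m n : ℤ) (j : ℤ) (hj : n - m = 3 * j) :
    ‖CS d k ph m n‖ ≤ ((((m + n).natAbs : ℝ)) * |k| / 4) ^ j.natAbs / (j.natAbs.factorial : ℝ) := by
  unfold CS
  rw [if_pos ⟨j, hj⟩, norm_mul, norm_mul, norm_ee, norm_ee, one_mul, one_mul, Complex.norm_real,
    Real.norm_eq_abs]
  have hj' : (n - m) / 3 = j := by omega
  rw [hj']
  refine (J1 j _).trans (le_of_eq ?_)
  congr 2
  rw [abs_div, abs_mul, Nat.cast_natAbs, Int.cast_abs, abs_of_nonneg (by norm_num : (0 : ℝ) ≤ 2)]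
  ring

theorem CS_zero (d k ph : ℝ) (m n : ℤ) (h : ¬ (3 : ℤ) ∣ n - m) : CS d k ph m n = 0 := by
  unfold CS
  rw [if_neg h]

theorem norm_two_div (q : ℤ) : ‖(2 : ℂ) / ((q : ℤ) : ℂ)‖ = 2 / (q.natAbs : ℝ) := by
  rw [norm_div]
  congr 1
  · simp
  · rw [Nat.cast_natAbs, Int.cast_abs, Complex.norm_intCast]

/-- the entry estimate: row `m` large, column `n` small -/
theorem ker_row (A d : ℝ) (hA : 0 ≤ A) (hA' : A ≤ 1 / 4) (m n : ℤ) (hm : 40 ≤ |m|)
    (hn : |n| ≤ 13) :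
    ‖(2 : ℂ) / ((m + n : ℤ) : ℂ)‖ * ‖CS d A Real.pi m n‖ ≤
      76 * A ^ 5 * (81 / 100) ^ m.natAbs * (51 / 25) ^ n.natAbs := by
  by_cases h : (3 : ℤ) ∣ n - m
  · obtain ⟨j, hj⟩ := h
    have h1 := norm_CS_le d A Real.pi m n j hj
    rw [abs_of_nonneg hA] at h1
    rw [norm_two_div]
    refine (mul_le_mul_of_nonneg_left h1 (by positivity)).trans ?_
    rw [Int.abs_eq_natAbs] at hm hn
    apply ent_nat A hA hA' <;> omega
  · rw [CS_zero d A Real.pi m n h, norm_zero, mul_zero]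
    positivity

/-- the entry estimate: row `n` large, column `m` small, second form -/
theorem ker_col (A d : ℝ) (hA : 0 ≤ A) (hA' : A ≤ 1 / 4) (m n : ℤ) (hn : 40 ≤ |n|)
    (hm : |m| ≤ 13) :
    ‖(2 : ℂ) / ((m + n : ℤ) : ℂ)‖ * ‖CS d A Real.pi m n‖ ≤
      76 * A ^ 5 * (81 / 100) ^ n.natAbs * (51 / 25) ^ m.natAbs := by
  by_cases h : (3 : ℤ) ∣ n - m
  · obtain ⟨j, hj⟩ := h
    have h1 := norm_CS_le d A Real.pi m n j hj
    rw [abs_of_nonneg hA] at h1
    rw [norm_two_div]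
    refine (mul_le_mul_of_nonneg_left h1 (by positivity)).trans ?_
    rw [Int.abs_eq_natAbs] at hm hn
    apply ent_nat A hA hA' <;> omega
  · rw [CS_zero d A Real.pi m n h, norm_zero, mul_zero]
    positivity

/-- **tail of the rows of the first kind** -/
theorem tail_GA (A d : ℝ) (hA : 0 ≤ A) (hA' : A ≤ 1 / 4) (S : Finset ℤ) (a b : ℤ → ℂ)
    (ha : ∀ n, 13 < |n| → a n = 0) (hb : ∀ n, 13 < |n| → b n = 0) (m : ℤ) (hm : 40 ≤ |m|) :
    ‖GA d A Real.pi S a b m‖ ≤ 76 * A ^ 5 * (81 / 100) ^ m.natAbs *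
      ∑ n ∈ Finset.Icc (-13 : ℤ) 13, ‖b n‖ * (51 / 25) ^ n.natAbs := by
  unfold GA
  have hm0 : m ≠ 0 := by
    rintro rfl
    simp at hm
  rw [ha m (by linarith), map_zero, zero_div, zero_add, if_neg hm0,
    add_zero, Finset.mul_sum]
  have hF : ∀ n, ‖2 / ((m + n : ℤ) : ℂ) * ((starRingEnd ℂ) (b n) * CS d A Real.pi m n)‖ ≤
      if n ∈ Finset.Icc (-13 : ℤ) 13 then
        76 * A ^ 5 * (81 / 100) ^ m.natAbs * (‖b n‖ * (51 / 25) ^ n.natAbs) else 0 := by
    intro n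
    by_cases hn : |n| ≤ 13
    · rw [if_pos (Finset.mem_Icc.2 (abs_le.1 hn)), norm_mul, norm_mul, Complex.norm_conj]
      have := ker_row A d hA hA' m n hm hn
      calc ‖(2 : ℂ) / ((m + n : ℤ) : ℂ)‖ * (‖b n‖ * ‖CS d A Real.pi m n‖)
          = ‖b n‖ * (‖(2 : ℂ) / ((m + n : ℤ) : ℂ)‖ * ‖CS d A Real.pi m n‖) := by ring
        _ ≤ ‖b n‖ * (76 * A ^ 5 * (81 / 100) ^ m.natAbs * (51 / 25) ^ n.natAbs) :=
            mul_le_mul_of_nonneg_left this (norm_nonneg _)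
        _ = _ := by ring
    · rw [hb n (by linarith [not_le.1 hn]), if_neg (fun h => hn (abs_le.2 (Finset.mem_Icc.1 h)))]
      simp
  refine (norm_sum_le _ _).trans ((Finset.sum_le_sum fun n _ => hF n).trans ?_)
  rw [← Finset.sum_filter]
  apply Finset.sum_le_sum_of_subset_of_nonneg
  · intro n hn
    exact (Finset.mem_filter.1 hn).2
  · intro n _ _
    positivity

/-- **tail of the rows of the second kind** -/
theorem tail_GB (A d : ℝ) (hA : 0 ≤ A) (hA' : A ≤ 1 / 4) (S : Finset ℤ) (a b : ℤ → ℂ)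
    (ha : ∀ n, 13 < |n| → a n = 0) (hb : ∀ n, 13 < |n| → b n = 0) (m : ℤ) (hm : 40 ≤ |m|) :
    ‖GB d A Real.pi S a b m‖ ≤ 76 * A ^ 5 * (81 / 100) ^ m.natAbs *
      ∑ n ∈ Finset.Icc (-13 : ℤ) 13, ‖a n‖ * (51 / 25) ^ n.natAbs := by
  unfold GB
  have hm0 : m ≠ 0 := by
    rintro rfl
    simp at hm
  rw [hb m (by linarith), zero_div, zero_add, if_neg hm0,
    add_zero, Finset.mul_sum]
  have hF : ∀ n, ‖2 / ((n + m : ℤ) : ℂ) * (a n * CS d A Real.pi n m)‖ ≤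
      if n ∈ Finset.Icc (-13 : ℤ) 13 then
        76 * A ^ 5 * (81 / 100) ^ m.natAbs * (‖a n‖ * (51 / 25) ^ n.natAbs) else 0 := by
    intro n
    by_cases hn : |n| ≤ 13
    · rw [if_pos (Finset.mem_Icc.2 (abs_le.1 hn)), norm_mul, norm_mul]
      have := ker_col A d hA hA' n m hm hn
      calc ‖(2 : ℂ) / ((n + m : ℤ) : ℂ)‖ * (‖a n‖ * ‖CS d A Real.pi n m‖)
          = ‖a n‖ * (‖(2 : ℂ) / ((n + m : ℤ) : ℂ)‖ * ‖CS d A Real.pi n m‖) := by ring
        _ ≤ ‖a n‖ * (76 * A ^ 5 * (81 / 100) ^ m.natAbs * (51 / 25) ^ n.natAbs) :=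
            mul_le_mul_of_nonneg_left this (norm_nonneg _)
        _ = _ := by ring
    · rw [ha n (by linarith [not_le.1 hn]), if_neg (fun h => hn (abs_le.2 (Finset.mem_Icc.1 h)))]
      simp
  refine (norm_sum_le _ _).trans ((Finset.sum_le_sum fun n _ => hF n).trans ?_)
  rw [← Finset.sum_filter]
  apply Finset.sum_le_sum_of_subset_of_nonneg
  · intro n hn
    exact (Finset.mem_filter.1 hn).2
  · intro n _ _
    positivity

/-- geometric sum over a finite set of large naturals -/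
theorem geo_nat (q : ℝ) (hq : 0 ≤ q) (hq1 : q < 1) (K : ℕ) (U : Finset ℕ) (hU : ∀ k ∈ U, K ≤ k) :
    ∑ k ∈ U, q ^ k ≤ q ^ K / (1 - q) := by
  have hs : U ⊆ Finset.Ico K (K + (U.sup id + 1)) := by
    intro k hk
    have : k ≤ U.sup id := Finset.le_sup (f := id) hk
    rw [Finset.mem_Ico]
    exact ⟨hU k hk, by omega⟩
  refine (Finset.sum_le_sum_of_subset_of_nonneg hs fun k _ _ => pow_nonneg hq k).trans ?_
  generalize U.sup id + 1 = L
  have h1 : (1 - q) * ∑ k ∈ Finset.Ico K (K + L), q ^ k = q ^ K - q ^ (K + L) := by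
    induction L with
    | zero => simp
    | succ L ih =>
      rw [← add_assoc, Finset.sum_Ico_succ_top (by omega), mul_add, ih, pow_succ]
      ring
  rw [le_div_iff₀ (by linarith), mul_comm, h1]
  have := pow_nonneg hq (K + L)
  linarith

/-- geometric sum over a finite set of large integers -/
theorem geo_int (q : ℝ) (hq : 0 ≤ q) (hq1 : q < 1) (K : ℕ) (T : Finset ℤ)
    (hT : ∀ m ∈ T, (K : ℤ) ≤ |m|) :
    ∑ m ∈ T, q ^ m.natAbs ≤ 2 * (q ^ K / (1 - q)) := by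
  have h1 : ∑ m ∈ T.filter (fun m => 0 ≤ m), q ^ m.natAbs ≤ q ^ K / (1 - q) := by
    have hinj : Set.InjOn (fun m : ℤ => m.natAbs) (T.filter (fun m => 0 ≤ m) : Finset ℤ) := by
      intro x hx y hy hxy
      have hx' := (Finset.mem_filter.1 (Finset.mem_coe.1 hx)).2
      have hy' := (Finset.mem_filter.1 (Finset.mem_coe.1 hy)).2
      have hxy' : x.natAbs = y.natAbs := hxy
      omega
    rw [← Finset.sum_image (f := fun k : ℕ => q ^ k) hinj]
    apply geo_nat q hq hq1 K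
    intro k hk
    obtain ⟨m, hm, rfl⟩ := Finset.mem_image.1 hk
    have := hT m (Finset.mem_filter.1 hm).1
    rw [Int.abs_eq_natAbs] at this
    show K ≤ m.natAbs
    omega
  have h2 : ∑ m ∈ T.filter (fun m => ¬ 0 ≤ m), q ^ m.natAbs ≤ q ^ K / (1 - q) := by
    have hinj : Set.InjOn (fun m : ℤ => m.natAbs) (T.filter (fun m => ¬ 0 ≤ m) : Finset ℤ) := by
      intro x hx y hy hxy
      have hx' := (Finset.mem_filter.1 (Finset.mem_coe.1 hx)).2
      have hy' := (Finset.mem_filter.1 (Finset.mem_coe.1 hy)).2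
      have hxy' : x.natAbs = y.natAbs := hxy
      omega
    rw [← Finset.sum_image (f := fun k : ℕ => q ^ k) hinj]
    apply geo_nat q hq hq1 K
    intro k hk
    obtain ⟨m, hm, rfl⟩ := Finset.mem_image.1 hk
    have := hT m (Finset.mem_filter.1 hm).1
    rw [Int.abs_eq_natAbs] at this
    show K ≤ m.natAbs
    omega
  rw [← Finset.sum_filter_add_sum_filter_not T (fun m => 0 ≤ m)]
  linarith

/-- **tail of the rest** -/
theorem tail_sq (x : ℤ → ℂ) (S : Finset ℤ) :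
    ∑ m ∈ S.filter (fun m => 46 ≤ |m|), ‖x m‖ * (81 / 100) ^ m.natAbs ≤
      (15 / 100000) * Real.sqrt (∑ m ∈ S, ‖x m‖ ^ 2) := by
  set T := S.filter (fun m => 46 ≤ |m|) with hTdef
  have h1 := Real.sum_mul_le_sqrt_mul_sqrt T (fun m => ‖x m‖) (fun m => (81 / 100 : ℝ) ^ m.natAbs)
  refine h1.trans ?_
  rw [mul_comm]
  apply mul_le_mul _ _ (Real.sqrt_nonneg _) (by norm_num)
  · rw [Real.sqrt_le_left (by norm_num)]
    have h2 : ∀ m : ℤ, ((81 / 100 : ℝ) ^ m.natAbs) ^ 2 = (6561 / 10000) ^ m.natAbs := by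
      intro m
      rw [← pow_mul, mul_comm, pow_mul]
      norm_num
    simp_rw [h2]
    refine (geo_int (6561 / 10000) (by norm_num) (by norm_num) 46 T ?_).trans (by norm_num)
    intro m hm
    have := (Finset.mem_filter.1 hm).2
    exact_mod_cast this
  · apply Real.sqrt_le_sqrt
    apply Finset.sum_le_sum_of_subset_of_nonneg (Finset.filter_subset _ _)
    intro m _ _
    positivity

end Pool.Agent.Helper20.SH
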