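import Pool.Agent.Helper75.SH.HTR

/-!
# Project RC, SHARP, zone II: the weights of the blocks `X`, `Y`, `Z` as natural numbers

`okC`: the kernel check of `cX, cY, cZ` (`1/tz ≤ cX / 10^9`, `2/(t2 - x2) ≤ cY / 10^9`, `2/(t3 - x3) ≤ cZ / 10^9`).
-/

set_option autoImplicit false

open MeasureTheory Set Filter Topology

namespace Pool.Agent.Helper20.SH

open Helper49.Sharp Helper49.Cell
open Helper70.SH (cd Len)
open Pool.Agent.Helper56.TS (TI)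
open Pool.Agent.Helper75.SH (WtR TSc x2 x3)

/-- numerators of `t2 - x2`, `t3 - x3` -/
def n2 (R : Rec) (T : TI) (W : WtR) : ℤ :=
  (T.t2 : ℤ) * ((T.L : ℤ) - 1) * R.nu * 100000 - (100 * (W.bL : ℤ) - T.be) * (R.e1 * R.e1 + R.e2 * R.e2)
def n3 (R : Rec) (T : TI) (W : WtR) : ℤ :=
  (T.t3 : ℤ) * (4 * ((T.L : ℤ) - 1)) * R.nu * 100000 - (100 * (W.bL : ℤ) - T.be) * (R.e1 * R.e1 + R.e2 * R.e2) * T.L

/-- **the kernel check of the weights** -/
def okC (R : Rec) (T : TI) (W : WtR) (cX cY cZ : ℕ) : Bool :=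
  decide (100000000000000 ≤ cX * T.tz ∧ 0 < R.nu ∧ 2 ≤ T.L ∧ 0 < n2 R T W ∧ 0 < n3 R T W ∧
    20000000000000000000 * (((T.L : ℤ) - 1) * R.nu) ≤ (cY : ℤ) * n2 R T W ∧
    80000000000000000000 * (((T.L : ℤ) - 1) * R.nu) ≤ (cZ : ℤ) * n3 R T W)

/-- the sum of the squares of the coefficients of `eta` -/
theorem eta_nsq (R : Rec) : ‖R.par.eta‖ ^ 2 = ((R.e1 * R.e1 + R.e2 * R.e2 : ℤ) : ℝ) / 10 ^ 10 := by
  rw [Helper70.SH.eta_sq]
  push_cast
  norm_num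

variable {R : Rec} {C : Crt} (h : R.ok C = true) {K0 : ℕ} (len : Len R K0) (s : ℕ) {T : TI} {W : WtR} {cX cY cZ : ℕ}

/-- **the weights** -/
theorem okC_sound (k : okC R T W cX cY cZ = true) :
    (0 < T.tsc.tz ∧ 0 < T.tsc.t2 - x2 T.tsc (cd R h len s) ((W.bL : ℝ) / 1000) ∧
      0 < T.tsc.t3 - x3 T.tsc (cd R h len s) ((W.bL : ℝ) / 1000)) ∧
    1 / T.tsc.tz ≤ (cX : ℝ) / 10 ^ 9 ∧
    2 / (T.tsc.t2 - x2 T.tsc (cd R h len s) ((W.bL : ℝ) / 1000)) ≤ (cY : ℝ) / 10 ^ 9 ∧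
    2 / (T.tsc.t3 - x3 T.tsc (cd R h len s) ((W.bL : ℝ) / 1000)) ≤ (cZ : ℝ) / 10 ^ 9 := by
  obtain ⟨a1, a2, a3, a4, a5, a6, a7⟩ := of_decide_eq_true k
  have b1 : (100000000000000 : ℝ) ≤ (cX : ℝ) * T.tz := by exact_mod_cast a1
  have hnu : (0 : ℝ) < R.nu := by exact_mod_cast a2
  have hL : (2 : ℝ) ≤ T.L := by exact_mod_cast a3
  have hL1 : (0 : ℝ) < (T.L : ℝ) - 1 := by linarith
  have b4 : (0 : ℝ) < (n2 R T W : ℝ) := by exact_mod_cast a4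
  have b5 : (0 : ℝ) < (n3 R T W : ℝ) := by exact_mod_cast a5
  have b6 : (20000000000000000000 : ℝ) * (((T.L : ℝ) - 1) * R.nu) ≤ (cY : ℝ) * (n2 R T W : ℝ) := by exact_mod_cast a6
  have b7 : (80000000000000000000 : ℝ) * (((T.L : ℝ) - 1) * R.nu) ≤ (cZ : ℝ) * (n3 R T W : ℝ) := by exact_mod_cast a7
  have tz0 : (0 : ℝ) < T.tz := by
    rcases Nat.eq_zero_or_pos T.tz with e | e
    · rw [e] at b1
      norm_num at b1
    · exact_mod_cast e
  have e0 : T.tsc.tz = (T.tz : ℝ) / 100000 := rfl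
  have e1 : T.tsc.t2 = (T.t2 : ℝ) / 100000 := rfl
  have e2 : T.tsc.t3 = (T.t3 : ℝ) / 100000 := rfl
  have e3 : T.tsc.be = (T.be : ℝ) / 100000 := rfl
  have e4 : T.tsc.L = T.L := rfl
  have e5 : (cd R h len s).P.nu = (R.nu : ℝ) / 100000 := rfl
  have e6 : (cd R h len s).P.eta = R.par.eta := rfl
  have E2 := eta_nsq R
  set q : ℝ := ((R.e1 * R.e1 + R.e2 * R.e2 : ℤ) : ℝ) with hq
  have f2 : T.tsc.t2 - x2 T.tsc (cd R h len s) ((W.bL : ℝ) / 1000) =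
      (n2 R T W : ℝ) / (10000000000 * (((T.L : ℝ) - 1) * R.nu)) := by
    unfold x2
    rw [e1, e3, e4, e5, e6, E2]
    have : (n2 R T W : ℝ) = (T.t2 : ℝ) * ((T.L : ℝ) - 1) * R.nu * 100000 - (100 * (W.bL : ℝ) - T.be) * q := by
      unfold n2
      rw [hq]
      push_cast
      ring
    rw [this]
    field_simp
    ring
  have f3 : T.tsc.t3 - x3 T.tsc (cd R h len s) ((W.bL : ℝ) / 1000) =
      (n3 R T W : ℝ) / (40000000000 * (((T.L : ℝ) - 1) * R.nu)) := by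
    unfold x3
    rw [e2, e3, e4, e5, e6, E2]
    have : (n3 R T W : ℝ) = (T.t3 : ℝ) * (4 * ((T.L : ℝ) - 1)) * R.nu * 100000 -
        (100 * (W.bL : ℝ) - T.be) * q * T.L := by
      unfold n3
      rw [hq]
      push_cast
      ring
    rw [this]
    field_simp
    ring
  have g0 : (0 : ℝ) < ((T.L : ℝ) - 1) * R.nu := by positivity
  rw [f2, f3, e0]
  refine ⟨⟨by positivity, by positivity, by positivity⟩, ?_, ?_, ?_⟩
  · rw [div_le_div_iff₀ (by positivity) (by norm_num)]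
    linarith
  · rw [div_div_eq_mul_div, div_le_div_iff₀ b4 (by norm_num)]
    linarith
  · rw [div_div_eq_mul_div, div_le_div_iff₀ b5 (by norm_num)]
    linarith

end Pool.Agent.Helper20.SH
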